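import Mathlib

set_option autoImplicit false

/-!
Elementary chains of simplicial sets over a field and comparison with the simplicial homology of
Mathlib.
-/

open CategoryTheory Simplicial Opposite Limits

noncomputable section

namespace Pool.Agent.H5.PC

variable (k : Type) [Field k]

/-- elementary chains -/
abbrev Ch (X : SSet.{0}) (n : ℕ) : Type := X _⦋n⦌ →₀ k

variable {k}

/-- map on elementary chains -/
def cmap {X Y : SSet.{0}} (f : X ⟶ Y) (n : ℕ) : Ch k X n →ₗ[k] Ch k Y n :=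
  Finsupp.lmapDomain k k (fun x => f.app (op ⦋n⦌) x)

@[simp] lemma cmap_single {X Y : SSet.{0}} (f : X ⟶ Y) (n : ℕ) (x : X _⦋n⦌) (a : k) :
    cmap f n (Finsupp.single x a) = Finsupp.single (f.app (op ⦋n⦌) x) a := by
  simp [cmap]

/-- boundary -/
def bd (X : SSet.{0}) (n : ℕ) : Ch k X (n + 1) →ₗ[k] Ch k X n :=
  ∑ i : Fin (n + 2), ((-1 : k) ^ (i : ℕ)) • Finsupp.lmapDomain k k (fun x => X.δ i x)

lemma bd_single (X : SSet.{0}) (n : ℕ) (x : X _⦋n+1⦌) (a : k) :
    bd X n (Finsupp.single x a) =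
      ∑ i : Fin (n + 2), ((-1 : k) ^ (i : ℕ)) • Finsupp.single (X.δ i x) a := by
  simp [bd, LinearMap.sum_apply]

/-- the complex of elementary chains -/
abbrev FC : SSet.{0} ⥤ ChainComplex (ModuleCat.{0} k) ℕ :=
  (SimplicialObject.whiskering _ _).obj (ModuleCat.free k) ⋙
    AlgebraicTopology.alternatingFaceMapComplex (ModuleCat.{0} k)

lemma hom_sum_smul {ι : Type} (s : Finset ι) (c : ι → ℤ) {M N : ModuleCat.{0} k} (f : ι → (M ⟶ N)) :
    (∑ i ∈ s, c i • f i).hom = ∑ i ∈ s, c i • (f i).hom := by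
  rw [ModuleCat.hom_sum]
  rfl

lemma sign_smul {A B : Type} [AddCommGroup A] [Module k A] [AddCommGroup B] [Module k B]
    (g : A →ₗ[k] B) (i : ℕ) : ((-1 : ℤ) ^ i) • g = ((-1 : k) ^ i) • g := by
  rcases Nat.even_or_odd i with h | h <;> simp [h]

lemma FC_d (X : SSet.{0}) (n : ℕ) :
    (((FC (k := k)).obj X).d (n + 1) n).hom = bd X n := by
  have h : ((FC (k := k)).obj X).d (n + 1) n =
      ∑ i : Fin (n + 2), (-1 : ℤ) ^ (i : ℕ) • (ModuleCat.free k).map (X.δ i) := by
    simp [FC]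
    rfl
  have h2 : (((FC (k := k)).obj X).d (n + 1) n).hom =
    (∑ i : Fin (n + 2), (-1 : ℤ) ^ (i : ℕ) • (ModuleCat.free k).map (X.δ i)).hom :=
    congrArg _ h
  refine h2.trans ?_
  refine (hom_sum_smul _ _ _).trans ?_
  unfold bd
  exact Finset.sum_congr rfl fun i _ => sign_smul _ _

lemma FC_map {X Y : SSet.{0}} (f : X ⟶ Y) (n : ℕ) :
    (((FC (k := k)).map f).f n).hom = cmap f n := rfl

lemma bd_bd (X : SSet.{0}) (n : ℕ) (z : Ch k X (n + 2)) : bd X n (bd X (n + 1) z) = 0 := by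
  have h := ((FC (k := k)).obj X).d_comp_d (n + 2) (n + 1) n
  have h2 := congrArg (fun f => f.hom z) h
  have h3 : (((FC (k := k)).obj X).d (n + 1) n).hom
    ((((FC (k := k)).obj X).d (n + 2) (n+1)).hom z) = 0 := h2
  rw [FC_d, FC_d] at h3
  exact h3

lemma bd_cmap {X Y : SSet.{0}} (f : X ⟶ Y) (n : ℕ) (z : Ch k X (n + 1)) :
    bd Y n (cmap f (n + 1) z) = cmap f n (bd X n z) := by
  have h := ((FC (k := k)).map f).comm (n + 1) n
  have h2 := congrArg (fun f => f.hom z) h
  have h3 : (((FC (k := k)).obj Y).d (n + 1) n).hom ((((FC (k := k)).map f).f (n+1)).hom z) =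
    (((FC (k := k)).map f).f n).hom ((((FC (k := k)).obj X).d (n + 1) n).hom z) := h2
  rw [FC_d, FC_d, FC_map, FC_map] at h3
  exact h3

@[simp] lemma cmap_id (X : SSet.{0}) (n : ℕ) (z : Ch k X n) : cmap (𝟙 X) n z = z := by
  have : cmap (k := k) (𝟙 X) n = LinearMap.id := by
    apply Finsupp.lhom_ext
    intro x a
    simp
  rw [this]; rfl

lemma cmap_comp {X Y Z : SSet.{0}} (f : X ⟶ Y) (g : Y ⟶ Z) (n : ℕ) (z : Ch k X n) :
    cmap (f ≫ g) n z = cmap g n (cmap f n z) := by
  have : cmap (k := k) (f ≫ g) n = (cmap g n) ∘ₗ (cmap f n) := by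
    apply Finsupp.lhom_ext
    intro x a
    simp
  rw [this]; rfl

/-- the canonical map -/
def sfHom (T : Type) : (∐ fun _ : T => ModuleCat.of k k) ⟶ ModuleCat.of k (T →₀ k) :=
  Sigma.desc (fun t : T => ModuleCat.ofHom (Finsupp.lsingle t))

/-- the canonical map -/
def sfInv (T : Type) : ModuleCat.of k (T →₀ k) ⟶ (∐ fun _ : T => ModuleCat.of k k) :=
  ModuleCat.ofHom (Finsupp.lsum k (fun t : T => (Sigma.ι (fun _ : T => ModuleCat.of k k) t).hom))

lemma ι_sfHom (T : Type) (t : T) : Sigma.ι (fun _ : T => ModuleCat.of k k) t ≫ sfHom T =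
    ModuleCat.ofHom (Finsupp.lsingle t) := Sigma.ι_desc _ _

lemma single_sfInv (T : Type) (t : T) : ModuleCat.ofHom (Finsupp.lsingle t) ≫ sfInv (k := k) T =
    Sigma.ι (fun _ : T => ModuleCat.of k k) t := by
  apply ModuleCat.hom_ext
  apply LinearMap.ext_ring
  simp [sfInv]

lemma sf1 (T : Type) : sfHom (k := k) T ≫ sfInv T = 𝟙 _ := by
  apply Sigma.hom_ext
  intro t
  rw [← Category.assoc, ι_sfHom, single_sfInv, Category.comp_id]

lemma free_ext {T : Type} {M : ModuleCat.{0} k} {f g : ModuleCat.of k (T →₀ k) ⟶ M}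
    (h : ∀ t : T, ModuleCat.ofHom (Finsupp.lsingle t) ≫ f =
      ModuleCat.ofHom (Finsupp.lsingle t) ≫ g) : f = g := by
  apply ModuleCat.hom_ext
  apply Finsupp.lhom_ext'
  intro t
  exact congrArg ModuleCat.Hom.hom (h t)

lemma sf2 (T : Type) : sfInv (k := k) T ≫ sfHom T = 𝟙 _ := by
  apply free_ext
  intro t
  rw [← Category.assoc, single_sfInv, ι_sfHom, Category.comp_id]

/-- coproducts of copies of the coefficients are free modules -/
def sigmaFreeIso (T : Type) : (∐ fun _ : T => ModuleCat.of k k) ≅ ModuleCat.of k (T →₀ k) where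
  hom := sfHom T
  inv := sfInv T
  hom_inv_id := sf1 T
  inv_hom_id := sf2 T

/-- coproducts of copies of the coefficients are free modules -/
def sigmaFree : (sigmaConst.obj (ModuleCat.of k k) : Type ⥤ ModuleCat.{0} k) ≅
    ModuleCat.free k :=
  NatIso.ofComponents (fun T => sigmaFreeIso T) (by
    intro S T f
    apply Sigma.hom_ext
    intro t
    have h1 : Sigma.ι (fun _ : S => ModuleCat.of k k) t ≫
      ((sigmaConst.obj (ModuleCat.of k k)).map f ≫ (sigmaFreeIso T).hom) =
        ModuleCat.ofHom (Finsupp.lsingle (f t)) := by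
      rw [← Category.assoc]
      have : Sigma.ι (fun _ : S => ModuleCat.of k k) t ≫ (sigmaConst.obj (ModuleCat.of k k)).map f =
        Sigma.ι (fun _ : T => ModuleCat.of k k) (f t) := by simp
      rw [this]
      exact ι_sfHom _ _
    have h2 : Sigma.ι (fun _ : S => ModuleCat.of k k) t ≫
      ((sigmaFreeIso S).hom ≫ ModuleCat.ofHom (Finsupp.lmapDomain k k f)) = ModuleCat.ofHom (Finsupp.lsingle (f t)) := by
      rw [← Category.assoc]
      have : Sigma.ι (fun _ : S => ModuleCat.of k k) t ≫ (sigmaFreeIso S).hom = 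
        ModuleCat.ofHom (Finsupp.lsingle t) := ι_sfHom _ _
      rw [this]
      apply ModuleCat.hom_ext
      apply LinearMap.ext_ring
      change (Finsupp.lmapDomain k k f) (Finsupp.single t 1) = Finsupp.single (f t) 1
      simp
    exact h1.trans h2.symm)

/-- comparison with the simplicial chain complex of Mathlib -/
def chIso : (SSet.chainComplexFunctor (ModuleCat.{0} k)).obj (ModuleCat.of k k) ≅ FC (k := k) :=
  Functor.isoWhiskerRight ((SimplicialObject.whiskering _ _).mapIso sigmaFree) _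

end Pool.Agent.H5.PC
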