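import Mathlib
import Pool.Agent.H5.PC.Chains

set_option autoImplicit false

open CategoryTheory Simplicial Opposite Limits

noncomputable section

namespace Pool.Agent.H5.PC

variable {k : Type} [Field k]

section gen

variable (K : ChainComplex (ModuleCat.{0} k) ℕ) (n : ℕ)

lemma exists_cycle (x : K.X n) (hx : (K.d n ((ComplexShape.down ℕ).next n)) x = 0) :
    ∃ c : K.cycles n, (K.iCycles n) c = x := by
  let f : ModuleCat.of k k ⟶ K.X n := ModuleCat.ofHom (LinearMap.toSpanSingleton k _ x)
  have hf : f ≫ K.d n ((ComplexShape.down ℕ).next n) = 0 := by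
    apply ModuleCat.hom_ext
    apply LinearMap.ext_ring
    simp [f]
    exact hx
  refine ⟨(K.liftCycles f _ rfl hf).hom 1, ?_⟩
  have h := K.liftCycles_i f _ rfl hf
  have h2 := congrArg (fun f => f.hom (1 : k)) h
  refine Eq.trans h2 ?_
  simp [f]

lemma iCycles_d (c : K.cycles n) :
    (K.d n ((ComplexShape.down ℕ).next n)) ((K.iCycles n) c) = 0 := by
  have h := K.iCycles_d n ((ComplexShape.down ℕ).next n)
  exact congrArg (fun f => f.hom c) h

lemma iCycles_inj {c c' : K.cycles n} (h : (K.iCycles n) c = (K.iCycles n) c') : c = c' :=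
  (ModuleCat.mono_iff_injective _).1 inferInstance h

lemma homologyπ_surj (h : K.homology n) : ∃ c : K.cycles n, (K.homologyπ n) c = h :=
  (ModuleCat.epi_iff_surjective _).1 inferInstance h

lemma homologyπ_zero_iff (c : K.cycles n) :
    (K.homologyπ n) c = 0 ↔ ∃ b : K.X (n + 1), K.d (n + 1) n b = (K.iCycles n) c := by
  have hp : (ComplexShape.down ℕ).prev n = n + 1 := by simp
  have he : (ShortComplex.mk _ _ (K.toCycles_comp_homologyπ (n + 1) n)).Exact :=
    ShortComplex.exact_of_g_is_cokernel _ (K.homologyIsCokernel (n + 1) n hp)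
  rw [ShortComplex.moduleCat_exact_iff] at he
  constructor
  · intro h
    obtain ⟨b, hb⟩ := he c h
    refine ⟨b, ?_⟩
    have := congrArg (fun f => f.hom b) (K.toCycles_i (n + 1) n)
    refine Eq.trans this.symm ?_
    exact congrArg _ hb
  · rintro ⟨b, hb⟩
    have h1 : K.toCycles (n + 1) n b = c := by
      apply iCycles_inj
      exact (congrArg (fun f => f.hom b) (K.toCycles_i (n + 1) n)).trans hb
    rw [← h1]
    exact congrArg (fun f => f.hom b) (K.toCycles_comp_homologyπ (n + 1) n)

end gen

lemma homologyMap_π {K L : ChainComplex (ModuleCat.{0} k) ℕ} (φ : K ⟶ L) (n : ℕ)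
    (c : K.cycles n) : (HomologicalComplex.homologyMap φ n) ((K.homologyπ n) c) =
      (L.homologyπ n) ((HomologicalComplex.cyclesMap φ n) c) :=
  congrArg (fun f => f.hom c) (HomologicalComplex.homologyπ_naturality φ n)

lemma cyclesMap_ι {K L : ChainComplex (ModuleCat.{0} k) ℕ} (φ : K ⟶ L) (n : ℕ)
    (c : K.cycles n) : (L.iCycles n) ((HomologicalComplex.cyclesMap φ n) c) =
      φ.f n ((K.iCycles n) c) :=
  congrArg (fun f => f.hom c) (HomologicalComplex.cyclesMap_i φ n)

/-- elementary description of a map which is an isomorphism on homology -/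
lemma isIso_homologyMap_iff {K L : ChainComplex (ModuleCat.{0} k) ℕ} (φ : K ⟶ L) (n : ℕ) :
    IsIso (HomologicalComplex.homologyMap φ n) ↔
      (∀ z : K.X n, K.d n ((ComplexShape.down ℕ).next n) z = 0 →
        (∃ w, L.d (n + 1) n w = φ.f n z) → ∃ w, K.d (n + 1) n w = z) ∧
      (∀ w : L.X n, L.d n ((ComplexShape.down ℕ).next n) w = 0 →
        ∃ z : K.X n, K.d n ((ComplexShape.down ℕ).next n) z = 0 ∧
          ∃ v, L.d (n + 1) n v = φ.f n z - w) := by
  have hiso : IsIso (HomologicalComplex.homologyMap φ n) ↔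
      Function.Injective (HomologicalComplex.homologyMap φ n) ∧
      Function.Surjective (HomologicalComplex.homologyMap φ n) := by
    constructor
    · intro h
      exact ⟨(ModuleCat.mono_iff_injective _).1 inferInstance,
        (ModuleCat.epi_iff_surjective _).1 inferInstance⟩
    · rintro ⟨h1, h2⟩
      have := (ModuleCat.mono_iff_injective (HomologicalComplex.homologyMap φ n)).2 h1
      have := (ModuleCat.epi_iff_surjective (HomologicalComplex.homologyMap φ n)).2 h2
      exact isIso_of_mono_of_epi _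
  rw [hiso]
  constructor
  · rintro ⟨hinj, hsurj⟩
    constructor
    · intro z hz ⟨w, hw⟩
      obtain ⟨c, hc⟩ := exists_cycle K n z hz
      have h1 : (HomologicalComplex.homologyMap φ n) ((K.homologyπ n) c) = 0 := by
        rw [homologyMap_π, homologyπ_zero_iff]
        exact ⟨w, by rw [hw, cyclesMap_ι, hc]⟩
      have h2 : (K.homologyπ n) c = 0 := by
        apply hinj
        rw [h1, map_zero]
      rw [homologyπ_zero_iff, hc] at h2
      exact h2
    · intro w hw
      obtain ⟨c, hc⟩ := exists_cycle L n w hw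
      obtain ⟨h, hh⟩ := hsurj ((L.homologyπ n) c)
      obtain ⟨e, he⟩ := homologyπ_surj K n h
      refine ⟨(K.iCycles n) e, iCycles_d K n e, ?_⟩
      have h1 : (L.homologyπ n) ((HomologicalComplex.cyclesMap φ n) e - c) = 0 := by
        rw [map_sub, ← homologyMap_π, he, hh, sub_self]
      rw [homologyπ_zero_iff] at h1
      obtain ⟨b, hb⟩ := h1
      exact ⟨b, by rw [hb, map_sub, cyclesMap_ι, hc]⟩
  · rintro ⟨h1, h2⟩
    constructor
    · apply (injective_iff_map_eq_zero _).2
      intro h hh
      obtain ⟨e, he⟩ := homologyπ_surj K n h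
      rw [← he] at hh ⊢
      rw [homologyMap_π, homologyπ_zero_iff, cyclesMap_ι] at hh
      rw [homologyπ_zero_iff]
      exact h1 _ (iCycles_d K n e) hh
    · intro h
      obtain ⟨c, hc⟩ := homologyπ_surj L n h
      obtain ⟨z, hz, v, hv⟩ := h2 ((L.iCycles n) c) (iCycles_d L n c)
      obtain ⟨e, he⟩ := exists_cycle K n z hz
      refine ⟨(K.homologyπ n) e, ?_⟩
      rw [homologyMap_π, ← hc, ← sub_eq_zero, ← map_sub, homologyπ_zero_iff]
      exact ⟨v, by rw [hv, map_sub, cyclesMap_ι, he]⟩

/-- cycles -/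
def IsCyc (X : SSet.{0}) (n : ℕ) (z : Ch k X n) : Prop :=
  match n, z with
  | 0, _ => True
  | n + 1, z => bd X n z = 0

/-- boundaries -/
def IsBd (X : SSet.{0}) (n : ℕ) (z : Ch k X n) : Prop := ∃ w, bd X n w = z

/-- the elementary formulation of being an isomorphism on homology with coefficients in `k` in
degree `n` -/
def HIso (k : Type) [Field k] {X Y : SSet.{0}} (f : X ⟶ Y) (n : ℕ) : Prop :=
  (∀ z : Ch k X n, IsCyc X n z → IsBd Y n (cmap f n z) → IsBd X n z) ∧
  (∀ w : Ch k Y n, IsCyc Y n w → ∃ z : Ch k X n, IsCyc X n z ∧ IsBd Y n (cmap f n z - w))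

lemma isCyc_iff (X : SSet.{0}) (n : ℕ) (z : Ch k X n) :
    IsCyc X n z ↔ ((FC (k := k)).obj X).d n ((ComplexShape.down ℕ).next n) z = 0 := by
  cases n with
  | zero =>
    have : ((FC (k := k)).obj X).d 0 ((ComplexShape.down ℕ).next 0) = 0 := by
      apply HomologicalComplex.shape
      simp
    rw [this]
    exact ⟨fun _ => rfl, fun _ => trivial⟩
  | succ n =>
    have h : (ComplexShape.down ℕ).next (n + 1) = n := by simp
    rw [h]
    change bd X n z = 0 ↔ _
    rw [← FC_d (k := k) X n]
    rfl

lemma isBd_iff (X : SSet.{0}) (n : ℕ) (z : Ch k X n) :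
    IsBd X n z ↔ ∃ w, ((FC (k := k)).obj X).d (n + 1) n w = z := by
  unfold IsBd
  rw [← FC_d]
  rfl

lemma hIso_iff_FC {X Y : SSet.{0}} (f : X ⟶ Y) (n : ℕ) :
    HIso k f n ↔ IsIso (HomologicalComplex.homologyMap ((FC (k := k)).map f) n) := by
  rw [isIso_homologyMap_iff]
  unfold HIso
  refine and_congr ?_ ?_
  · refine forall_congr' fun z => ?_
    rw [isCyc_iff, isBd_iff, isBd_iff]
    rfl
  · refine forall_congr' fun w => ?_
    refine imp_congr (isCyc_iff Y n w) (exists_congr fun z => ?_)
    exact and_congr (isCyc_iff X n z) (isBd_iff Y n _)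

/-- the comparison with Mathlib -/
theorem isIso_iff_hIso {X Y : SSet.{0}} (f : X ⟶ Y) (n : ℕ) :
    IsIso (SSet.homologyMap f (ModuleCat.of k k) n) ↔ HIso k f n := by
  rw [hIso_iff_FC]
  have h := (chIso (k := k)).hom.naturality f
  have e : HomologicalComplex.homologyMap
      (((SSet.chainComplexFunctor (ModuleCat.{0} k)).obj (ModuleCat.of k k)).map f) n ≫
      HomologicalComplex.homologyMap ((chIso (k := k)).hom.app Y) n =
      HomologicalComplex.homologyMap ((chIso (k := k)).hom.app X) n ≫
      HomologicalComplex.homologyMap ((FC (k := k)).map f) n := by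
    rw [← HomologicalComplex.homologyMap_comp, ← HomologicalComplex.homologyMap_comp, h]
  constructor
  · intro hi
    have : IsIso (HomologicalComplex.homologyMap
      (((SSet.chainComplexFunctor (ModuleCat.{0} k)).obj (ModuleCat.of k k)).map f) n) := hi
    have h2 : IsIso (HomologicalComplex.homologyMap ((chIso (k := k)).hom.app X) n ≫
      HomologicalComplex.homologyMap ((FC (k := k)).map f) n) := by
      rw [← e]; infer_instance
    exact IsIso.of_isIso_comp_left (HomologicalComplex.homologyMap ((chIso (k := k)).hom.app X) n) _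
  · intro hi
    have h2 : IsIso (HomologicalComplex.homologyMap
      (((SSet.chainComplexFunctor (ModuleCat.{0} k)).obj (ModuleCat.of k k)).map f) n ≫
      HomologicalComplex.homologyMap ((chIso (k := k)).hom.app Y) n) := by
      rw [e]; infer_instance
    exact IsIso.of_isIso_comp_right _
      (HomologicalComplex.homologyMap ((chIso (k := k)).hom.app Y) n)

end Pool.Agent.H5.PC
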