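import Mathlib
import Pool.Agent.H5.PC.Bridge

set_option autoImplicit false

/-!
Acyclic carriers for simplicial sets, in low degrees.
-/

open CategoryTheory Simplicial Opposite Limits

noncomputable section

namespace Pool.Agent.H5.PC

variable {k : Type} [Field k]

/-- the operator of a simplex of a standard simplex -/
abbrev opr {m s : ℕ} (θ : (Δ[m] : SSet.{0}) _⦋s⦌) : (⦋s⦌ : SimplexCategory) ⟶ ⦋m⦌ :=
  SSet.stdSimplex.objEquiv θ

/-- the fundamental simplex -/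
def iota (m : ℕ) : (Δ[m] : SSet.{0}) _⦋m⦌ := SSet.stdSimplex.objEquiv.symm (𝟙 _)

@[simp] lemma opr_iota (m : ℕ) : opr (iota m) = 𝟙 _ := by simp [iota]

lemma map_iota {m s : ℕ} (θ : (Δ[m] : SSet.{0}) _⦋s⦌) :
    (SSet.stdSimplex.map (opr θ)).app _ (iota s) = θ := by
  have h := SSet.stdSimplex.objEquiv_symm_comp.{0} (m := op ⦋s⦌) (𝟙 _) (opr θ)
  refine Eq.trans h.symm ?_
  rw [Category.id_comp]
  simp

variable (F : SimplexCategory ⥤ SSet.{0}) (G : SSet.{0})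

/-- extension of a family of chains indexed by the simplices of `G` -/
def ext {s e : ℕ} (ψ : G _⦋s⦌ → Ch k (F.obj ⦋s⦌) e) {m : ℕ} (x : G _⦋m⦌) :
    Ch k (Δ[m] : SSet.{0}) s →ₗ[k] Ch k (F.obj ⦋m⦌) e :=
  Finsupp.lsum k (fun θ => LinearMap.toSpanSingleton k _
    (cmap (F.map (opr θ)) e (ψ (G.map (opr θ).op x))))

lemma ext_single {s e : ℕ} (ψ : G _⦋s⦌ → Ch k (F.obj ⦋s⦌) e) {m : ℕ} (x : G _⦋m⦌)
    (θ : (Δ[m] : SSet.{0}) _⦋s⦌) (a : k) :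
    ext F G ψ x (Finsupp.single θ a) = a • cmap (F.map (opr θ)) e (ψ (G.map (opr θ).op x)) := by
  simp [ext]

lemma ext_iota {s e : ℕ} (ψ : G _⦋s⦌ → Ch k (F.obj ⦋s⦌) e) (x : G _⦋s⦌) :
    ext F G ψ x (Finsupp.single (iota s) 1) = ψ x := by
  rw [ext_single, opr_iota]
  simp

lemma opr_map {m m' s : ℕ} (ρ : (⦋m⦌ : SimplexCategory) ⟶ ⦋m'⦌) (θ : (Δ[m] : SSet.{0}) _⦋s⦌) :
    opr ((SSet.stdSimplex.map ρ).app _ θ) = opr θ ≫ ρ := rfl

lemma ext_nat {s e : ℕ} (ψ : G _⦋s⦌ → Ch k (F.obj ⦋s⦌) e) {m m' : ℕ}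
    (ρ : (⦋m⦌ : SimplexCategory) ⟶ ⦋m'⦌) (x : G _⦋m'⦌) (c : Ch k (Δ[m] : SSet.{0}) s) :
    cmap (F.map ρ) e (ext F G ψ (G.map ρ.op x) c) =
      ext F G ψ x (cmap (SSet.stdSimplex.map ρ) s c) := by
  induction c using Finsupp.induction_linear with
  | zero => simp
  | add f g hf hg => simp only [map_add, hf, hg]
  | single θ a =>
    rw [ext_single, cmap_single, ext_single, map_smul, ← cmap_comp, ← F.map_comp]
    congr 2
    · simp [opr_map]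

/-- the goodness of a family: it commutes with the boundary -/
def ChMap {s e : ℕ} (ψ' : G _⦋s+1⦌ → Ch k (F.obj ⦋s+1⦌) (e + 1))
    (ψ : G _⦋s⦌ → Ch k (F.obj ⦋s⦌) e) : Prop :=
  ∀ x : G _⦋s+1⦌, bd _ e (ψ' x) = ext F G ψ x (bd _ s (Finsupp.single (iota (s+1)) 1))

lemma ext_chMap {s e : ℕ} {ψ' : G _⦋s+1⦌ → Ch k (F.obj ⦋s+1⦌) (e + 1)}
    {ψ : G _⦋s⦌ → Ch k (F.obj ⦋s⦌) e} (h : ChMap F G ψ' ψ) {m : ℕ} (x : G _⦋m⦌)
    (c : Ch k (Δ[m] : SSet.{0}) (s + 1)) :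
    bd _ e (ext F G ψ' x c) = ext F G ψ x (bd _ s c) := by
  induction c using Finsupp.induction_linear with
  | zero => simp
  | add f g hf hg => simp only [map_add, hf, hg]
  | single θ a =>
    have e1 : (Finsupp.single θ a : Ch k (Δ[m] : SSet.{0}) (s+1)) =
      a • cmap (SSet.stdSimplex.map (opr θ)) (s+1) (Finsupp.single (iota (s+1)) 1) := by
      rw [cmap_single, map_iota]; simp
    rw [ext_single, map_smul, bd_cmap, h, ext_nat, ← bd_cmap, cmap_single, map_iota, ← map_smul,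
      ← map_smul]
    simp

/-- relation with a perturbed boundary -/
def ChHtpy {s e : ℕ} (ψ' : G _⦋s+1⦌ → Ch k (F.obj ⦋s+1⦌) (e + 1))
    (ψ : G _⦋s⦌ → Ch k (F.obj ⦋s⦌) e) (c : G _⦋s+1⦌ → Ch k (F.obj ⦋s+1⦌) e) : Prop :=
  ∀ x : G _⦋s+1⦌, bd _ e (ψ' x) + ext F G ψ x (bd _ s (Finsupp.single (iota (s+1)) 1)) = c x

lemma ext_chHtpy {s e : ℕ} {ψ' : G _⦋s+1⦌ → Ch k (F.obj ⦋s+1⦌) (e + 1)}
    {ψ : G _⦋s⦌ → Ch k (F.obj ⦋s⦌) e} {c : G _⦋s+1⦌ → Ch k (F.obj ⦋s+1⦌) e}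
    (h : ChHtpy F G ψ' ψ c) {m : ℕ} (x : G _⦋m⦌)
    (z : Ch k (Δ[m] : SSet.{0}) (s + 1)) :
    bd _ e (ext F G ψ' x z) + ext F G ψ x (bd _ s z) = ext F G c x z := by
  induction z using Finsupp.induction_linear with
  | zero => simp
  | add f g hf hg =>
    simp only [map_add]
    rw [← hf, ← hg]; abel
  | single θ a =>
    have e1 : (Finsupp.single θ a : Ch k (Δ[m] : SSet.{0}) (s+1)) =
      a • cmap (SSet.stdSimplex.map (opr θ)) (s+1) (Finsupp.single (iota (s+1)) 1) := by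
      rw [cmap_single, map_iota]; simp
    rw [ext_single, ext_single, map_smul, bd_cmap, ← h, e1, map_smul, map_smul, bd_cmap, ← ext_nat,
      ← smul_add, ← map_add]

end Pool.Agent.H5.PC
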