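import Mathlib
import Pool.Agent.H5.PC.Carrier

set_option autoImplicit false

/-!
Acyclic carriers for simplicial sets, in low degrees: existence of chain maps and homotopies.
-/

open CategoryTheory Simplicial Opposite Limits

noncomputable section

namespace Pool.Agent.H5.PC

variable {k : Type} [Field k]

/-- augmentation -/
def aug (X : SSet.{0}) : Ch k X 0 →ₗ[k] k := Finsupp.lsum k (fun _ => LinearMap.id)

@[simp] lemma aug_single (X : SSet.{0}) (x : X _⦋0⦌) (a : k) : aug X (Finsupp.single x a) = a := by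
  simp [aug]

lemma aug_cmap {X Y : SSet.{0}} (f : X ⟶ Y) (c : Ch k X 0) : aug Y (cmap f 0 c) = aug X c := by
  induction c using Finsupp.induction_linear with
  | zero => simp
  | add f g hf hg => simp only [map_add, hf, hg]
  | single θ a => simp

lemma aug_bd (X : SSet.{0}) (c : Ch k X 1) : aug X (bd X 0 c) = 0 := by
  induction c using Finsupp.induction_linear with
  | zero => simp
  | add f g hf hg => simp only [map_add, hf, hg, add_zero]
  | single θ a =>
    rw [bd_single, Fin.sum_univ_two, map_add, map_smul, map_smul, aug_single, aug_single]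
    simp

variable (k)
variable (F : SimplexCategory ⥤ SSet.{0}) (G : SSet.{0})

/-- carriers -/
structure Carr where
  /-- the chains supported in the carrier -/
  D : ∀ (m : ℕ) (_ : G _⦋m⦌) (n : ℕ), Submodule k (Ch k (F.obj ⦋m⦌) n)
  map : ∀ {m m' : ℕ} (ρ : (⦋m⦌ : SimplexCategory) ⟶ ⦋m'⦌) (x : G _⦋m'⦌) (n : ℕ)
    (c : Ch k (F.obj ⦋m⦌) n), c ∈ D m (G.map ρ.op x) n → cmap (F.map ρ) n c ∈ D m' x n
  bd_mem : ∀ (m : ℕ) (x : G _⦋m⦌) (n : ℕ) (c : Ch k (F.obj ⦋m⦌) (n + 1)),
    c ∈ D m x (n + 1) → bd _ n c ∈ D m x n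

variable {k F G}

/-- acyclicity in degrees less than `N` -/
structure Carr.Acyc (C : Carr k F G) (N : ℕ) : Prop where
  vert : ∀ (m : ℕ) (x : G _⦋m⦌), ∃ v ∈ C.D m x 0, aug _ v = 1
  zero : 0 < N → ∀ (m : ℕ) (x : G _⦋m⦌), ∀ c ∈ C.D m x 0, aug _ c = 0 → ∃ w ∈ C.D m x 1,
    bd _ 0 w = c
  succ : ∀ j, j + 1 < N → ∀ (m : ℕ) (x : G _⦋m⦌), ∀ c ∈ C.D m x (j + 1), bd _ j c = 0 →
    ∃ w ∈ C.D m x (j + 2), bd _ (j + 1) w = c

namespace Carr

variable (C : Carr k F G)

lemma ext_mem {s e : ℕ} {ψ : G _⦋s⦌ → Ch k (F.obj ⦋s⦌) e} (h : ∀ x, ψ x ∈ C.D s x e)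
    {m : ℕ} (x : G _⦋m⦌) (c : Ch k (Δ[m] : SSet.{0}) s) : ext F G ψ x c ∈ C.D m x e := by
  induction c using Finsupp.induction_linear with
  | zero => simp
  | add f g hf hg => rw [map_add]; exact add_mem hf hg
  | single θ a =>
    rw [ext_single]
    exact Submodule.smul_mem _ _ (C.map _ _ _ _ (h _))

open Classical in
/-- the chain map -/
def phi (v : ∀ x : G _⦋0⦌, Ch k (F.obj ⦋0⦌) 0) (s : ℕ) : G _⦋s⦌ → Ch k (F.obj ⦋s⦌) s :=
  match s with
  | 0 => v
  | s + 1 => fun x =>
    if h : ∃ w ∈ C.D (s + 1) x (s + 1),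
      bd _ s w = ext F G (phi v s) x (bd _ s (Finsupp.single (iota (s+1)) 1)) then h.choose else 0

lemma exists_phi {N : ℕ} (hC : C.Acyc N) : ∃ φ : ∀ s : ℕ, G _⦋s⦌ → Ch k (F.obj ⦋s⦌) s,
    (∀ s x, φ s x ∈ C.D s x s) ∧ (∀ x, aug _ (φ 0 x) = 1) ∧
    ∀ s, s < N → ChMap F G (φ (s + 1)) (φ s) := by
  choose v hv1 hv2 using hC.vert 0
  have hmem : ∀ s x, C.phi v s x ∈ C.D s x s := by
    intro s x
    cases s with
    | zero => exact hv1 x
    | succ s =>
      unfold phi
      split_ifs with h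
      · exact h.choose_spec.1
      · exact zero_mem _
  have haug : ∀ {m : ℕ} (x : G _⦋m⦌) (c : Ch k (Δ[m] : SSet.{0}) 0),
      aug _ (ext F G (C.phi v 0) x c) = aug _ c := by
    intro m x c
    induction c using Finsupp.induction_linear with
    | zero => simp
    | add f g hf hg => simp only [map_add, hf, hg]
    | single θ a =>
      rw [ext_single, map_smul, aug_cmap]
      have : aug _ (C.phi v 0 ((ConcreteCategory.hom (G.map (opr θ).op)) x)) = 1 := hv2 _
      rw [this]; simp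
  refine ⟨C.phi v, hmem, hv2, ?_⟩
  intro s
  induction s with
  | zero =>
    intro hN x
    have h : ∃ w ∈ C.D 1 x 1,
      bd _ 0 w = ext F G (C.phi v 0) x (bd _ 0 (Finsupp.single (iota 1) 1)) := by
      obtain ⟨w, hw, hw2⟩ := hC.zero hN 1 x _ (C.ext_mem (hmem 0) x
        (bd _ 0 (Finsupp.single (iota 1) 1))) (by rw [haug, aug_bd])
      exact ⟨w, hw, hw2⟩
    have : C.phi v 1 x = h.choose := by
      conv_lhs => unfold phi
      exact dif_pos h
    rw [this]
    exact h.choose_spec.2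
  | succ s ih =>
    intro hN x
    have h : ∃ w ∈ C.D (s + 2) x (s + 2),
      bd _ (s + 1) w = ext F G (C.phi v (s + 1)) x
        (bd _ (s + 1) (Finsupp.single (iota (s + 2)) 1)) := by
      obtain ⟨w, hw, hw2⟩ := hC.succ s hN (s + 2) x _ (C.ext_mem (hmem (s + 1)) x
        (bd _ (s + 1) (Finsupp.single (iota (s + 2)) 1))) (by
          rw [ext_chMap F G (ih (by omega)), bd_bd, map_zero])
      exact ⟨w, hw, hw2⟩
    have : C.phi v (s + 2) x = h.choose := by
      conv_lhs => unfold phi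
      exact dif_pos h
    rw [this]
    exact h.choose_spec.2

open Classical in
/-- the homotopy -/
def hot (c : ∀ s : ℕ, G _⦋s⦌ → Ch k (F.obj ⦋s⦌) s) (s : ℕ) :
    G _⦋s⦌ → Ch k (F.obj ⦋s⦌) (s + 1) :=
  match s with
  | 0 => fun x => if h : ∃ w ∈ C.D 0 x 1, bd _ 0 w = c 0 x then h.choose else 0
  | s + 1 => fun x =>
    if h : ∃ w ∈ C.D (s + 1) x (s + 2),
      bd _ (s + 1) w = c (s + 1) x -
        ext F G (hot c s) x (bd _ s (Finsupp.single (iota (s+1)) 1)) then h.choose else 0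

lemma exists_hot {N : ℕ} (hC : C.Acyc N) (c : ∀ s : ℕ, G _⦋s⦌ → Ch k (F.obj ⦋s⦌) s)
    (hc : ∀ s x, c s x ∈ C.D s x s) (h0 : ∀ x, aug _ (c 0 x) = 0)
    (hch : ∀ s, s + 1 < N → ChMap F G (c (s + 1)) (c s)) :
    ∃ h : ∀ s : ℕ, G _⦋s⦌ → Ch k (F.obj ⦋s⦌) (s + 1),
    (∀ s x, h s x ∈ C.D s x (s + 1)) ∧ (0 < N → ∀ x, bd _ 0 (h 0 x) = c 0 x) ∧
    ∀ s, s + 1 < N → ChHtpy F G (h (s + 1)) (h s) (c (s + 1)) := by
  have hmem : ∀ s x, C.hot c s x ∈ C.D s x (s + 1) := by
    intro s x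
    cases s with
    | zero =>
      unfold hot
      split_ifs with h
      · exact h.choose_spec.1
      · exact zero_mem _
    | succ s =>
      unfold hot
      split_ifs with h
      · exact h.choose_spec.1
      · exact zero_mem _
  have hz : 0 < N → ∀ x, bd _ 0 (C.hot c 0 x) = c 0 x := by
    intro hN x
    have h : ∃ w ∈ C.D 0 x 1, bd _ 0 w = c 0 x := hC.zero hN 0 x _ (hc 0 x) (h0 x)
    have : C.hot c 0 x = h.choose := by
      conv_lhs => unfold hot
      exact dif_pos h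
    rw [this]
    exact h.choose_spec.2
  have hz' : 0 < N → ∀ {m : ℕ} (x : G _⦋m⦌) (z : Ch k (Δ[m] : SSet.{0}) 0),
      bd _ 0 (ext F G (C.hot c 0) x z) = ext F G (c 0) x z := by
    intro hN m x z
    induction z using Finsupp.induction_linear with
    | zero => simp
    | add f g hf hg => simp only [map_add, hf, hg]
    | single θ a => rw [ext_single, ext_single, map_smul, bd_cmap, hz hN]
  have key : ∀ s, s + 1 < N → ∀ x : G _⦋s+1⦌, ext F G (c s) x
        (bd _ s (Finsupp.single (iota (s+1)) 1)) =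
        bd _ s (ext F G (C.hot c s) x (bd _ s (Finsupp.single (iota (s+1)) 1))) → 
        bd _ (s + 1) (C.hot c (s + 1) x) + ext F G (C.hot c s) x
          (bd _ s (Finsupp.single (iota (s+1)) 1)) = c (s + 1) x := by
    intro s hN x hx
    have h : ∃ w ∈ C.D (s + 1) x (s + 2),
      bd _ (s + 1) w = c (s + 1) x -
        ext F G (C.hot c s) x (bd _ s (Finsupp.single (iota (s+1)) 1)) := by
      apply hC.succ s hN
      · exact sub_mem (hc _ _) (C.ext_mem (hmem s) x _)
      · rw [map_sub, hch s hN, hx, sub_self]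
    have : C.hot c (s + 1) x = h.choose := by
      conv_lhs => unfold hot
      exact dif_pos h
    rw [this, h.choose_spec.2]
    abel
  refine ⟨C.hot c, hmem, hz, ?_⟩
  intro s
  induction s with
  | zero =>
    intro hN x
    exact key 0 hN x (hz' (by omega) _ _).symm
  | succ s ih =>
    intro hN x
    apply key (s + 1) hN x
    have := ext_chHtpy F G (ih (by omega)) x (bd _ (s+1) (Finsupp.single (iota (s+2)) 1))
    rw [bd_bd, map_zero, add_zero] at this
    exact this.symm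

end Carr

end Pool.Agent.H5.PC
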