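import Mathlib
import Pool.Agent.H5.PC.Carrier2

set_option autoImplicit false

/-!
Homology of a simplicial map with fibres which are acyclic in low degrees.
-/

open CategoryTheory Simplicial Opposite Limits

noncomputable section

namespace Pool.Agent.H5.PC

variable {k : Type} [Field k]

/-- the products of the standard simplices with `E` -/
def PE (E : SSet.{0}) : SimplexCategory ⥤ SSet.{0} where
  obj m :=
    { obj := fun n => (n.unop ⟶ m) × E.obj n
      map := fun θ => ↾fun x => (θ.unop ≫ x.1, E.map θ x.2)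
      map_id := fun n => by ext x <;> simp
      map_comp := fun f g => by ext x <;> simp }
  map ρ :=
    { app := fun n => ↾fun x => (x.1 ≫ ρ, x.2)
      naturality := fun n n' f => by ext x <;> simp }
  map_id m := by ext n x <;> simp
  map_comp f g := by ext n x <;> simp

/-- simplices of the products -/
def mkPE {E : SSet.{0}} {m n : ℕ} (α : (⦋n⦌ : SimplexCategory) ⟶ ⦋m⦌) (e : E _⦋n⦌) :
    ((PE E).obj ⦋m⦌) _⦋n⦌ := (α, e)

lemma map_mkPE {E : SSet.{0}} {m m' n : ℕ} (α : (⦋n⦌ : SimplexCategory) ⟶ ⦋m⦌) (e : E _⦋n⦌)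
    (ρ : (⦋m⦌ : SimplexCategory) ⟶ ⦋m'⦌) :
    ((PE E).map ρ).app (op ⦋n⦌) (mkPE α e) = mkPE (α ≫ ρ) e := rfl

lemma δ_mkPE {E : SSet.{0}} {m n : ℕ} (α : (⦋n+1⦌ : SimplexCategory) ⟶ ⦋m⦌) (e : E _⦋n+1⦌)
    (i : Fin (n + 2)) :
    ((PE E).obj ⦋m⦌).δ i (mkPE α e) = mkPE (SimplexCategory.δ i ≫ α) (E.δ i e) := rfl

/-- projection to `E` -/
def pE (E : SSet.{0}) (m : SimplexCategory) : (PE E).obj m ⟶ E where
  app _ := ↾fun x => x.2
  naturality _ _ _ := rfl

/-- projection to the simplex -/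
def pD (E : SSet.{0}) (m : SimplexCategory) : (PE E).obj m ⟶ SSet.stdSimplex.obj m where
  app _ := ↾fun x => SSet.stdSimplex.objEquiv.symm x.1
  naturality _ _ _ := rfl

section glob

variable (F : SimplexCategory ⥤ SSet.{0}) (G T : SSet.{0})

/-- compatible maps from the models to `T` -/
structure Comp where
  p : ∀ {m : ℕ}, G _⦋m⦌ → (F.obj ⦋m⦌ ⟶ T)
  nat : ∀ {m m' : ℕ} (ρ : (⦋m⦌ : SimplexCategory) ⟶ ⦋m'⦌) (x : G _⦋m'⦌),
    F.map ρ ≫ p x = p (G.map ρ.op x)

variable {F G T}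

/-- the map to chains of `T` -/
def glob (P : Comp F G T) {s e : ℕ} (ψ : G _⦋s⦌ → Ch k (F.obj ⦋s⦌) e) :
    Ch k G s →ₗ[k] Ch k T e :=
  Finsupp.lsum k (fun x => LinearMap.toSpanSingleton k _ (cmap (P.p x) e (ψ x)))

lemma glob_single (P : Comp F G T) {s e : ℕ} (ψ : G _⦋s⦌ → Ch k (F.obj ⦋s⦌) e) (x : G _⦋s⦌)
    (a : k) : glob P ψ (Finsupp.single x a) = a • cmap (P.p x) e (ψ x) := by
  simp [glob]

lemma glob_ext (P : Comp F G T) {s e : ℕ} (ψ : G _⦋s⦌ → Ch k (F.obj ⦋s⦌) e) {m : ℕ}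
    (x : G _⦋m⦌) (c : Ch k (Δ[m] : SSet.{0}) s) :
    cmap (P.p x) e (ext F G ψ x c) = glob P ψ (cmap (SSet.yonedaEquiv.symm x) s c) := by
  induction c using Finsupp.induction_linear with
  | zero => simp
  | add f g hf hg => simp only [map_add, hf, hg]
  | single θ a =>
    rw [ext_single, map_smul, cmap_single, glob_single, ← cmap_comp, P.nat]
    rfl

lemma yon_iota {s : ℕ} (x : G _⦋s⦌) :
    cmap (k := k) (SSet.yonedaEquiv.symm x) s (Finsupp.single (iota s) 1) =
      Finsupp.single x 1 := by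
  rw [cmap_single]
  congr 1
  have := SSet.yonedaEquiv_symm_app_objEquiv_symm.{0} x (m := op ⦋s⦌) (𝟙 _)
  refine Eq.trans this ?_
  simp

/-- the basic computation -/
lemma glob_bd (P : Comp F G T) {s e : ℕ} (ψ : G _⦋s⦌ → Ch k (F.obj ⦋s⦌) e) (x : G _⦋s+1⦌) :
    glob P ψ (bd _ s (Finsupp.single x 1)) =
      cmap (P.p x) e (ext F G ψ x (bd _ s (Finsupp.single (iota (s+1)) 1))) := by
  rw [glob_ext, ← bd_cmap, yon_iota]

lemma glob_chMap (P : Comp F G T) {s e : ℕ} {ψ' : G _⦋s+1⦌ → Ch k (F.obj ⦋s+1⦌) (e + 1)}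
    {ψ : G _⦋s⦌ → Ch k (F.obj ⦋s⦌) e} (h : ChMap F G ψ' ψ) (c : Ch k G (s + 1)) :
    bd _ e (glob P ψ' c) = glob P ψ (bd _ s c) := by
  induction c using Finsupp.induction_linear with
  | zero => simp
  | add f g hf hg => simp only [map_add, hf, hg]
  | single x a =>
    have e1 : (Finsupp.single x a : Ch k G (s+1)) = a • Finsupp.single x 1 := by simp
    rw [e1, map_smul, map_smul, map_smul, map_smul, glob_bd, glob_single, one_smul, bd_cmap, h]

lemma glob_chHtpy (P : Comp F G T) {s e : ℕ} {ψ' : G _⦋s+1⦌ → Ch k (F.obj ⦋s+1⦌) (e + 1)}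
    {ψ : G _⦋s⦌ → Ch k (F.obj ⦋s⦌) e} {c : G _⦋s+1⦌ → Ch k (F.obj ⦋s+1⦌) e}
    (h : ChHtpy F G ψ' ψ c) (z : Ch k G (s + 1)) :
    bd _ e (glob P ψ' z) + glob P ψ (bd _ s z) = glob P c z := by
  induction z using Finsupp.induction_linear with
  | zero => simp
  | add f g hf hg =>
    simp only [map_add]
    rw [← hf, ← hg]; abel
  | single x a =>
    have e1 : (Finsupp.single x a : Ch k G (s+1)) = a • Finsupp.single x 1 := by simp
    rw [e1, map_smul, map_smul, map_smul, map_smul, map_smul, glob_bd, glob_single, glob_single,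
      one_smul, one_smul, bd_cmap, ← h, map_add, smul_add]

end glob

section viet

variable {E B : SSet.{0}} (π : E ⟶ B)

/-- the fibre over a simplex -/
def DS {m : ℕ} (x : B _⦋m⦌) (n : ℕ) : Set (((PE E).obj ⦋m⦌) _⦋n⦌) :=
  {y | π.app (op ⦋n⦌) y.2 = B.map y.1.op x}

lemma supported_cmap {X Y : SSet.{0}} (f : X ⟶ Y) (n : ℕ) (S : Set (X _⦋n⦌)) (T : Set (Y _⦋n⦌))
    (h : ∀ x ∈ S, f.app (op ⦋n⦌) x ∈ T) (c : Ch k X n) (hc : c ∈ Finsupp.supported k k S) :
    cmap f n c ∈ Finsupp.supported k k T := by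
  rw [Finsupp.supported_eq_span_single] at hc
  induction hc using Submodule.span_induction with
  | mem x hx =>
    obtain ⟨y, hy, rfl⟩ := hx
    rw [cmap_single]
    exact Finsupp.single_mem_supported _ _ (h _ hy)
  | zero => simp
  | add x y _ _ hx hy => rw [map_add]; exact add_mem hx hy
  | smul a x _ hx => rw [map_smul]; exact Submodule.smul_mem _ _ hx

lemma supported_bd {X : SSet.{0}} (n : ℕ) (S : Set (X _⦋n+1⦌)) (T : Set (X _⦋n⦌))
    (h : ∀ x ∈ S, ∀ i, X.δ i x ∈ T) (c : Ch k X (n + 1)) (hc : c ∈ Finsupp.supported k k S) :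
    bd X n c ∈ Finsupp.supported k k T := by
  rw [Finsupp.supported_eq_span_single] at hc
  induction hc using Submodule.span_induction with
  | mem x hx =>
    obtain ⟨y, hy, rfl⟩ := hx
    rw [bd_single]
    exact Submodule.sum_mem _ fun i _ => Submodule.smul_mem _ _
      (Finsupp.single_mem_supported _ _ (h _ hy i))
  | zero => simp
  | add x y _ _ hx hy => rw [map_add]; exact add_mem hx hy
  | smul a x _ hx => rw [map_smul]; exact Submodule.smul_mem _ _ hx

/-- the carrier of fibres -/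
def fibCarr : Carr k (PE E) B where
  D m x n := Finsupp.supported k k (DS π x n)
  map ρ x n c hc := by
    refine supported_cmap _ _ _ _ ?_ c hc
    intro y hy
    change π.app _ y.2 = B.map (y.1 ≫ ρ).op x
    rw [op_comp, B.map_comp]
    exact hy
  bd_mem m x n c hc := by
    refine supported_bd _ _ _ ?_ c hc
    intro y hy i
    have h1 : π.app _ y.2 = B.map y.1.op x := hy
    change π.app _ (E.map (SimplexCategory.δ i).op y.2) =
      B.map (SimplexCategory.δ i ≫ y.1).op x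
    have h2 := ConcreteCategory.congr_hom (π.naturality (SimplexCategory.δ i).op) y.2
    refine Eq.trans h2 ?_
    rw [op_comp, B.map_comp]
    exact congrArg _ h1

/-- the tautological family -/
def hat (s : ℕ) (e : E _⦋s⦌) : Ch k ((PE E).obj ⦋s⦌) s := Finsupp.single (mkPE (𝟙 _) e) 1

lemma ext_hat {s m : ℕ} (x : E _⦋m⦌) (θ : (Δ[m] : SSet.{0}) _⦋s⦌) :
    ext (PE E) E (hat (k := k) s) x (Finsupp.single θ 1) =
      Finsupp.single (mkPE (opr θ) (E.map (opr θ).op x)) 1 := by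
  rw [ext_single, one_smul]
  unfold hat
  rw [cmap_single, map_mkPE, Category.id_comp]

lemma hat_chMap (s : ℕ) : ChMap (PE E) E (hat (k := k) (s + 1)) (hat s) := by
  intro x
  rw [bd_single, map_sum]
  conv_lhs => unfold hat
  rw [bd_single]
  refine Finset.sum_congr rfl fun i _ => ?_
  rw [map_smul, ext_hat, δ_mkPE, Category.comp_id]
  congr 3

end viet

end Pool.Agent.H5.PC
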