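import Mathlib
import Pool.Agent.H5.PC.Viet

set_option autoImplicit false

/-!
Homology of a simplicial map with fibres which are acyclic in low degrees.
-/

open CategoryTheory Simplicial Opposite Limits

noncomputable section

namespace Pool.Agent.H5.PC

variable {k : Type} [Field k]

variable {E B : SSet.{0}} (π : E ⟶ B)

/-- the pulled back carrier -/
def fibCarr' : Carr k (PE E) E where
  D m x n := (fibCarr π).D m (π.app _ x) n
  map ρ x n c hc := by
    have h2 := ConcreteCategory.congr_hom (π.naturality ρ.op) x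
    have h3 : π.app _ (E.map ρ.op x) = B.map ρ.op (π.app _ x) := h2
    rw [h3] at hc
    exact (fibCarr π).map ρ _ n c hc
  bd_mem m x n c hc := (fibCarr π).bd_mem m _ n c hc

lemma fibCarr'_acyc {N : ℕ} (h : (fibCarr (k := k) π).Acyc N) :
    (fibCarr' (k := k) π).Acyc N where
  vert m _ := h.vert m _
  zero hN m _ := h.zero hN m _
  succ j hj m _ := h.succ j hj m _

/-- the compatible maps to `E` -/
def compE : Comp (PE E) B E where
  p _ := pE E _
  nat _ _ := rfl

/-- the compatible maps to `E` -/
def compE' : Comp (PE E) E E where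
  p _ := pE E _
  nat _ _ := rfl

lemma ext_comp {s e m : ℕ} (φ : B _⦋s⦌ → Ch k ((PE E).obj ⦋s⦌) e) (x : E _⦋m⦌)
    (c : Ch k (Δ[m] : SSet.{0}) s) :
    ext (PE E) E (fun y => φ (π.app _ y)) x c = ext (PE E) B φ (π.app _ x) c := by
  induction c using Finsupp.induction_linear with
  | zero => simp
  | add f g hf hg => simp only [map_add, hf, hg]
  | single θ a =>
    rw [ext_single, ext_single]
    have h2 := ConcreteCategory.congr_hom (π.naturality (opr θ).op) x
    have h3 : π.app _ (E.map (opr θ).op x) = B.map (opr θ).op (π.app _ x) := h2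
    rw [h3]

lemma ext_sub {F : SimplexCategory ⥤ SSet.{0}} {G : SSet.{0}} {s e m : ℕ}
    (φ ψ : G _⦋s⦌ → Ch k (F.obj ⦋s⦌) e) (x : G _⦋m⦌)
    (c : Ch k (Δ[m] : SSet.{0}) s) :
    ext F G (fun y => φ y - ψ y) x c = ext F G φ x c - ext F G ψ x c := by
  induction c using Finsupp.induction_linear with
  | zero => simp
  | add f g hf hg => simp only [map_add, hf, hg]; abel
  | single θ a =>
    rw [ext_single, ext_single, ext_single, map_sub, smul_sub]

lemma glob_hat (s : ℕ) (z : Ch k E s) : glob (compE' (E := E)) (hat (k := k) s) z = z := by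
  induction z using Finsupp.induction_linear with
  | zero => simp
  | add f g hf hg => simp only [map_add, hf, hg]
  | single θ a =>
    rw [glob_single]
    unfold hat
    rw [cmap_single]
    have : ((compE' (E := E)).p θ).app (op ⦋s⦌) (mkPE (𝟙 _) θ) = θ := rfl
    rw [this]; simp

lemma glob_comp {s e : ℕ} (φ : B _⦋s⦌ → Ch k ((PE E).obj ⦋s⦌) e) (z : Ch k E s) :
    glob (compE' (E := E)) (fun y => φ (π.app _ y)) z = glob (compE (E := E)) φ (cmap π s z) := by
  induction z using Finsupp.induction_linear with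
  | zero => simp
  | add f g hf hg => simp only [map_add, hf, hg]
  | single θ a =>
    rw [glob_single, cmap_single, glob_single]
    rfl

lemma glob_sub {F : SimplexCategory ⥤ SSet.{0}} {G T : SSet.{0}} (P : Comp F G T) {s e : ℕ}
    (φ ψ : G _⦋s⦌ → Ch k (F.obj ⦋s⦌) e) (z : Ch k G s) :
    glob P (fun y => φ y - ψ y) z = glob P φ z - glob P ψ z := by
  induction z using Finsupp.induction_linear with
  | zero => simp
  | add f g hf hg => simp only [map_add, hf, hg]; abel
  | single θ a =>
    rw [glob_single, glob_single, glob_single, map_sub, smul_sub]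

lemma glob_mem {F : SimplexCategory ⥤ SSet.{0}} {G T : SSet.{0}} (P : Comp F G T) {s e : ℕ}
    (φ : G _⦋s⦌ → Ch k (F.obj ⦋s⦌) e) (S : Submodule k (Ch k T e))
    (h : ∀ x, cmap (P.p x) e (φ x) ∈ S) (z : Ch k G s) : glob P φ z ∈ S := by
  induction z using Finsupp.induction_linear with
  | zero => simp
  | add f g hf hg => rw [map_add]; exact add_mem hf hg
  | single θ a => rw [glob_single]; exact Submodule.smul_mem _ _ (h _)

lemma glob_ext_bd {F : SimplexCategory ⥤ SSet.{0}} {G T : SSet.{0}} (P : Comp F G T) {s e : ℕ}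
    (φ : G _⦋s⦌ → Ch k (F.obj ⦋s⦌) e) (z : Ch k G (s + 1)) :
    glob P (fun x => ext F G φ x (bd _ s (Finsupp.single (iota (s + 1)) 1))) z =
      glob P φ (bd _ s z) := by
  induction z using Finsupp.induction_linear with
  | zero => simp
  | add f g hf hg => simp only [map_add, hf, hg]
  | single x a =>
    have e1 : (Finsupp.single x a : Ch k G (s+1)) = a • Finsupp.single x 1 := by simp
    rw [e1, map_smul, map_smul, map_smul, glob_bd, glob_single, one_smul]

/-- The kernel on homology in degree `N + 1` is generated by cycles in fibres. -/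
theorem kernel_of_acyc {N : ℕ} (hC : (fibCarr (k := k) π).Acyc (N + 1))
    (S : Submodule k (Ch k E (N + 1)))
    (hS : ∀ (m : ℕ) (x : B _⦋m⦌), ∀ c ∈ (fibCarr (k := k) π).D m x (N + 1), bd _ N c = 0 →
      cmap (pE E ⦋m⦌) (N + 1) c ∈ S)
    (z : Ch k E (N + 1)) (hz : bd _ N z = 0) (hπ : IsBd B (N + 1) (cmap π (N + 1) z)) :
    z ∈ S := by
  obtain ⟨φ, hφ, haug, hchm⟩ := (fibCarr (k := k) π).exists_phi hC
  let c : ∀ s : ℕ, E _⦋s⦌ → Ch k ((PE E).obj ⦋s⦌) s := fun s e => hat s e - φ s (π.app _ e)
  have hc : ∀ s x, c s x ∈ (fibCarr' (k := k) π).D s x s := by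
    intro s x
    refine sub_mem ?_ (hφ s _)
    refine Finsupp.single_mem_supported _ _ ?_
    change π.app _ x = B.map (𝟙 _) _
    simp
  have h0 : ∀ x, aug _ (c 0 x) = 0 := by
    intro x
    change aug _ (hat 0 x - φ 0 _) = 0
    rw [map_sub, haug]
    unfold hat
    rw [aug_single, sub_self]
  have hcc : ∀ s, s < N + 1 → ChMap (PE E) E (c (s + 1)) (c s) := by
    intro s hs x
    change bd _ s (hat (s+1) x - φ (s+1) (π.app _ x)) = _
    rw [map_sub, hat_chMap, hchm s hs, ext_sub, ext_comp]
  obtain ⟨h, hmem, hh0, hh⟩ := (fibCarr' (k := k) π).exists_hot (fibCarr'_acyc π hC) c hc h0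
    (fun s hs => hcc s (by omega))
  -- the remaining cycles
  let γ : E _⦋N+1⦌ → Ch k ((PE E).obj ⦋N+1⦌) (N + 1) := fun x =>
    c (N + 1) x - ext (PE E) E (h N) x (bd _ N (Finsupp.single (iota (N + 1)) 1))
  have hγ1 : ∀ x, γ x ∈ (fibCarr' (k := k) π).D (N + 1) x (N + 1) := fun x =>
    sub_mem (hc _ _) ((fibCarr' (k := k) π).ext_mem (hmem N) x _)
  have hγ2 : ∀ x, bd _ N (γ x) = 0 := by
    intro x
    change bd _ N (c (N + 1) x - _) = 0
    rw [map_sub, hcc N (by omega), sub_eq_zero]
    cases N with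
    | zero =>
      generalize bd _ 0 (Finsupp.single (iota 1) 1 : Ch k (Δ[1] : SSet.{0}) 1) = z
      induction z using Finsupp.induction_linear with
      | zero => simp
      | add f g hf hg => simp only [map_add, hf, hg]
      | single θ a =>
        rw [ext_single, ext_single, map_smul, bd_cmap, hh0 (by omega)]
    | succ N =>
      have := ext_chHtpy _ _ (hh N (by omega)) x (bd _ (N + 1) (Finsupp.single (iota (N+2)) 1))
      rw [bd_bd, map_zero, add_zero] at this
      exact this.symm
  have hrel : ∀ z : Ch k E (N + 1), glob (compE' (E := E)) γ z = z -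
      glob (compE (E := E)) (φ (N + 1)) (cmap π (N + 1) z) -
      glob (compE' (E := E)) (h N) (bd _ N z) := by
    intro z
    have e1 : glob (compE' (E := E)) (c (N + 1)) z = z -
      glob (compE (E := E)) (φ (N + 1)) (cmap π (N + 1) z) := by
      rw [← glob_comp]
      have := glob_sub (compE' (E := E)) (hat (k := k) (N + 1))
        (fun e => φ (N + 1) (π.app _ e)) z
      rw [glob_hat] at this
      exact this
    have e2 := glob_sub (compE' (E := E)) (c (N + 1))
      (fun x => ext (PE E) E (h N) x (bd _ N (Finsupp.single (iota (N + 1)) 1))) z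
    rw [glob_ext_bd, e1] at e2
    exact e2
  have h1 := hrel z
  rw [hz, map_zero, sub_zero] at h1
  have h2 : z = glob (compE' (E := E)) γ z +
      glob (compE (E := E)) (φ (N + 1)) (cmap π (N + 1) z) := by rw [h1]; abel
  rw [h2]
  refine add_mem ?_ ?_
  · refine glob_mem _ _ _ (fun x => ?_) _
    exact hS (N + 1) (π.app _ x) (γ x) (hγ1 x) (hγ2 x)
  · obtain ⟨w, hw⟩ := hπ
    rw [← hw, ← glob_ext_bd]
    refine glob_mem _ _ _ (fun x => ?_) _
    refine hS (N + 2) x _ ((fibCarr (k := k) π).ext_mem (hφ (N + 1)) x _) ?_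
    rw [ext_chMap _ _ (hchm N (by omega)), bd_bd, map_zero]

end Pool.Agent.H5.PC
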