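import Mathlib
import Pool.Agent.H5.PC.Viet2

set_option autoImplicit false

/-!
Standard simplices are acyclic; surjectivity on homology.
-/

open CategoryTheory Simplicial Opposite Limits

noncomputable section

namespace Pool.Agent.H5.PC

variable {k : Type} [Field k]

/-- the cone of a simplex -/
def cone {m n : ℕ} (θ : (Δ[m] : SSet.{0}) _⦋n⦌) : (Δ[m] : SSet.{0}) _⦋n+1⦌ :=
  SSet.stdSimplex.objMk ⟨Fin.cons (α := fun _ => Fin (m+1)) 0 (fun j => θ j), by
    intro a b hab
    induction a using Fin.cases with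
    | zero => simp
    | succ a =>
      induction b using Fin.cases with
      | zero => exact absurd hab (by simp)
      | succ b =>
        simp only [Fin.cons_succ]
        exact (opr θ).toOrderHom.monotone (by simpa using hab)⟩

@[simp] lemma cone_zero {m n : ℕ} (θ : (Δ[m] : SSet.{0}) _⦋n⦌) : (cone θ) 0 = 0 := rfl
@[simp] lemma cone_succ {m n : ℕ} (θ : (Δ[m] : SSet.{0}) _⦋n⦌) (j : Fin (n + 1)) :
  (cone θ) j.succ = θ j := rfl

lemma δ_apply {m n : ℕ} (θ : (Δ[m] : SSet.{0}) _⦋n+1⦌) (i : Fin (n + 2)) (j : Fin (n + 1)) :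
    ((Δ[m] : SSet.{0}).δ i θ) j = θ (i.succAbove j) := rfl

lemma δ_cone_zero {m n : ℕ} (θ : (Δ[m] : SSet.{0}) _⦋n⦌) :
    (Δ[m] : SSet.{0}).δ 0 (cone θ) = θ := by
  apply SSet.stdSimplex.ext
  intro i
  rw [δ_apply, Fin.zero_succAbove, cone_succ]

lemma δ_cone_succ {m n : ℕ} (θ : (Δ[m] : SSet.{0}) _⦋n+1⦌) (i : Fin (n + 2)) :
    (Δ[m] : SSet.{0}).δ i.succ (cone θ) = cone ((Δ[m] : SSet.{0}).δ i θ) := by
  apply SSet.stdSimplex.ext
  intro j
  rw [δ_apply]
  induction j using Fin.cases with
  | zero => simp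
  | succ j => rw [Fin.succ_succAbove_succ, cone_succ, cone_succ, δ_apply]

/-- the zeroth vertex -/
def vtx (m : ℕ) : (Δ[m] : SSet.{0}) _⦋0⦌ :=
  SSet.stdSimplex.objMk ⟨fun _ => 0, by intro a b h; simp⟩

lemma δ_cone_one {m : ℕ} (θ : (Δ[m] : SSet.{0}) _⦋0⦌) :
    (Δ[m] : SSet.{0}).δ 1 (cone θ) = vtx m := by
  apply SSet.stdSimplex.ext
  intro j
  rw [δ_apply]
  have : j = 0 := Fin.fin_one_eq_zero j
  subst this
  rfl

/-- the cone operator -/
def coneMap (m n : ℕ) : Ch k (Δ[m] : SSet.{0}) n →ₗ[k] Ch k (Δ[m] : SSet.{0}) (n + 1) :=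
  Finsupp.lmapDomain k k cone

@[simp] lemma coneMap_single (m n : ℕ) (θ : (Δ[m] : SSet.{0}) _⦋n⦌) (a : k) :
    coneMap m n (Finsupp.single θ a) = Finsupp.single (cone θ) a := by
  simp [coneMap]

lemma bd_coneMap (m n : ℕ) (z : Ch k (Δ[m] : SSet.{0}) (n + 1)) :
    bd _ (n + 1) (coneMap m (n + 1) z) = z - coneMap m n (bd _ n z) := by
  induction z using Finsupp.induction_linear with
  | zero => simp
  | add f g hf hg => simp only [map_add, hf, hg]; abel
  | single θ a =>
    rw [coneMap_single, bd_single, bd_single, Fin.sum_univ_succ, map_sum, δ_cone_zero,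
      sub_eq_add_neg, ← Finset.sum_neg_distrib]
    congr 1
    · simp
    · refine Finset.sum_congr rfl fun i _ => ?_
      rw [δ_cone_succ, map_smul, coneMap_single, Fin.val_succ, pow_succ]
      simp

lemma bd_coneMap_zero (m : ℕ) (z : Ch k (Δ[m] : SSet.{0}) 0) :
    bd _ 0 (coneMap m 0 z) = z - Finsupp.single (vtx m) (aug _ z) := by
  induction z using Finsupp.induction_linear with
  | zero => simp
  | add f g hf hg => simp only [map_add, hf, hg, Finsupp.single_add]; abel
  | single θ a =>
    rw [coneMap_single, bd_single, Fin.sum_univ_two, δ_cone_zero, δ_cone_one, aug_single,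
      sub_eq_add_neg]
    simp only [Fin.val_zero, pow_zero, one_smul, Fin.val_one, pow_one, neg_smul]

/-- the standard simplices -/
@[reducible] def SD : SimplexCategory ⥤ SSet.{0} where
  obj m := SSet.stdSimplex.obj m
  map f := SSet.stdSimplex.map f
  map_id m := CategoryTheory.Functor.map_id _ m
  map_comp f g := CategoryTheory.Functor.map_comp _ f g

/-- the full carrier on standard simplices -/
def topCarr (G : SSet.{0}) : Carr k SD G where
  D _ _ _ := ⊤
  map _ _ _ _ _ := trivial
  bd_mem _ _ _ _ _ := trivial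

lemma topCarr_acyc (G : SSet.{0}) (N : ℕ) : (topCarr (k := k) G).Acyc N where
  vert m _ := ⟨Finsupp.single (vtx m) 1, trivial, by simp⟩
  zero _ m _ c _ hc := ⟨coneMap m 0 c, trivial, by rw [bd_coneMap_zero, hc]; simp⟩
  succ j _ m _ c _ hc := ⟨coneMap m (j + 1) c, trivial, by rw [bd_coneMap, hc]; simp⟩

section surj

variable {E B : SSet.{0}} (π : E ⟶ B)

/-- the compatible maps to `B` -/
def compB (B : SSet.{0}) : Comp SD B B where
  p x := SSet.yonedaEquiv.symm x
  nat ρ x := by
    ext n y
    change B.map (SSet.stdSimplex.objEquiv y ≫ ρ).op x =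
      B.map (SSet.stdSimplex.objEquiv y).op (B.map ρ.op x)
    rw [op_comp, B.map_comp]
    rfl

lemma pD_fib {m : ℕ} (x : B _⦋m⦌) (n : ℕ) (c : Ch k ((PE E).obj ⦋m⦌) n)
    (hc : c ∈ (fibCarr (k := k) π).D m x n) :
    cmap (SSet.yonedaEquiv.symm x) n (cmap (pD E ⦋m⦌) n c) = cmap π n (cmap (pE E ⦋m⦌) n c) := by
  change c ∈ Finsupp.supported k k _ at hc
  rw [Finsupp.supported_eq_span_single] at hc
  induction hc using Submodule.span_induction with
  | mem y hy =>
    obtain ⟨y, hy, rfl⟩ := hy
    rw [cmap_single, cmap_single, cmap_single, cmap_single]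
    congr 1
    exact (show π.app _ y.2 = B.map y.1.op x from hy).symm
  | zero => simp
  | add x y _ _ hx hy => simp only [map_add, hx, hy]
  | smul a x _ hx => simp only [map_smul, hx]

lemma pD_ext {s e m : ℕ} (φ : B _⦋s⦌ → Ch k ((PE E).obj ⦋s⦌) e) (x : B _⦋m⦌)
    (c : Ch k (Δ[m] : SSet.{0}) s) :
    cmap (pD E ⦋m⦌) e (ext (PE E) B φ x c) =
      ext SD B (fun y => cmap (pD E ⦋s⦌) e (φ y)) x c := by
  induction c using Finsupp.induction_linear with
  | zero => simp
  | add f g hf hg => simp only [map_add, hf, hg]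
  | single θ a =>
    rw [ext_single, ext_single, map_smul, ← cmap_comp, ← cmap_comp]
    rfl

lemma ext_iota' {s m : ℕ} (x : B _⦋m⦌) (c : Ch k (Δ[m] : SSet.{0}) s) :
    ext SD B (fun _ => Finsupp.single (iota s) 1) x c = c := by
  induction c using Finsupp.induction_linear with
  | zero => simp
  | add f g hf hg => simp only [map_add, hf, hg]
  | single θ a =>
    rw [ext_single, cmap_single, map_iota]
    simp

/-- Surjectivity on homology -/
theorem surj_of_acyc {N : ℕ} (hC : (fibCarr (k := k) π).Acyc N) (n : ℕ) (hn : n ≤ N)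
    (w : Ch k B n) (hw : IsCyc B n w) :
    ∃ z : Ch k E n, IsCyc E n z ∧ IsBd B n (cmap π n z - w) := by
  obtain ⟨φ, hφ, haug, hchm⟩ := (fibCarr (k := k) π).exists_phi hC
  refine ⟨glob (compE (E := E)) (φ n) w, ?_, ?_⟩
  · cases n with
    | zero => trivial
    | succ n =>
      change bd _ n _ = 0
      have hw' : bd _ n w = 0 := hw
      rw [glob_chMap _ (hchm n (by omega)), hw', map_zero]
  · let c : ∀ s : ℕ, B _⦋s⦌ → Ch k (Δ[s] : SSet.{0}) s := fun s y =>
      cmap (pD E ⦋s⦌) s (φ s y) - Finsupp.single (iota s) 1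
    have hch : ∀ s, s < N → ChMap SD B (c (s + 1)) (c s) := by
      intro s hs x
      change bd _ s (cmap (pD E ⦋s+1⦌) (s+1) (φ (s+1) x) - Finsupp.single (iota (s+1)) 1) = _
      rw [map_sub, bd_cmap, hchm s hs, pD_ext, ext_sub, ext_iota']
    obtain ⟨h, -, hh0, hh⟩ := (topCarr (k := k) B).exists_hot (topCarr_acyc B (n + 1)) c
      (fun _ _ => trivial) (fun x => by
        change aug _ (cmap (pD E ⦋0⦌) 0 (φ 0 x) - Finsupp.single (iota 0) 1) = 0
        rw [map_sub, aug_cmap, haug, aug_single, sub_self]) (fun s hs => hch s (by omega))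
    have hπ : ∀ w : Ch k B n, cmap π n (glob (compE (E := E)) (φ n) w) =
        glob (compB B) (fun y => cmap (pD E ⦋n⦌) n (φ n y)) w := by
      intro w
      induction w using Finsupp.induction_linear with
      | zero => simp
      | add f g hf hg => simp only [map_add, hf, hg]
      | single θ a =>
        rw [glob_single, glob_single, map_smul]
        congr 1
        exact (pD_fib π θ n (φ n θ) (hφ n θ)).symm
    have hι : ∀ w : Ch k B n, glob (compB B) (fun _ => Finsupp.single (iota n) 1) w = w := by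
      intro w
      induction w using Finsupp.induction_linear with
      | zero => simp
      | add f g hf hg => simp only [map_add, hf, hg]
      | single θ a =>
        rw [glob_single]
        have := yon_iota (k := k) θ
        refine (congrArg (fun t => a • t) this).trans ?_
        simp
    have e1 : cmap π n (glob (compE (E := E)) (φ n) w) - w = glob (compB B) (c n) w := by
      have := glob_sub (compB B) (fun y => cmap (pD E ⦋n⦌) n (φ n y))
        (fun _ => Finsupp.single (iota n) 1) w
      rw [hι, ← hπ] at this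
      exact this.symm
    rw [e1]
    cases n with
    | zero =>
      refine ⟨glob (compB B) (h 0) w, ?_⟩
      clear e1 hw
      induction w using Finsupp.induction_linear with
      | zero => simp
      | add f g hf hg => simp only [map_add, hf, hg]
      | single θ a =>
        rw [glob_single, glob_single, map_smul, bd_cmap, hh0 (by omega)]
    | succ n =>
      refine ⟨glob (compB B) (h (n + 1)) w, ?_⟩
      have h2 := glob_chHtpy (compB B) (hh n (by omega)) w
      have hw' : bd _ n w = 0 := hw
      rw [hw', map_zero, add_zero] at h2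
      exact h2

end surj

end Pool.Agent.H5.PC
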