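import Mathlib
import Pool.Agent.H5.PC.Std

set_option autoImplicit false

/-!
Natural transformations induce homotopies on nerves.
-/

open CategoryTheory Simplicial Opposite Limits MonoidalCategory CartesianMonoidalCategory

noncomputable section

namespace Pool.Agent.H5.PC

variable {C D : Type} [Category.{0} C] [Category.{0} D]

/-- a natural transformation as a functor to arrows -/
def arrF {F G : C ⥤ D} (α : F ⟶ G) : C ⥤ ComposableArrows D 1 where
  obj c := ComposableArrows.mk₁ (α.app c)
  map f := ComposableArrows.homMk₁ (F.map f) (G.map f) (α.naturality f).symm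
  map_id c := by
    apply ComposableArrows.hom_ext₁
    · exact F.map_id c
    · exact G.map_id c
  map_comp f g := by
    apply ComposableArrows.hom_ext₁
    · exact F.map_comp f g
    · exact G.map_comp f g

/-- the simplices of the homotopy -/
def nhFun {F G : C ⥤ D} (α : F ⟶ G) {n : ℕ} (x : Fin (n + 1) ⥤ C)
    (θ : Fin (n + 1) →o Fin 2) : Fin (n + 1) ⥤ D :=
  (Functor.prod' x θ.monotone.functor) ⋙ Functor.uncurry.obj (arrF α)

/-- the simplices of the homotopy -/
def nhApp {F G : C ⥤ D} (α : F ⟶ G) {n : SimplexCategoryᵒᵖ} (x : (nerve C).obj n)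
    (θ : (Δ[1] : SSet.{0}).obj n) : (nerve D).obj n :=
  nhFun α x (SSet.stdSimplex.asOrderHom θ)

/-- the homotopy -/
def nhMap {F G : C ⥤ D} (α : F ⟶ G) : nerve C ⊗ (Δ[1] : SSet.{0}) ⟶ nerve D where
  app n := ↾fun x => nhApp α x.1 x.2
  naturality n m f := by
    ext x
    rfl

lemma nhFun_map_const {F G : C ⥤ D} (α : F ⟶ G) {n : ℕ} (x : Fin (n + 1) ⥤ C) (e : Fin 2)
    {i j : Fin (n + 1)} (f : i ⟶ j) :
    (nhFun α x (OrderHom.const _ e)).map f = ((arrF α).map (x.map f)).app e := by
  have h : (nhFun α x (OrderHom.const _ e)).map f = ((arrF α).map (x.map f)).app e ≫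
        ((arrF α).obj (x.obj j)).map (𝟙 e) := rfl
  rw [h, CategoryTheory.Functor.map_id, Category.comp_id]

lemma nh0 {F G : C ⥤ D} (α : F ⟶ G) {n : ℕ} (x : Fin (n + 1) ⥤ C) :
    nhFun α x (OrderHom.const _ 0) = x ⋙ F := by
  fapply CategoryTheory.Functor.ext
  · intro i
    rfl
  · intro i j f
    refine (nhFun_map_const α x 0 f).trans ?_
    exact (by simp : F.map (x.map f) = eqToHom rfl ≫ (x ⋙ F).map f ≫ eqToHom rfl)

lemma nh1 {F G : C ⥤ D} (α : F ⟶ G) {n : ℕ} (x : Fin (n + 1) ⥤ C) :
    nhFun α x (OrderHom.const _ 1) = x ⋙ G := by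
  fapply CategoryTheory.Functor.ext
  · intro i
    rfl
  · intro i j f
    refine (nhFun_map_const α x 1 f).trans ?_
    exact (by simp : G.map (x.map f) = eqToHom rfl ≫ (x ⋙ G).map f ≫ eqToHom rfl)

/-- natural transformations induce homotopies -/
def nerveHtpy {F G : C ⥤ D} (α : F ⟶ G) : SSet.Homotopy (nerveMap F) (nerveMap G) where
  h := nhMap α
  h₀ := by
    ext n x
    obtain ⟨n⟩ := n
    induction n using SimplexCategory.rec with
    | _ n => exact nh0 α x
  h₁ := by
    ext n x
    obtain ⟨n⟩ := n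
    induction n using SimplexCategory.rec with
    | _ n => exact nh1 α x
  rel := by
    ext n x
    exact x.1.2.elim

end Pool.Agent.H5.PC
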