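import Mathlib
import Pool.Agent.H5.PC.NerveH

set_option autoImplicit false

/-!
Homotopy invariance in the elementary formulation.
-/

open CategoryTheory Simplicial Opposite Limits MonoidalCategory CartesianMonoidalCategory

noncomputable section

namespace Pool.Agent.H5.PC

variable {k : Type} [Field k]

lemma bd_of_homologyMap_eq {K L : ChainComplex (ModuleCat.{0} k) ℕ} (φ ψ : K ⟶ L) (n : ℕ)
    (h : HomologicalComplex.homologyMap φ n = HomologicalComplex.homologyMap ψ n)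
    (z : K.X n) (hz : K.d n ((ComplexShape.down ℕ).next n) z = 0) :
    ∃ w, L.d (n + 1) n w = φ.f n z - ψ.f n z := by
  obtain ⟨c, hc⟩ := exists_cycle K n z hz
  have h1 : (L.homologyπ n) ((HomologicalComplex.cyclesMap φ n) c -
      (HomologicalComplex.cyclesMap ψ n) c) = 0 := by
    rw [map_sub, ← homologyMap_π, ← homologyMap_π, h, sub_self]
  rw [homologyπ_zero_iff] at h1
  obtain ⟨b, hb⟩ := h1
  exact ⟨b, by rw [hb, map_sub, cyclesMap_ι, cyclesMap_ι, hc]⟩

lemma FC_homologyMap_eq {X Y : SSet.{0}} (f g : X ⟶ Y) (n : ℕ)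
    (h : SSet.homologyMap f (ModuleCat.of k k) n = SSet.homologyMap g (ModuleCat.of k k) n) :
    HomologicalComplex.homologyMap ((FC (k := k)).map f) n =
      HomologicalComplex.homologyMap ((FC (k := k)).map g) n := by
  have e : ∀ f : X ⟶ Y, HomologicalComplex.homologyMap ((chIso (k := k)).hom.app X) n ≫
      HomologicalComplex.homologyMap ((FC (k := k)).map f) n =
      HomologicalComplex.homologyMap
      (((SSet.chainComplexFunctor (ModuleCat.{0} k)).obj (ModuleCat.of k k)).map f) n ≫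
      HomologicalComplex.homologyMap ((chIso (k := k)).hom.app Y) n := by
    intro f
    rw [← HomologicalComplex.homologyMap_comp, ← HomologicalComplex.homologyMap_comp,
      (chIso (k := k)).hom.naturality f]
  rw [← cancel_epi (HomologicalComplex.homologyMap ((chIso (k := k)).hom.app X) n), e, e]
  congr 1

/-- homotopic maps agree on cycles up to boundaries -/
theorem htpy_bd {X Y : SSet.{0}} {f g : X ⟶ Y} (H : SSet.Homotopy f g) (n : ℕ) (z : Ch k X n)
    (hz : IsCyc X n z) : IsBd Y n (cmap f n z - cmap g n z) := by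
  rw [isBd_iff]
  have := bd_of_homologyMap_eq _ _ n
    (FC_homologyMap_eq (k := k) f g n (H.congr_homologyMap (ModuleCat.of k k) n)) z
    ((isCyc_iff X n z).1 hz)
  exact this

lemma IsBd.add {X : SSet.{0}} {n : ℕ} {a b : Ch k X n} (ha : IsBd X n a) (hb : IsBd X n b) :
    IsBd X n (a + b) := by
  obtain ⟨u, rfl⟩ := ha
  obtain ⟨v, rfl⟩ := hb
  exact ⟨u + v, map_add _ _ _⟩

lemma IsBd.neg {X : SSet.{0}} {n : ℕ} {a : Ch k X n} (ha : IsBd X n a) :
    IsBd X n (-a) := by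
  obtain ⟨u, rfl⟩ := ha
  exact ⟨-u, map_neg _ _⟩

lemma IsBd.sub {X : SSet.{0}} {n : ℕ} {a b : Ch k X n} (ha : IsBd X n a) (hb : IsBd X n b) :
    IsBd X n (a - b) := by
  obtain ⟨u, rfl⟩ := ha
  obtain ⟨v, rfl⟩ := hb
  exact ⟨u - v, map_sub _ _ _⟩

lemma IsBd.smul {X : SSet.{0}} {n : ℕ} {a : Ch k X n} (ha : IsBd X n a) (c : k) :
    IsBd X n (c • a) := by
  obtain ⟨u, rfl⟩ := ha
  exact ⟨c • u, map_smul _ _ _⟩

lemma isBd_zero {X : SSet.{0}} {n : ℕ} : IsBd (k := k) X n 0 := ⟨0, map_zero _⟩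

lemma IsBd.cmap {X Y : SSet.{0}} {n : ℕ} {a : Ch k X n} (ha : IsBd X n a) (f : X ⟶ Y) :
    IsBd Y n (PC.cmap f n a) := by
  obtain ⟨u, rfl⟩ := ha
  exact ⟨PC.cmap f _ u, bd_cmap _ _ _⟩

lemma IsCyc.cmap {X Y : SSet.{0}} {n : ℕ} {a : Ch k X n} (ha : IsCyc X n a) (f : X ⟶ Y) :
    IsCyc Y n (PC.cmap f n a) := by
  cases n with
  | zero => trivial
  | succ n =>
    change bd _ n _ = 0
    rw [bd_cmap, show bd _ n a = 0 from ha, map_zero]

lemma IsCyc.sub {X : SSet.{0}} {n : ℕ} {a b : Ch k X n} (ha : IsCyc X n a) (hb : IsCyc X n b) :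
    IsCyc X n (a - b) := by
  cases n with
  | zero => trivial
  | succ n =>
    change bd _ n _ = 0
    rw [map_sub, show bd _ n a = 0 from ha, show bd _ n b = 0 from hb, sub_zero]

lemma IsCyc.add {X : SSet.{0}} {n : ℕ} {a b : Ch k X n} (ha : IsCyc X n a) (hb : IsCyc X n b) :
    IsCyc X n (a + b) := by
  cases n with
  | zero => trivial
  | succ n =>
    change bd _ n _ = 0
    rw [map_add, show bd _ n a = 0 from ha, show bd _ n b = 0 from hb, add_zero]

lemma hIso_of_htpy {X Y : SSet.{0}} (f : X ⟶ Y) (g : Y ⟶ X) (n : ℕ)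
    (h1 : ∀ z : Ch k X n, IsCyc X n z → IsBd X n (z - cmap (f ≫ g) n z))
    (h2 : ∀ z : Ch k Y n, IsCyc Y n z → IsBd Y n (z - cmap (g ≫ f) n z)) : HIso k f n := by
  constructor
  · intro z hz hb
    have h3 := h1 z hz
    have h4 : z = (z - cmap (f ≫ g) n z) + cmap g n (cmap f n z) := by
      rw [cmap_comp]; abel
    rw [h4]
    exact h3.add (hb.cmap g)
  · intro w hw
    refine ⟨cmap g n w, hw.cmap g, ?_⟩
    have := (h2 w hw).neg
    rw [cmap_comp, neg_sub] at this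
    exact this

/-- nerves of adjoint-like functors -/
theorem hIso_nerve {C D : Type} [Category.{0} C] [Category.{0} D] (F : C ⥤ D) (G : D ⥤ C)
    (h1 : Nonempty (𝟭 C ⟶ F ⋙ G) ∨ Nonempty (F ⋙ G ⟶ 𝟭 C))
    (h2 : Nonempty (𝟭 D ⟶ G ⋙ F) ∨ Nonempty (G ⋙ F ⟶ 𝟭 D)) (n : ℕ) :
    HIso k (nerveMap F) n := by
  have aux : ∀ {A : Type} [Category.{0} A] (P : A ⥤ A)
      (_ : Nonempty (𝟭 A ⟶ P) ∨ Nonempty (P ⟶ 𝟭 A)) (z : Ch k (nerve A) n),
      IsCyc _ n z → IsBd _ n (z - cmap (nerveMap P) n z) := by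
    intro A _ P hP z hz
    have hid : nerveMap (𝟭 A) = 𝟙 (nerve A) := rfl
    rcases hP with ⟨⟨α⟩⟩ | ⟨⟨α⟩⟩
    · have := htpy_bd (k := k) (nerveHtpy α) n z hz
      rw [hid, cmap_id] at this
      exact this
    · have := (htpy_bd (k := k) (nerveHtpy α) n z hz).neg
      rw [hid, cmap_id, neg_sub] at this
      exact this
  refine hIso_of_htpy (nerveMap F) (nerveMap G) n (fun z hz => ?_) (fun z hz => ?_)
  · exact aux (F ⋙ G) h1 z hz
  · exact aux (G ⋙ F) h2 z hz

end Pool.Agent.H5.PC
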