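import Mathlib
import Pool.Agent.H5.PC.HtpyInv

set_option autoImplicit false

/-!
The fibres of the map of nerves induced by a surjective group homomorphism.
-/

open CategoryTheory Simplicial Opposite Limits

noncomputable section

namespace Pool.Agent.H5.PC

/-- the nerve of a group -/
abbrev BG (G : Type) [Group G] : SSet.{0} := nerve (SingleObj G)

/-- the map of nerves -/
abbrev Bmap {G H : Type} [Group G] [Group H] (f : G →* H) : BG G ⟶ BG H := nerveMap f.toFunctor

/-- the value of a functor to a group -/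
def ev {G : Type} [Group G] {n : ℕ} (x : Fin (n + 1) ⥤ SingleObj G) (i j : Fin (n + 1))
    (h : i ≤ j) : G := x.map (homOfLE h)

lemma ev_refl {G : Type} [Group G] {n : ℕ} (x : Fin (n + 1) ⥤ SingleObj G) (i : Fin (n + 1)) :
    ev x i i le_rfl = 1 := x.map_id i

lemma ev_trans {G : Type} [Group G] {n : ℕ} (x : Fin (n + 1) ⥤ SingleObj G) (i j l : Fin (n + 1))
    (h : i ≤ j) (h' : j ≤ l) : ev x i l (h.trans h') = ev x j l h' * ev x i j h :=
  x.map_comp (homOfLE h) (homOfLE h')

lemma sobj_ext {G : Type} [Group G] {n : ℕ} (x y : Fin (n + 1) ⥤ SingleObj G)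
    (h : ∀ i j h, ev x i j h = ev y i j h) : x = y := by
  fapply CategoryTheory.Functor.ext
  · intro i; rfl
  · intro i j f
    have := h i j (leOfHom f)
    refine Eq.trans this ?_
    exact (by simp : y.map f = eqToHom rfl ≫ y.map f ≫ eqToHom rfl)

variable {G Q : Type} [Group G] [Group Q] (π : G →* Q)

/-- the objects of the fibre category -/
structure FObj (π : G →* Q) {m : ℕ} (x : Fin (m + 1) ⥤ SingleObj Q) where
  /-- the vertex -/
  as : Fin (m + 1)

instance fcat {m : ℕ} (x : Fin (m + 1) ⥤ SingleObj Q) : Category (FObj π x) where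
  Hom a b := {g : G // ∃ h : a.as ≤ b.as, π g = ev x _ _ h}
  id a := ⟨1, le_rfl, by rw [ev_refl, map_one]⟩
  comp f g := ⟨g.1 * f.1, f.2.choose.trans g.2.choose, by
    rw [map_mul, ev_trans, f.2.choose_spec, g.2.choose_spec]⟩
  id_comp f := Subtype.ext (mul_one _)
  comp_id f := Subtype.ext (one_mul _)
  assoc f g h := Subtype.ext (mul_assoc _ _ _).symm

variable {m : ℕ} (x : Fin (m + 1) ⥤ SingleObj Q)

/-- projection to the group -/
def fU : FObj π x ⥤ SingleObj G where
  obj _ := SingleObj.star G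
  map f := f.1
  map_id _ := rfl
  map_comp _ _ := rfl

/-- the inclusion of the fibre over the zeroth vertex -/
def fF : SingleObj π.ker ⥤ FObj π x where
  obj _ := ⟨0⟩
  map f := ⟨(show π.ker from f).1, le_rfl, by
    rw [ev_refl]; exact (show π.ker from f).2⟩
  map_id _ := rfl
  map_comp _ _ := rfl

variable (hπ : Function.Surjective π)

/-- chosen lifts -/
def lf (a : Fin (m + 1)) : G := (hπ (ev x 0 a (Fin.zero_le a))).choose

lemma π_lf (a : Fin (m + 1)) : π (lf π x hπ a) = ev x 0 a (Fin.zero_le a) :=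
  (hπ (ev x 0 a (Fin.zero_le a))).choose_spec

/-- the retraction to the fibre over the zeroth vertex -/
def fR : FObj π x ⥤ SingleObj π.ker where
  obj _ := SingleObj.star _
  map {a b} f := (⟨(lf π x hπ b.as)⁻¹ * f.1 * lf π x hπ a.as, by
    obtain ⟨g, h, hg⟩ := f
    rw [MonoidHom.mem_ker, map_mul, map_mul, map_inv, π_lf, π_lf, hg,
      ev_trans x 0 a.as b.as (Fin.zero_le _) h]
    group⟩ : π.ker)
  map_id a := by
    apply Subtype.ext
    change (lf π x hπ a.as)⁻¹ * 1 * lf π x hπ a.as = 1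
    group
  map_comp {a b c} f g := by
    apply Subtype.ext
    change (lf π x hπ c.as)⁻¹ * (g.1 * f.1) * lf π x hπ a.as =
      ((lf π x hπ c.as)⁻¹ * g.1 * lf π x hπ b.as) * ((lf π x hπ b.as)⁻¹ * f.1 * lf π x hπ a.as)
    group

/-- the transformation -/
def fT : fR π x hπ ⋙ fF π x ⟶ 𝟭 _ where
  app a := ⟨lf π x hπ a.as, Fin.zero_le _, π_lf π x hπ _⟩
  naturality a b f := by
    apply Subtype.ext
    change lf π x hπ b.as * ((lf π x hπ b.as)⁻¹ * f.1 * lf π x hπ a.as) = f.1 * lf π x hπ a.as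
    group

/-- the transformation -/
def fT' : 𝟭 _ ⟶ fF π x ⋙ fR π x hπ where
  app _ := (⟨(lf π x hπ 0)⁻¹, by rw [MonoidHom.mem_ker, map_inv, π_lf, ev_refl, inv_one]⟩ : π.ker)
  naturality a b f := by
    apply Subtype.ext
    change (lf π x hπ 0)⁻¹ * (show π.ker from f).1 =
      ((lf π x hπ 0)⁻¹ * (show π.ker from f).1 * lf π x hπ 0) * (lf π x hπ 0)⁻¹
    group

variable {k : Type} [Field k]

include hπ in
lemma hIso_fF (n : ℕ) : HIso k (nerveMap (fF π x)) n :=
  hIso_nerve (fF π x) (fR π x hπ) (Or.inl ⟨fT' π x hπ⟩) (Or.inr ⟨fT π x hπ⟩) n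

/-- the comparison map with the carrier -/
def fu : nerve (FObj π x) ⟶ (PE (BG G)).obj ⦋m⦌ where
  app n := ↾fun y => (SimplexCategory.Hom.mk ⟨fun i =>
      ((show Fin (n.unop.len + 1) ⥤ FObj π x from y).obj i).as, fun i j h =>
      ((show Fin (n.unop.len + 1) ⥤ FObj π x from y).map (homOfLE h)).2.choose⟩,
    (show Fin (n.unop.len + 1) ⥤ FObj π x from y) ⋙ fU π x)
  naturality _ _ _ := rfl

end Pool.Agent.H5.PC
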