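import Mathlib
import Pool.Agent.H5.PC.GroupFib
import Pool.Agent.H5.PC.Std

set_option autoImplicit false

/-!
The fibre carrier of a surjective group homomorphism is acyclic in low degrees when the kernel is.
-/

open CategoryTheory Simplicial Opposite Limits

noncomputable section

namespace Pool.Agent.H5.PC

variable {k : Type} [Field k]

/-- every cycle in degree `j` is a boundary -/
def Acy (k : Type) [Field k] (G : Type) [Group G] (j : ℕ) : Prop :=
  ∀ z : Ch k (BG G) j, IsCyc _ j z → IsBd _ j z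

variable {G Q : Type} [Group G] [Group Q] (π : G →* Q) {m : ℕ} (x : (BG Q) _⦋m⦌)

/-- the simplex as a functor -/
abbrev toF {C : Type} [Category.{0} C] {n : ℕ} (y : (nerve C) _⦋n⦌) : Fin (n + 1) ⥤ C := y

lemma ev_mk {n : ℕ} (y : Fin (n + 1) ⥤ FObj π (toF x)) (i j : Fin (n + 1)) (h : i ≤ j) :
    ev (y ⋙ fU π (toF x)) i j h = (y.map (homOfLE h)).1 := rfl

lemma fu_mem {n : ℕ} (y : (nerve (FObj π (toF x))) _⦋n⦌) :
    (fu π (toF x)).app (op ⦋n⦌) y ∈ DS (Bmap π) x n := by
  refine sobj_ext _ _ ?_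
  intro i j h
  exact ((toF y).map (homOfLE h)).2.choose_spec

/-- the inverse on simplices -/
def fv {n : ℕ} (y : ((PE (BG G)).obj ⦋m⦌) _⦋n⦌) (hy : y ∈ DS (Bmap π) x n) :
    Fin (n + 1) ⥤ FObj π (toF x) where
  obj i := ⟨y.1.toOrderHom i⟩
  map {i j} f := ⟨ev (toF y.2) i j (leOfHom f), y.1.toOrderHom.monotone (leOfHom f), by
    have hy' : (Bmap π).app (op ⦋n⦌) y.2 = (BG Q).map y.1.op x := hy
    have h2 := congrArg (fun t => ev (toF t) i j (leOfHom f)) hy'
    exact h2⟩
  map_id i := Subtype.ext (ev_refl _ _)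
  map_comp f g := Subtype.ext (ev_trans _ _ _ _ _ _)

lemma fu_fv {n : ℕ} (y : ((PE (BG G)).obj ⦋m⦌) _⦋n⦌) (hy : y ∈ DS (Bmap π) x n) :
    (fu π (toF x)).app (op ⦋n⦌) (fv π x y hy) = y := by
  refine Prod.ext ?_ ?_
  · apply SimplexCategory.Hom.ext
    apply OrderHom.ext
    funext i
    rfl
  · refine sobj_ext _ _ ?_
    intro i j h
    rfl

lemma fu_inj {n : ℕ} : Function.Injective ((fu π (toF x)).app (op ⦋n⦌)) := by
  intro y y' h
  have h1 : ∀ i, ((toF y).obj i) = ((toF y').obj i) := by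
    intro i
    have := congrArg (fun t => (t.1 : (⦋n⦌ : SimplexCategory) ⟶ ⦋m⦌).toOrderHom i) h
    have h3 : ((toF y).obj i).as = ((toF y').obj i).as := this
    cases h4 : (toF y).obj i
    cases h5 : (toF y').obj i
    rw [h4, h5] at h3
    exact congrArg FObj.mk h3
  have h2 : ∀ i j (h' : i ≤ j), ((toF y).map (homOfLE h')).1 = ((toF y').map (homOfLE h')).1 := by
    intro i j h'
    exact congrArg (fun t => ev (toF t.2) i j h') h
  refine CategoryTheory.Functor.ext h1 ?_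
  intro i j f
  have h3 : f = homOfLE (leOfHom f) := rfl
  rw [h3]
  apply Subtype.ext
  have h4 : ∀ {a b c d : FObj π (toF x)} (e : a = b) (g : b ⟶ c) (e' : c = d),
      (eqToHom e ≫ g ≫ eqToHom e').1 = g.1 := by
    intro a b c d e g e'
    subst e; subst e'
    simp
  have h5 := h4 (h1 i) ((toF y').map (homOfLE (leOfHom f))) (h1 j).symm
  exact (h2 i j (leOfHom f)).trans h5.symm

/-- lifting supported chains -/
lemma lift_supported {X Y : SSet.{0}} (f : X ⟶ Y) (n : ℕ) (S : Set (Y _⦋n⦌))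
    (h : ∀ y ∈ S, ∃ x : X _⦋n⦌, f.app (op ⦋n⦌) x = y) (c : Ch k Y n)
    (hc : c ∈ Finsupp.supported k k S) : ∃ c' : Ch k X n, cmap f n c' = c := by
  rw [Finsupp.supported_eq_span_single] at hc
  induction hc using Submodule.span_induction with
  | mem x hx =>
    obtain ⟨y, hy, rfl⟩ := hx
    obtain ⟨x, rfl⟩ := h y hy
    exact ⟨Finsupp.single x 1, cmap_single _ _ _ _⟩
  | zero => exact ⟨0, map_zero _⟩
  | add x y _ _ hx hy =>
    obtain ⟨a, rfl⟩ := hx
    obtain ⟨b, rfl⟩ := hy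
    exact ⟨a + b, map_add _ _ _⟩
  | smul a x _ hx =>
    obtain ⟨b, rfl⟩ := hx
    exact ⟨a • b, map_smul _ _ _⟩

lemma cmap_inj {X Y : SSet.{0}} (f : X ⟶ Y) (n : ℕ)
    (h : Function.Injective (f.app (op ⦋n⦌))) : Function.Injective (cmap (k := k) f n) := by
  intro a b hab
  exact Finsupp.mapDomain_injective h hab

lemma fib_lift {n : ℕ} (c : Ch k ((PE (BG G)).obj ⦋m⦌) n)
    (hc : c ∈ (fibCarr (k := k) (Bmap π)).D m x n) :
    ∃ c' : Ch k (nerve (FObj π (toF x))) n, cmap (fu π (toF x)) n c' = c :=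
  lift_supported _ _ _ (fun y hy => ⟨fv π x y hy, fu_fv π x y hy⟩) c hc

lemma fib_push {n : ℕ} (c' : Ch k (nerve (FObj π (toF x))) n) :
    cmap (fu π (toF x)) n c' ∈ (fibCarr (k := k) (Bmap π)).D m x n :=
  supported_cmap (fu π (toF x)) n Set.univ _ (fun y _ => fu_mem π x y) c'
    (by rw [Finsupp.supported_univ]; trivial)

lemma fib_cyc {n : ℕ} (c : Ch k ((PE (BG G)).obj ⦋m⦌) (n + 1))
    (hc : c ∈ (fibCarr (k := k) (Bmap π)).D m x (n + 1)) (hb : bd _ n c = 0) :
    ∃ c' : Ch k (nerve (FObj π (toF x))) (n + 1), bd _ n c' = 0 ∧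
      cmap (fu π (toF x)) (n + 1) c' = c := by
  obtain ⟨c', rfl⟩ := fib_lift π x c hc
  refine ⟨c', ?_, rfl⟩
  apply cmap_inj (fu π (toF x)) n (fu_inj π x)
  rw [← bd_cmap, hb, map_zero]

variable (hπ : Function.Surjective π)

lemma aug_cyc {C : Type} [Category.{0} C] (z : Ch k (nerve C) 0)
    (h : IsBd (nerve C) 0 z) : aug _ z = 0 := by
  obtain ⟨w, rfl⟩ := h
  exact aug_bd _ _

lemma sub_BG {G : Type} [Group G] (y y' : Fin (0 + 1) ⥤ SingleObj G) : y = y' := by
  refine sobj_ext y y' ?_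
  intro i j h
  obtain rfl : i = j := by
    apply Fin.ext
    have := i.2
    have := j.2
    omega
  exact (ev_refl y i).trans (ev_refl y' i).symm

lemma aug_BG {G : Type} [Group G] (z : Ch k (BG G) 0) (h : aug _ z = 0) : z = 0 := by
  obtain ⟨v⟩ : Nonempty ((BG G) _⦋0⦌) := ⟨ComposableArrows.mk₀ (SingleObj.star G)⟩
  have h2 : ∀ z : Ch k (BG G) 0, z = Finsupp.single v (aug _ z) := by
    intro z
    induction z using Finsupp.induction_linear with
    | zero => simp
    | add f g hf hg => rw [map_add, Finsupp.single_add, ← hf, ← hg]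
    | single θ a => rw [aug_single, sub_BG θ v]
  rw [h2 z, h, Finsupp.single_zero]

lemma exists_lift_cyc (hπ : Function.Surjective π) (n : ℕ)
    (c : Ch k (nerve (FObj π (toF x))) n) (hc : IsCyc _ n c) :
    ∃ z : Ch k (BG π.ker) n, IsCyc _ n z ∧ IsBd _ n (cmap (nerveMap (fF π (toF x))) n z - c) :=
  (hIso_fF (k := k) π (toF x) hπ n).2 c hc

/-- the fibre carrier is acyclic in low degrees -/
theorem fib_acyc (hπ : Function.Surjective π) (N : ℕ) (hN : ∀ j, 0 < j → j < N → Acy k π.ker j) :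
    (fibCarr (k := k) (Bmap π)).Acyc N where
  vert m x := by
    let v : (nerve (FObj π (toF x))) _⦋0⦌ := ComposableArrows.mk₀ (⟨0⟩ : FObj π (toF x))
    refine ⟨cmap (fu π (toF x)) 0 (Finsupp.single v 1), fib_push π x _, ?_⟩
    rw [aug_cmap, aug_single]
  zero _ m x c hc h0 := by
    obtain ⟨c', rfl⟩ := fib_lift π x c hc
    rw [aug_cmap] at h0
    obtain ⟨z, -, hz⟩ := exists_lift_cyc π x hπ 0 c' trivial
    have h1 : aug _ z = 0 := by
      have := aug_cyc _ hz
      rw [map_sub, aug_cmap, h0, sub_zero] at this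
      exact this
    rw [aug_BG z h1, map_zero, zero_sub] at hz
    obtain ⟨w, hw⟩ := hz
    refine ⟨cmap (fu π (toF x)) 1 (-w), fib_push π x _, ?_⟩
    rw [bd_cmap, map_neg, hw, neg_neg]
  succ j hj m x c hc h0 := by
    obtain ⟨c', hc', rfl⟩ := fib_cyc π x c hc h0
    obtain ⟨z, hz1, hz⟩ := exists_lift_cyc π x hπ (j + 1) c' hc'
    have h2 : IsBd _ (j + 1) c' := by
      have := ((hN (j + 1) (by omega) hj z hz1).cmap (nerveMap (fF π (toF x)))).sub hz
      rw [sub_sub_cancel] at this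
      exact this
    obtain ⟨w, hw⟩ := h2
    refine ⟨cmap (fu π (toF x)) (j + 2) w, fib_push π x _, ?_⟩
    rw [bd_cmap, hw]

lemma fu_pE : fu π (toF x) ≫ pE (BG G) ⦋m⦌ = nerveMap (fU π (toF x)) := rfl

lemma fF_fU : nerveMap (fF π (toF x)) ≫ nerveMap (fU π (toF x)) = Bmap π.ker.subtype := rfl

/-- cycles in degree `N + 1` killed by the quotient come from the kernel -/
theorem ker_cycle (hπ : Function.Surjective π) (N : ℕ)
    (hN : ∀ j, 0 < j → j < N + 1 → Acy k π.ker j)
    (z : Ch k (BG G) (N + 1)) (hz : IsCyc _ (N + 1) z)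
    (hb : IsBd _ (N + 1) (cmap (Bmap π) (N + 1) z)) :
    ∃ z' : Ch k (BG π.ker) (N + 1), IsCyc _ (N + 1) z' ∧
      IsBd _ (N + 1) (z - cmap (Bmap π.ker.subtype) (N + 1) z') := by
  let S : Submodule k (Ch k (BG G) (N + 1)) :=
    { carrier := {z | ∃ z' : Ch k (BG π.ker) (N + 1), IsCyc _ (N + 1) z' ∧
        IsBd _ (N + 1) (z - cmap (Bmap π.ker.subtype) (N + 1) z')}
      add_mem' := by
        rintro a b ⟨a', ha1, ha2⟩ ⟨b', hb1, hb2⟩
        refine ⟨a' + b', ha1.add hb1, ?_⟩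
        rw [map_add, add_sub_add_comm]
        exact ha2.add hb2
      zero_mem' := ⟨0, map_zero _, by rw [map_zero, sub_zero]; exact isBd_zero⟩
      smul_mem' := by
        rintro c a ⟨a', ha1, ha2⟩
        refine ⟨c • a', ?_, ?_⟩
        · change bd _ N _ = 0
          rw [map_smul, show bd _ N a' = 0 from ha1, smul_zero]
        · rw [map_smul, ← smul_sub]
          exact ha2.smul c }
  refine kernel_of_acyc (Bmap π) (fib_acyc π hπ (N + 1) hN) S ?_ z hz hb
  intro m x c hc h0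
  obtain ⟨c', hc', rfl⟩ := fib_cyc π x c hc h0
  obtain ⟨z', hz1, hz2⟩ := exists_lift_cyc π x hπ (N + 1) c' hc'
  refine ⟨z', hz1, ?_⟩
  have h3 := (hz2.cmap (nerveMap (fU π (toF x)))).neg
  rw [map_sub, neg_sub, ← cmap_comp, fF_fU] at h3
  rw [← cmap_comp, fu_pE]
  exact h3

/-- a surjection with acyclic kernel is a homology isomorphism -/
theorem hIso_of_ker_acy (hπ : Function.Surjective π) (hK : ∀ j, 0 < j → Acy k π.ker j) (n : ℕ) :
    HIso k (Bmap π) n := by
  constructor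
  · intro z hz hb
    cases n with
    | zero =>
      have h1 := aug_cyc _ hb
      rw [aug_cmap] at h1
      rw [aug_BG z h1]
      exact isBd_zero
    | succ n =>
      obtain ⟨z', hz1, hz2⟩ := ker_cycle π hπ n (fun j h _ => hK j h) z hz hb
      have := hz2.add ((hK (n + 1) (Nat.succ_pos _) z' hz1).cmap (Bmap π.ker.subtype))
      rw [sub_add_cancel] at this
      exact this
  · intro w hw
    exact surj_of_acyc (Bmap π) (fib_acyc π hπ n fun j h _ => hK j h) n le_rfl w hw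

end Pool.Agent.H5.PC
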