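import Mathlib
import Pool.Agent.H5.PC.GroupFib2

set_option autoImplicit false

/-!
Products of groups acyclic in low degrees; conjugation; an acyclicity criterion.
-/

open CategoryTheory Simplicial Opposite Limits

noncomputable section

namespace Pool.Agent.H5.PC

variable {k : Type} [Field k]

section basics

variable {G H L : Type} [Group G] [Group H] [Group L]

lemma Bmap_comp (f : G →* H) (g : H →* L) : Bmap f ≫ Bmap g = Bmap (g.comp f) := rfl

lemma Bmap_id : Bmap (MonoidHom.id G) = 𝟙 (BG G) := rfl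

lemma cmap_Bmap (f : G →* H) (g : H →* L) (n : ℕ) (z : Ch k (BG G) n) :
    cmap (Bmap g) n (cmap (Bmap f) n z) = cmap (Bmap (g.comp f)) n z := by
  rw [← cmap_comp, Bmap_comp]

lemma cmap_Bmap_id (n : ℕ) (z : Ch k (BG G) n) : cmap (Bmap (MonoidHom.id G)) n z = z := by
  rw [Bmap_id, cmap_id]

/-- conjugate homomorphisms induce the same map on homology -/
lemma conj_bd (f f' : G →* H) (g : H) (h : ∀ x, g * f x = f' x * g) (n : ℕ)
    (z : Ch k (BG G) n) (hz : IsCyc _ n z) :
    IsBd _ n (cmap (Bmap f) n z - cmap (Bmap f') n z) := by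
  let α : f.toFunctor ⟶ f'.toFunctor :=
    { app := fun _ => g
      naturality := fun _ _ x => h x }
  exact htpy_bd (k := k) (nerveHtpy α) n z hz

lemma sub_BG' [Subsingleton G] {n : ℕ} (y y' : Fin (n + 1) ⥤ SingleObj G) : y = y' :=
  sobj_ext y y' fun _ _ _ => Subsingleton.elim (α := G) _ _

lemma acy_trivial [Subsingleton G] (n : ℕ) : Acy k G (n + 1) := by
  intro z hz
  let f : (Δ[0] : SSet.{0}) ⟶ BG G := SSet.yonedaEquiv.symm (ComposableArrows.mk₀ (SingleObj.star G))
  have hinj : ∀ m, Function.Injective (f.app (op ⦋m⦌)) := by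
    intro m y y' _
    apply SSet.stdSimplex.objEquiv.injective
    apply SimplexCategory.Hom.ext
    apply OrderHom.ext
    funext i
    exact (Fin.fin_one_eq_zero _).trans (Fin.fin_one_eq_zero _).symm
  have hsurj : ∀ m (y : (BG G) _⦋m⦌), ∃ x, f.app (op ⦋m⦌) x = y := by
    intro m y
    exact ⟨SSet.stdSimplex.objEquiv.symm (SimplexCategory.const _ _ 0), sub_BG' _ _⟩
  obtain ⟨c, rfl⟩ := lift_supported f (n + 1) Set.univ (fun y _ => hsurj _ y) z
    (by rw [Finsupp.supported_univ]; trivial)
  have h0 : bd _ n c = 0 := by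
    apply cmap_inj f n (hinj n)
    rw [← bd_cmap, map_zero]
    exact hz
  have h1 := bd_coneMap 0 n c
  rw [h0] at h1
  have h2 : IsBd _ (n + 1) c := ⟨coneMap 0 (n + 1) c, by rw [h1]; simp⟩
  exact h2.cmap f

/-- left inverse -/
lemma bd_of_retract (f : G →* H) (g : H →* G) (h : g.comp f = MonoidHom.id G) (n : ℕ)
    (z : Ch k (BG G) n) (hz : IsBd _ n (cmap (Bmap f) n z)) : IsBd _ n z := by
  have := hz.cmap (Bmap g)
  rw [cmap_Bmap, h, cmap_Bmap_id] at this
  exact this

lemma acy_of_retract (f : G →* H) (g : H →* G) (h : g.comp f = MonoidHom.id G) (n : ℕ)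
    (hH : Acy k H n) : Acy k G n := fun z hz =>
  bd_of_retract f g h n z (hH _ (hz.cmap _))

end basics

section prod

variable {K : Type} [Group K]

/-- dropping the zeroth coordinate -/
def tl (K : Type) [Group K] (n : ℕ) : (Fin (n + 1) → K) →* (Fin n → K) where
  toFun x := fun i => x i.succ
  map_one' := rfl
  map_mul' _ _ := rfl

lemma tl_surj (n : ℕ) : Function.Surjective (tl K n) := fun y => ⟨Fin.cons 1 y, rfl⟩

/-- evaluation at a coordinate -/
def pr {ι : Type} (K : Type) [Group K] (i : ι) : (ι → K) →* K := Pi.evalMonoidHom (fun _ => K) i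

/-- the inverse of the isomorphism between the kernel and the zeroth factor -/
def ki (K : Type) [Group K] (n : ℕ) : K →* (tl K n).ker where
  toFun x := ⟨Fin.cons x 1, rfl⟩
  map_one' := by
    apply Subtype.ext
    funext i
    refine Fin.cases ?_ (fun j => ?_) i
    · rfl
    · rfl
  map_mul' x y := by
    apply Subtype.ext
    funext i
    refine Fin.cases ?_ (fun j => ?_) i
    · rfl
    · exact (one_mul (1 : K)).symm

lemma ki_pr (n : ℕ) : (ki K n).comp ((pr K 0).comp (tl K n).ker.subtype) =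
    MonoidHom.id (tl K n).ker := by
  ext x i
  refine Fin.cases ?_ (fun j => ?_) i
  · rfl
  · have := congrFun x.2 j
    exact this.symm

/-- a cycle on a power with zero projections is a boundary -/
theorem power_bd (i : ℕ) (hK : ∀ j, 0 < j → j < i + 1 → Acy k K j) (n : ℕ)
    (z : Ch k (BG (Fin n → K)) (i + 1)) (hz : IsCyc _ (i + 1) z)
    (h : ∀ l, IsBd _ (i + 1) (cmap (Bmap (pr K l)) (i + 1) z)) : IsBd _ (i + 1) z := by
  induction n with
  | zero => exact acy_trivial i z hz
  | succ n ih =>
    have h1 : IsBd _ (i + 1) (cmap (Bmap (tl K n)) (i + 1) z) := by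
      refine ih _ (hz.cmap _) fun l => ?_
      rw [cmap_Bmap]
      exact h l.succ
    obtain ⟨z', hz1, hz2⟩ := ker_cycle (tl K n) (tl_surj n) i
      (fun j h1 h2 => acy_of_retract _ _ (ki_pr n) j (hK j h1 h2)) z hz h1
    have h2 : IsBd _ (i + 1) z' := by
      refine bd_of_retract _ _ (ki_pr n) (i + 1) z' ?_
      have h3 := ((h 0).sub (hz2.cmap (Bmap (pr K 0))))
      rw [map_sub, sub_sub_cancel, cmap_Bmap] at h3
      exact h3
    have := hz2.add (h2.cmap (Bmap (tl K n).ker.subtype))
    rw [sub_add_cancel] at this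
    exact this

end prod

end Pool.Agent.H5.PC
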