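import Mathlib
import Pool.Agent.H5.PC.Prod

set_option autoImplicit false

/-!
Directed unions of groups and an acyclicity criterion.
-/

open CategoryTheory Simplicial Opposite Limits

noncomputable section

namespace Pool.Agent.H5.PC

variable {k : Type} [Field k]

section lift

variable {A K : Type} [Group A] [Group K] (u : A →* K)

lemma exists_lift_simplex (hu : Function.Injective u) {n : ℕ} (x : Fin (n + 1) ⥤ SingleObj K)
    (h : ∀ i j h, ev x i j h ∈ u.range) : ∃ y : Fin (n + 1) ⥤ SingleObj A, y ⋙ u.toFunctor = x := by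
  choose f hf using h
  let y : Fin (n + 1) ⥤ SingleObj A :=
    { obj := fun _ => SingleObj.star A
      map := fun {i j} e => f i j (leOfHom e)
      map_id := fun i => by
        apply hu
        refine (hf _ _ _).trans ((ev_refl x i).trans (map_one u).symm)
      map_comp := fun {i j l} e e' => by
        apply hu
        refine (hf _ _ _).trans ?_
        refine (ev_trans x i j l (leOfHom e) (leOfHom e')).trans ?_
        refine Eq.trans ?_ (map_mul u _ _).symm
        rw [hf, hf] }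
  exact ⟨y, sobj_ext _ _ fun i j h => hf i j h⟩

lemma Bmap_inj (hu : Function.Injective u) (n : ℕ) :
    Function.Injective ((Bmap u).app (op ⦋n⦌)) := by
  intro y y' h
  refine sobj_ext y y' fun i j hij => ?_
  apply hu
  exact congrArg (fun t => ev (toF t) i j hij) h

end lift

section union

variable {K : Type} [Group K] {A : ℕ → Type} [∀ m, Group (A m)] (u : ∀ m, A m →* K)

lemma range_mono (hmono : ∀ m, (u m).range ≤ (u (m + 1)).range) {m m' : ℕ} (h : m ≤ m') :
    (u m).range ≤ (u m').range := by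
  induction m', h using Nat.le_induction with
  | base => exact le_rfl
  | succ m' _ ih => exact ih.trans (hmono m')

lemma exists_stage (hmono : ∀ m, (u m).range ≤ (u (m + 1)).range)
    (hex : ∀ x, ∃ m, x ∈ (u m).range) {ι : Type} [Finite ι] (f : ι → K) :
    ∃ m, ∀ m' ≥ m, ∀ i, f i ∈ (u m').range := by
  choose g hg using hex
  obtain ⟨N, hN⟩ := (Set.finite_range (fun i => g (f i))).bddAbove
  refine ⟨N, fun m' hm i => ?_⟩
  exact range_mono u hmono ((hN ⟨i, rfl⟩).trans hm) (hg (f i))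

lemma exists_stage_chain (hu : ∀ m, Function.Injective (u m))
    (hmono : ∀ m, (u m).range ≤ (u (m + 1)).range)
    (hex : ∀ x, ∃ m, x ∈ (u m).range) (n : ℕ) (c : Ch k (BG K) n) :
    ∃ m, ∀ m' ≥ m, ∃ c' : Ch k (BG (A m')) n, cmap (Bmap (u m')) n c' = c := by
  induction c using Finsupp.induction_linear with
  | zero => exact ⟨0, fun m' _ => ⟨0, map_zero _⟩⟩
  | add f g hf hg =>
    obtain ⟨a, ha⟩ := hf
    obtain ⟨b, hb⟩ := hg
    refine ⟨max a b, fun m' hm => ?_⟩
    obtain ⟨f', hf'⟩ := ha m' (le_trans (le_max_left _ _) hm)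
    obtain ⟨g', hg'⟩ := hb m' (le_trans (le_max_right _ _) hm)
    exact ⟨f' + g', by rw [map_add, hf', hg']⟩
  | single x a =>
    obtain ⟨m, hm⟩ := exists_stage u hmono hex
      (fun t : {t : Fin (n + 1) × Fin (n + 1) // t.1 ≤ t.2} => ev (toF x) t.1.1 t.1.2 t.2)
    refine ⟨m, fun m' hm' => ?_⟩
    obtain ⟨y, hy⟩ := exists_lift_simplex (u m') (hu m') (toF x)
      (fun i j h => hm m' hm' ⟨(i, j), h⟩)
    refine ⟨Finsupp.single y a, ?_⟩
    refine (cmap_single _ _ _ _).trans ?_
    exact congrArg (fun t => Finsupp.single t a) hy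

end union

section crit

lemma IsBd.sum {X : SSet.{0}} {n : ℕ} {ι : Type} (s : Finset ι) (f : ι → Ch k X n)
    (h : ∀ i ∈ s, IsBd X n (f i)) : IsBd X n (∑ i ∈ s, f i) := by
  classical
  induction s using Finset.induction_on with
  | empty => exact isBd_zero
  | insert a s ha ih =>
    rw [Finset.sum_insert ha]
    exact (h a (Finset.mem_insert_self _ _)).add
      (ih fun i hi => h i (Finset.mem_insert_of_mem hi))

lemma IsCyc.sum {X : SSet.{0}} {n : ℕ} {ι : Type} (s : Finset ι) (f : ι → Ch k X (n + 1))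
    (h : ∀ i ∈ s, IsCyc X (n + 1) (f i)) : IsCyc X (n + 1) (∑ i ∈ s, f i) := by
  change bd _ n _ = 0
  rw [map_sum]
  exact Finset.sum_eq_zero fun i hi => h i hi

/-- constant functions -/
def dg (ι K : Type) [Group K] : K →* (ι → K) where
  toFun x := fun _ => x
  map_one' := rfl
  map_mul' _ _ := rfl

/-- the inclusion of a factor -/
def sg {ι : Type} [DecidableEq ι] (K : Type) [Group K] (i : ι) : K →* (ι → K) :=
  MonoidHom.mulSingle (fun _ => K) i

/-- the power of a homomorphism -/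
def pw (ι : Type) {A K : Type} [Group A] [Group K] (u : A →* K) : (ι → A) →* (ι → K) where
  toFun x := fun i => u (x i)
  map_one' := by funext i; exact map_one u
  map_mul' x y := by funext i; exact map_mul u _ _

lemma triv_bd {A K : Type} [Group A] [Group K] (n : ℕ) (z : Ch k (BG A) (n + 1))
    (hz : IsCyc _ (n + 1) z) : IsBd _ (n + 1) (cmap (Bmap (1 : A →* K)) (n + 1) z) := by
  have h : (1 : A →* K) = (1 : Unit →* K).comp (1 : A →* Unit) := rfl
  rw [h, ← cmap_Bmap]
  exact (acy_trivial n _ (hz.cmap _)).cmap _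

variable {K : Type} [Group K] {A : ℕ → Type} [∀ m, Group (A m)] (u : ∀ m, A m →* K)

/-- the difference of the diagonal and the sum of the inclusions -/
def dd (K : Type) [Group K] (p n : ℕ) (z : Ch k (BG K) n) : Ch k (BG (Fin p → K)) n :=
  cmap (Bmap (dg (Fin p) K)) n z - ∑ j : Fin p, cmap (Bmap (sg K j)) n z

lemma dd_nat {A K : Type} [Group A] [Group K] (u : A →* K) (p n : ℕ) (z : Ch k (BG A) n) :
    cmap (Bmap (pw (Fin p) u)) n (dd A p n z) = dd K p n (cmap (Bmap u) n z) := by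
  unfold dd
  rw [map_sub, map_sum, cmap_Bmap, cmap_Bmap]
  congr 1
  refine Finset.sum_congr rfl fun j _ => ?_
  rw [cmap_Bmap, cmap_Bmap]
  congr 3
  ext x i
  change u ((Pi.mulSingle j x : Fin p → A) i) = (Pi.mulSingle j (u x) : Fin p → K) i
  by_cases h : i = j
  · subst h; simp
  · rw [Pi.mulSingle_eq_of_ne h, Pi.mulSingle_eq_of_ne h, map_one]

lemma pr_sg_self {K : Type} [Group K] {p : ℕ} (l : Fin p) :
    (pr K l).comp (sg K l) = MonoidHom.id K := by
  ext x
  change (Pi.mulSingle l x : Fin p → K) l = x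
  simp

lemma pr_sg_ne {K : Type} [Group K] {p : ℕ} (l j : Fin p) (h : l ≠ j) :
    (pr K l).comp (sg K j) = 1 := by
  ext x
  change (Pi.mulSingle j x : Fin p → K) l = 1
  exact Pi.mulSingle_eq_of_ne h _

lemma dd_pr (K : Type) [Group K] (p n : ℕ) (z : Ch k (BG K) (n + 1)) (hz : IsCyc _ (n + 1) z)
    (l : Fin p) : IsBd _ (n + 1) (cmap (Bmap (pr K l)) (n + 1) (dd K p (n + 1) z)) := by
  unfold dd
  rw [map_sub, map_sum, cmap_Bmap, ← Finset.add_sum_erase _ _ (Finset.mem_univ l),
    cmap_Bmap, pr_sg_self]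
  have h : (pr K l).comp (dg (Fin p) K) = MonoidHom.id K := rfl
  rw [h, sub_add_cancel_left]
  refine IsBd.neg (IsBd.sum _ _ fun j hj => ?_)
  rw [cmap_Bmap, pr_sg_ne _ _ (Finset.ne_of_mem_erase hj).symm]
  exact triv_bd n z hz

lemma dd_cyc (K : Type) [Group K] (p n : ℕ) (z : Ch k (BG K) (n + 1)) (hz : IsCyc _ (n + 1) z) :
    IsCyc _ (n + 1) (dd K p (n + 1) z) :=
  (hz.cmap _).sub (IsCyc.sum _ _ fun _ _ => hz.cmap _)

/-- the acyclicity criterion -/
theorem acy_of_tower (p : ℕ) [NeZero p] [CharP k p] (hu : ∀ m, Function.Injective (u m))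
    (hmono : ∀ m, (u m).range ≤ (u (m + 1)).range)
    (hex : ∀ x, ∃ m, x ∈ (u m).range) (μ : ∀ m, (Fin p → A m) →* K)
    (hd : ∀ m, (μ m).comp (dg (Fin p) (A m)) = u m)
    (hc : ∀ m (l : Fin p), ∃ g : K, ∀ a, g * μ m (sg (A m) l a) = μ m (sg (A m) 0 a) * g)
    (n : ℕ) : Acy k K (n + 1) := by
  induction n using Nat.strong_induction_on with
  | _ n ih =>
  intro z hz
  obtain ⟨w, hw⟩ : IsBd _ (n + 1) (dd K p (n + 1) z) := by
    refine power_bd n (fun j h1 h2 => ?_) p _ (dd_cyc K p n z hz) (dd_pr K p n z hz)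
    obtain ⟨j, rfl⟩ : ∃ i, j = i + 1 := ⟨j - 1, by omega⟩
    exact ih j (by omega)
  obtain ⟨m1, h1⟩ := exists_stage_chain (k := k) u hu hmono hex (n + 1) z
  have hpu : ∀ m, Function.Injective (pw (Fin p) (u m)) := by
    intro m x y hxy
    funext i
    exact hu m (congrFun hxy i)
  have hpm : ∀ m x, x ∈ (pw (Fin p) (u m)).range ↔ ∀ i, x i ∈ (u m).range := by
    intro m x
    constructor
    · rintro ⟨y, rfl⟩ i
      exact ⟨y i, rfl⟩
    · intro h
      choose y hy using h
      exact ⟨y, funext hy⟩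
  obtain ⟨m2, h2⟩ := exists_stage_chain (k := k) (fun m => pw (Fin p) (u m)) hpu
    (fun m x hx => (hpm _ _).2 fun i => hmono m ((hpm _ _).1 hx i))
    (fun x => by
      obtain ⟨m, hm⟩ := exists_stage u hmono hex x
      exact ⟨m, (hpm _ _).2 (hm m le_rfl)⟩) (n + 2) w
  obtain ⟨z', hz'⟩ := h1 (max m1 m2) (le_max_left _ _)
  obtain ⟨w', hw'⟩ := h2 (max m1 m2) (le_max_right _ _)
  generalize max m1 m2 = M at z' w' hz' hw'
  have h3 : dd (A M) p (n + 1) z' = bd _ (n + 1) w' := by
    apply cmap_inj (Bmap (pw (Fin p) (u M))) (n + 1) (Bmap_inj _ (hpu M) _)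
    rw [dd_nat, hz', ← bd_cmap, hw', hw]
  have hzc : IsCyc _ (n + 1) z' := by
    change bd _ n _ = 0
    apply cmap_inj (Bmap (u M)) n (Bmap_inj _ (hu M) _)
    rw [← bd_cmap, hz', map_zero]
    exact hz
  have h4 : IsBd _ (n + 1) (cmap (Bmap (μ M)) (n + 1) (dd (A M) p (n + 1) z')) :=
    IsBd.cmap ⟨w', h3.symm⟩ _
  unfold dd at h4
  rw [map_sub, cmap_Bmap, hd, hz', map_sum] at h4
  have h5 : IsBd _ (n + 1) (∑ j : Fin p, (cmap (Bmap (μ M)) (n + 1) (cmap (Bmap (sg (A M) j))
      (n + 1) z') - cmap (Bmap (μ M)) (n + 1) (cmap (Bmap (sg (A M) 0)) (n + 1) z'))) := by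
    refine IsBd.sum _ _ fun j _ => ?_
    rw [cmap_Bmap, cmap_Bmap]
    obtain ⟨g, hg⟩ := hc M j
    exact conj_bd _ _ g hg _ _ hzc
  rw [Finset.sum_sub_distrib, Finset.sum_const, Finset.card_univ, Fintype.card_fin] at h5
  have h6 : ∀ c : Ch k (BG K) (n + 1), p • c = 0 := by
    intro c
    ext t
    rw [Finsupp.smul_apply, nsmul_eq_mul, CharP.cast_eq_zero, zero_mul]
    rfl
  rw [h6, sub_zero] at h5
  have h7 := h4.add h5
  rw [sub_add_cancel] at h7
  exact h7

end crit

end Pool.Agent.H5.PC
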