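import Mathlib
import Pool.Agent.H5.PC.Union

set_option autoImplicit false

/-!
Maps to the nerve of a group as cocycles.
-/

open CategoryTheory Simplicial Opposite Limits MonoidalCategory

noncomputable section

namespace Pool.Agent.H5.PC

open SimplexCategory

/-- one-cocycles -/
@[ext]
structure Coc (A : SSet.{0}) (P : Type) [Group P] where
  /-- the values -/
  val : A _⦋1⦌ → P
  tri : ∀ σ : A _⦋2⦌, val (A.δ 1 σ) = val (A.δ 0 σ) * val (A.δ 2 σ)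

variable {A B : SSet.{0}} {P : Type} [Group P]

lemma δ_leComp {n : ℕ} (i j l : Fin (n + 1)) (h : i ≤ j) (h' : j ≤ l) :
    (SimplexCategory.δ 1 : ⦋1⦌ ⟶ ⦋2⦌) ≫ mkOfLeComp i j l h h' = mkOfLe i l (h.trans h') ∧
    (SimplexCategory.δ 0 : ⦋1⦌ ⟶ ⦋2⦌) ≫ mkOfLeComp i j l h h' = mkOfLe j l h' ∧
    (SimplexCategory.δ 2 : ⦋1⦌ ⟶ ⦋2⦌) ≫ mkOfLeComp i j l h h' = mkOfLe i j h := by
  refine ⟨?_, ?_, ?_⟩ <;>
  · ext x
    fin_cases x <;> rfl

lemma mkOfLe_comp {n m : ℕ} (θ : (⦋n⦌ : SimplexCategory) ⟶ ⦋m⦌) (i j : Fin (n + 1)) (h : i ≤ j) :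
    mkOfLe i j h ≫ θ = mkOfLe (θ.toOrderHom i) (θ.toOrderHom j) (θ.toOrderHom.monotone h) := by
  ext x
  fin_cases x <;> rfl

lemma Coc.tri' (τ : Coc A P) {n : ℕ} (x : A _⦋n⦌) (i j l : Fin (n + 1)) (h : i ≤ j) (h' : j ≤ l) :
    τ.val (A.map (mkOfLe i l (h.trans h')).op x) =
      τ.val (A.map (mkOfLe j l h').op x) * τ.val (A.map (mkOfLe i j h).op x) := by
  have := τ.tri (A.map (mkOfLeComp i j l h h').op x)
  obtain ⟨e1, e2, e3⟩ := δ_leComp i j l h h'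
  rw [← e1, ← e2, ← e3]
  simp only [op_comp, A.map_comp]
  exact this

lemma Coc.refl' (τ : Coc A P) {n : ℕ} (x : A _⦋n⦌) (i : Fin (n + 1)) (h : i ≤ i) :
    τ.val (A.map (mkOfLe i i h).op x) = 1 := by
  have := τ.tri' x i i i h h
  exact mul_left_cancel (this.symm.trans (mul_one _).symm)

/-- the functor associated to a cocycle and a simplex -/
def Coc.fn (τ : Coc A P) {n : ℕ} (x : A _⦋n⦌) : Fin (n + 1) ⥤ SingleObj P where
  obj _ := SingleObj.star P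
  map {i j} f := τ.val (A.map (mkOfLe i j (leOfHom f)).op x)
  map_id i := τ.refl' x i le_rfl
  map_comp f g := τ.tri' x _ _ _ (leOfHom f) (leOfHom g)

lemma Coc.fn_nat (τ : Coc A P) {n m : ℕ} (θ : (⦋m⦌ : SimplexCategory) ⟶ ⦋n⦌) (x : A _⦋n⦌)
    (i j : Fin (m + 1)) (h : i ≤ j) : ev (τ.fn (A.map θ.op x)) i j h =
      ev (τ.fn x) (θ.toOrderHom i) (θ.toOrderHom j) (θ.toOrderHom.monotone h) := by
  change τ.val (A.map _ (A.map _ x)) = τ.val (A.map _ x)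
  rw [← mkOfLe_comp θ i j h, op_comp, A.map_comp]
  rfl

/-- the map associated to a cocycle -/
def Coc.toMap (τ : Coc A P) : A ⟶ BG P where
  app n := ↾fun x => (show (BG P).obj n from τ.fn (n := n.unop.len) x)
  naturality n m θ := by
    ext x
    refine sobj_ext _ _ fun i j h => ?_
    exact τ.fn_nat (n := n.unop.len) (m := m.unop.len) θ.unop x i j h

/-- the value of an edge -/
def vl (e : (BG P) _⦋1⦌) : P := ev (toF e) 0 1 (Fin.zero_le _)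

lemma vl_map {n : ℕ} (y : (BG P) _⦋n⦌) (i j : Fin (n + 1)) (h : i ≤ j) :
    vl ((BG P).map (mkOfLe i j h).op y) = ev (toF y) i j h := rfl

lemma vl_tri (y : (BG P) _⦋2⦌) :
    vl ((BG P).δ 1 y) = vl ((BG P).δ 0 y) * vl ((BG P).δ 2 y) :=
  ev_trans (toF y) 0 1 2 (by decide) (by decide)

/-- the cocycle associated to a map -/
def ofMap (g : A ⟶ BG P) : Coc A P where
  val e := vl (g.app _ e)
  tri σ := by
    rw [SSet.δ_naturality_apply, SSet.δ_naturality_apply, SSet.δ_naturality_apply]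
    exact vl_tri _

lemma ofMap_toMap (τ : Coc A P) : ofMap τ.toMap = τ := by
  ext e
  change τ.val (A.map (mkOfLe 0 1 _).op e) = τ.val e
  congr 1
  have : mkOfLe (n := 1) 0 1 (Fin.zero_le _) = 𝟙 _ := by
    ext x
    fin_cases x <;> rfl
  rw [this]
  simp

lemma map_vl (g : A ⟶ BG P) {n : ℕ} (x : A _⦋n⦌) (i j : Fin (n + 1)) (h : i ≤ j) :
    vl (g.app _ (A.map (mkOfLe i j h).op x)) = ev (toF (g.app (op ⦋n⦌) x)) i j h := by
  have := ConcreteCategory.congr_hom (g.naturality (mkOfLe i j h).op) x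
  exact (congrArg vl this)

lemma toMap_ofMap (g : A ⟶ BG P) : (ofMap g).toMap = g := by
  ext n x
  obtain ⟨n⟩ := n
  induction n using SimplexCategory.rec with
  | _ n => exact sobj_ext _ _ fun i j h => map_vl g x i j h

/-- pulling back -/
def Coc.pull (f : A ⟶ B) (τ : Coc B P) : Coc A P where
  val e := τ.val (f.app _ e)
  tri σ := by
    rw [SSet.δ_naturality_apply, SSet.δ_naturality_apply, SSet.δ_naturality_apply]
    exact τ.tri _

lemma ofMap_comp (f : A ⟶ B) (g : B ⟶ BG P) : ofMap (f ≫ g) = (ofMap g).pull f := rfl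

lemma toMap_pull (f : A ⟶ B) (τ : Coc B P) : (τ.pull f).toMap = f ≫ τ.toMap := by
  rw [← toMap_ofMap (f ≫ τ.toMap), ofMap_comp, ofMap_toMap]

/-- pushing forward -/
def Coc.push {P' : Type} [Group P'] (φ : P →* P') (τ : Coc A P) : Coc A P' where
  val e := φ (τ.val e)
  tri σ := by rw [τ.tri, map_mul]

lemma δδ (σ : A _⦋2⦌) : A.δ 0 (A.δ 1 σ) = A.δ 0 (A.δ 0 σ) ∧ A.δ 1 (A.δ 1 σ) = A.δ 1 (A.δ 2 σ) ∧
    A.δ 1 (A.δ 0 σ) = A.δ 0 (A.δ 2 σ) := by
  have key : ∀ (i i' : Fin 2) (j j' : Fin 3),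
      (SimplexCategory.δ i : ⦋0⦌ ⟶ ⦋1⦌) ≫ (SimplexCategory.δ j : ⦋1⦌ ⟶ ⦋2⦌) =
      (SimplexCategory.δ i' : ⦋0⦌ ⟶ ⦋1⦌) ≫ (SimplexCategory.δ j' : ⦋1⦌ ⟶ ⦋2⦌) →
      A.δ i (A.δ j σ) = A.δ i' (A.δ j' σ) := by
    intro i i' j j' h
    have := congrArg (fun t => A.map t.op σ) h
    simp only [op_comp, A.map_comp] at this
    exact this
  refine ⟨key _ _ _ _ ?_, key _ _ _ _ ?_, key _ _ _ _ ?_⟩ <;> decide

/-- gauge transformations -/
def Coc.gauge (T : A _⦋0⦌ → P) (τ : Coc A P) : Coc A P where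
  val e := T (A.δ 0 e) * τ.val e * (T (A.δ 1 e))⁻¹
  tri σ := by
    obtain ⟨h1, h2, h3⟩ := δδ σ
    rw [h1, h2, h3, τ.tri]
    group

/-- the function on vertices of the cylinder -/
def cylT (T : A _⦋0⦌ → P) : (A ⊗ (Δ[1] : SSet.{0})) _⦋0⦌ → P := fun v =>
  if (SSet.stdSimplex.asOrderHom (show (Δ[1] : SSet.{0}) _⦋0⦌ from v.2) 0 : Fin 2) = 0 then 1
    else T v.1

/-- the projection of the cylinder -/
def cylp (A : SSet.{0}) : A ⊗ (Δ[1] : SSet.{0}) ⟶ A where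
  app _ := ↾fun x => x.1
  naturality _ _ _ := rfl

/-- homotopies from gauge transformations -/
def gaugeHtpy (T : A _⦋0⦌ → P) (τ : Coc A P) :
    SSet.Homotopy τ.toMap (τ.gauge T).toMap where
  h := ((τ.pull (cylp A)).gauge (cylT T)).toMap
  h₀ := by
    refine (toMap_pull (P := P) _ _).symm.trans ?_
    congr 1
    apply Coc.ext
    funext e
    change (1 : P) * τ.val e * (1 : P)⁻¹ = τ.val e
    group
  h₁ := by
    refine (toMap_pull (P := P) _ _).symm.trans ?_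
    congr 1
  rel := by
    ext n x
    exact x.1.2.elim

/-- simplices of the cylinder -/
def mkC {n : ℕ} (a : A _⦋n⦌) (β : (⦋n⦌ : SimplexCategory) ⟶ ⦋1⦌) :
    (A ⊗ (Δ[1] : SSet.{0})) _⦋n⦌ := (a, SSet.stdSimplex.objEquiv.symm β)

lemma δ_mkC {n : ℕ} (a : A _⦋n+1⦌) (β : (⦋n+1⦌ : SimplexCategory) ⟶ ⦋1⦌) (i : Fin (n + 2)) :
    (A ⊗ (Δ[1] : SSet.{0})).δ i (mkC a β) = mkC (A.δ i a) (SimplexCategory.δ i ≫ β) := rfl

/-- the values of a homotopy -/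
def htR {f g : A ⟶ BG P} (H : SSet.Homotopy f g) (e : A _⦋1⦌) (α β : (⦋1⦌ : SimplexCategory) ⟶ ⦋1⦌) :
    P := (ofMap H.h).val (mkC (A.map α.op e) β)

lemma htR_tri {f g : A ⟶ BG P} (H : SSet.Homotopy f g) (e : A _⦋1⦌)
    (α β : (⦋2⦌ : SimplexCategory) ⟶ ⦋1⦌) :
    htR H e (SimplexCategory.δ 1 ≫ α) (SimplexCategory.δ 1 ≫ β) =
      htR H e (SimplexCategory.δ 0 ≫ α) (SimplexCategory.δ 0 ≫ β) *
        htR H e (SimplexCategory.δ 2 ≫ α) (SimplexCategory.δ 2 ≫ β) := by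
  have h := (ofMap H.h).tri (mkC (A.map α.op e) β)
  simp only [δ_mkC] at h
  unfold htR
  simp only [op_comp, A.map_comp]
  exact h

/-- the gauge transformation of a homotopy -/
def htT {f g : A ⟶ BG P} (H : SSet.Homotopy f g) (v : A _⦋0⦌) : P :=
  (ofMap H.h).val (mkC (A.map (SimplexCategory.σ 0).op v) (𝟙 _))

lemma htR_zero {f g : A ⟶ BG P} (H : SSet.Homotopy f g) (e : A _⦋1⦌) :
    htR H e (𝟙 _) (SimplexCategory.const _ _ 0) = vl (f.app _ e) := by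
  have h : f = SSet.ι₀ ≫ H.h := H.h₀.symm
  have h2 := congrArg (fun t => vl (t.app (op ⦋1⦌) e)) h
  refine Eq.trans ?_ h2.symm
  unfold htR
  simp only [op_id, A.map_id]
  rfl

lemma htR_one {f g : A ⟶ BG P} (H : SSet.Homotopy f g) (e : A _⦋1⦌) :
    htR H e (𝟙 _) (SimplexCategory.const _ _ 1) = vl (g.app _ e) := by
  have h : g = SSet.ι₁ ≫ H.h := H.h₁.symm
  have h2 := congrArg (fun t => vl (t.app (op ⦋1⦌) e)) h
  refine Eq.trans ?_ h2.symm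
  unfold htR
  simp only [op_id, A.map_id]
  rfl

lemma htR_vert {f g : A ⟶ BG P} (H : SSet.Homotopy f g) (e : A _⦋1⦌) (i : Fin 2) :
    htR H e (SimplexCategory.σ 0 ≫ SimplexCategory.δ i) (𝟙 _) = htT H (A.δ i e) := by
  unfold htR htT
  simp only [op_comp, A.map_comp]
  rfl

lemma htpy_gauge {f g : A ⟶ BG P} (H : SSet.Homotopy f g) :
    ofMap g = (ofMap f).gauge (htT H) := by
  apply Coc.ext
  funext e
  change vl (g.app _ e) = htT H (A.δ 0 e) * vl (f.app _ e) * (htT H (A.δ 1 e))⁻¹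
  let σ0 : (⦋2⦌ : SimplexCategory) ⟶ ⦋1⦌ := SimplexCategory.σ 0
  let σ1 : (⦋2⦌ : SimplexCategory) ⟶ ⦋1⦌ := SimplexCategory.σ 1
  have h1 := htR_tri H e σ0 σ1
  have h2 := htR_tri H e σ1 σ0
  have a1 : SimplexCategory.δ 1 ≫ σ0 = 𝟙 _ := by decide
  have a2 : SimplexCategory.δ 0 ≫ σ0 = 𝟙 _ := by decide
  have a3 : SimplexCategory.δ 2 ≫ σ0 = SimplexCategory.σ 0 ≫ SimplexCategory.δ 1 := by decide
  have b1 : SimplexCategory.δ 1 ≫ σ1 = 𝟙 _ := by decide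
  have b2 : SimplexCategory.δ 0 ≫ σ1 = SimplexCategory.σ 0 ≫ SimplexCategory.δ 0 := by decide
  have b3 : SimplexCategory.δ 2 ≫ σ1 = 𝟙 _ := by decide
  have c1 : (SimplexCategory.σ 0 ≫ SimplexCategory.δ 1 : (⦋1⦌ : SimplexCategory) ⟶ ⦋1⦌) =
    SimplexCategory.const _ _ 0 := by decide
  have c2 : (SimplexCategory.σ 0 ≫ SimplexCategory.δ 0 : (⦋1⦌ : SimplexCategory) ⟶ ⦋1⦌) =
    SimplexCategory.const _ _ 1 := by decide
  rw [a1, a2, a3, b1, b2, b3, c2, htR_one, htR_vert] at h1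
  rw [a1, a2, a3, b1, b2, b3, c1, htR_zero, htR_vert] at h2
  rw [eq_mul_inv_iff_mul_eq, ← h1, ← h2]

/-- maps are homotopic iff the cocycles are gauge equivalent -/
theorem htpy_iff (f g : A ⟶ BG P) :
    Nonempty (SSet.Homotopy f g) ↔ ∃ T, ofMap g = (ofMap f).gauge T := by
  constructor
  · rintro ⟨H⟩
    exact ⟨_, htpy_gauge H⟩
  · rintro ⟨T, hT⟩
    have := gaugeHtpy T (ofMap f)
    rw [← hT, toMap_ofMap, toMap_ofMap] at this
    exact ⟨this⟩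

end Pool.Agent.H5.PC
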