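import Mathlib
import Pool.Agent.H5.PC.Coc

set_option autoImplicit false

/-!
Low dimensional cohomology from homology, over a field.
-/

open CategoryTheory Simplicial Opposite Limits

noncomputable section

namespace Pool.Agent.H5.PC

variable {k : Type} [Field k]

lemma dual_ext {V W : Type} [AddCommGroup V] [Module k V] [AddCommGroup W] [Module k W]
    (Φ : V →ₗ[k] W) (ψ : V →ₗ[k] k) (h : ∀ v, Φ v = 0 → ψ v = 0) :
    ∃ b : W →ₗ[k] k, ∀ v, b (Φ v) = ψ v := by
  have h1 : ψ ∈ Φ.ker.dualAnnihilator := by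
    rw [Submodule.mem_dualAnnihilator]
    exact fun v hv => h v hv
  rw [← LinearMap.range_dualMap_eq_dualAnnihilator_ker] at h1
  obtain ⟨b, hb⟩ := h1
  exact ⟨b, fun v => LinearMap.congr_fun hb v⟩

variable {A B : SSet.{0}} (f : A ⟶ B)

lemma van (n : ℕ) (h : HIso k f n) (c : Ch k B n →ₗ[k] k) (hc : ∀ w, c (bd B n w) = 0)
    (hz : ∀ z, IsCyc A n z → c (cmap f n z) = 0) (w : Ch k B n) (hw : IsCyc B n w) : c w = 0 := by
  obtain ⟨z, hz1, u, hu⟩ := h.2 w hw
  have h1 : w = cmap f n z - bd B n u := by rw [hu]; abel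
  rw [h1, map_sub, hz z hz1, hc, sub_zero]

lemma cob_of_van (n : ℕ) (c : Ch k B (n + 1) →ₗ[k] k)
    (h : ∀ w, bd B n w = 0 → c w = 0) : ∃ e : Ch k B n →ₗ[k] k, ∀ w, e (bd B n w) = c w :=
  dual_ext (bd B n) c h

/-- cycles as a submodule -/
def cycSub (A : SSet.{0}) (n : ℕ) : Submodule k (Ch k A n) where
  carrier := {z | IsCyc A n z}
  add_mem' h h' := h.add h'
  zero_mem' := by
    change IsCyc A n 0
    cases n with
    | zero => trivial
    | succ n => exact map_zero _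
  smul_mem' c z h := by
    change IsCyc A n (c • z)
    cases n with
    | zero => trivial
    | succ n =>
      change bd A n _ = 0
      rw [map_smul, show bd A n z = 0 from h, smul_zero]

lemma cohom_surj (n : ℕ) (h : HIso k f n) (a : Ch k A n →ₗ[k] k) (ha : ∀ w, a (bd A n w) = 0) :
    ∃ b : Ch k B n →ₗ[k] k, (∀ w, b (bd B n w) = 0) ∧
      ∀ z, IsCyc A n z → b (cmap f n z) = a z := by
  let Φ : (cycSub (k := k) A n) × Ch k B (n + 1) →ₗ[k] Ch k B n :=
    LinearMap.coprod ((cmap f n).comp (cycSub (k := k) A n).subtype) (bd B n)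
  let ψ : (cycSub (k := k) A n) × Ch k B (n + 1) →ₗ[k] k :=
    (a.comp (cycSub (k := k) A n).subtype).comp (LinearMap.fst k _ _)
  have hΦ : ∀ v, Φ v = cmap f n v.1.1 + bd B n v.2 := fun v => rfl
  have hψ : ∀ v, ψ v = a v.1.1 := fun v => rfl
  have key : ∀ v, Φ v = 0 → ψ v = 0 := by
    rintro ⟨z, w⟩ hv
    rw [hΦ] at hv
    rw [hψ]
    obtain ⟨u, hu⟩ := h.1 z.1 z.2 ⟨-w, by rw [map_neg]; exact (eq_neg_of_add_eq_zero_left hv).symm⟩
    change a z.1 = 0
    rw [← hu, ha]
  obtain ⟨b, hb⟩ := dual_ext (k := k) (V := (cycSub (k := k) A n) × Ch k B (n + 1))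
    (W := Ch k B n) Φ ψ key
  refine ⟨b, fun w => ?_, fun z hz => ?_⟩
  · have := hb (0, w)
    rw [hΦ, hψ] at this
    simpa using this
  · have := hb (⟨z, hz⟩, 0)
    rw [hΦ, hψ] at this
    simpa using this

/-- functions as functionals -/
def fl {X : Type} (c : X → k) : (X →₀ k) →ₗ[k] k := Finsupp.linearCombination k c

@[simp] lemma fl_single {X : Type} (c : X → k) (x : X) (a : k) :
    fl c (Finsupp.single x a) = a * c x := by
  unfold fl
  rw [Finsupp.linearCombination_single, smul_eq_mul]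

lemma fl_ext {n : ℕ} {W : Type} [AddCommGroup W] [Module k W] (g g' : Ch k A n →ₗ[k] W)
    (h : ∀ x, g (Finsupp.single x 1) = g' (Finsupp.single x 1)) (z : Ch k A n) : g z = g' z := by
  have : g = g' := by
    apply Finsupp.lhom_ext
    intro x a
    have e1 : (Finsupp.single x a : Ch k A n) = a • Finsupp.single x 1 := by simp
    rw [e1, map_smul, map_smul, h]
  rw [this]

theorem coh0_inj (h : HIso k f 0) (c : B _⦋0⦌ → k) (hc : ∀ e : B _⦋1⦌, c (B.δ 0 e) = c (B.δ 1 e))
    (h0 : ∀ v, c (f.app _ v) = 0) (v : B _⦋0⦌) : c v = 0 := by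
  have := van f 0 h (fl c) (fl_ext ((fl c).comp (bd B 0)) 0 (fun x => by
      simp [bd_single, Fin.sum_univ_two, hc]))
    (fun z _ => fl_ext ((fl c).comp (cmap f 0)) 0 (fun x => by simp [h0]) z)
    (Finsupp.single v 1) trivial
  simpa using this

theorem coh0_surj (h : HIso k f 0) (a : A _⦋0⦌ → k) (ha : ∀ e : A _⦋1⦌, a (A.δ 0 e) = a (A.δ 1 e)) :
    ∃ b : B _⦋0⦌ → k, (∀ e : B _⦋1⦌, b (B.δ 0 e) = b (B.δ 1 e)) ∧ ∀ v, b (f.app _ v) = a v := by
  obtain ⟨b, hb1, hb2⟩ := cohom_surj f 0 h (fl a) (fl_ext ((fl a).comp (bd A 0)) 0 (fun x => by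
      simp [bd_single, Fin.sum_univ_two, ha]))
  refine ⟨fun v => b (Finsupp.single v 1), fun e => ?_, fun v => ?_⟩
  · have := hb1 (Finsupp.single e 1)
    rw [bd_single, Fin.sum_univ_two] at this
    simp only [Fin.val_zero, pow_zero, one_smul, Fin.val_one, pow_one, neg_smul, map_add,
      map_neg] at this
    exact add_neg_eq_zero.1 this
  · have := hb2 (Finsupp.single v 1) trivial
    rw [cmap_single] at this
    simpa using this

theorem coh1_inj (h : HIso k f 1) (c : B _⦋1⦌ → k)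
    (hc : ∀ σ : B _⦋2⦌, c (B.δ 1 σ) = c (B.δ 0 σ) + c (B.δ 2 σ))
    (z : A _⦋0⦌ → k) (hz : ∀ e : A _⦋1⦌, c (f.app _ e) = z (A.δ 0 e) - z (A.δ 1 e)) :
    ∃ y : B _⦋0⦌ → k, ∀ e : B _⦋1⦌, c e = y (B.δ 0 e) - y (B.δ 1 e) := by
  obtain ⟨e, he⟩ := cob_of_van 0 (fl c) (van f 1 h (fl c)
    (fl_ext ((fl c).comp (bd B 1)) 0 (fun x => by
      simp [bd_single, Fin.sum_univ_three, hc]; try ring))
    (fun u hu => by
      have := fl_ext ((fl c).comp (cmap f 1)) ((fl z).comp (bd A 0)) (fun x => by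
        simp [bd_single, Fin.sum_univ_two, hz]; try ring) u
      have h0 : bd A 0 u = 0 := hu
      simp only [LinearMap.comp_apply] at this
      rw [this, h0, map_zero]))
  refine ⟨fun v => e (Finsupp.single v 1), fun x => ?_⟩
  have := he (Finsupp.single x 1)
  rw [bd_single, Fin.sum_univ_two] at this
  simp only [Fin.val_zero, pow_zero, one_smul, Fin.val_one, pow_one, neg_smul, map_add,
      map_neg, fl_single, one_mul] at this
  rw [← this]
  exact sub_eq_add_neg _ _ |>.symm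

theorem coh1_surj (h : HIso k f 1) (a : A _⦋1⦌ → k)
    (ha : ∀ σ : A _⦋2⦌, a (A.δ 1 σ) = a (A.δ 0 σ) + a (A.δ 2 σ)) :
    ∃ b : B _⦋1⦌ → k, (∀ σ : B _⦋2⦌, b (B.δ 1 σ) = b (B.δ 0 σ) + b (B.δ 2 σ)) ∧
      ∃ y : A _⦋0⦌ → k, ∀ e : A _⦋1⦌, b (f.app _ e) = a e + (y (A.δ 0 e) - y (A.δ 1 e)) := by
  obtain ⟨b, hb1, hb2⟩ := cohom_surj f 1 h (fl a) (fl_ext ((fl a).comp (bd A 1)) 0 (fun x => by
      simp [bd_single, Fin.sum_univ_three, ha]; try ring))
  refine ⟨fun v => b (Finsupp.single v 1), fun e => ?_, ?_⟩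
  · have := hb1 (Finsupp.single e 1)
    rw [bd_single, Fin.sum_univ_three] at this
    simp only [Fin.val_zero, pow_zero, one_smul, Fin.val_one, pow_one, neg_smul, map_add,
      map_neg, Fin.val_two, neg_one_sq] at this
    linear_combination -this
  · obtain ⟨e, he⟩ := cob_of_van 0 (b.comp (cmap f 1) - fl a) (fun w hw => by
      rw [LinearMap.sub_apply, LinearMap.comp_apply, hb2 w hw, sub_self])
    refine ⟨fun v => e (Finsupp.single v 1), fun x => ?_⟩
    have := he (Finsupp.single x 1)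
    rw [bd_single, Fin.sum_univ_two] at this
    simp only [Fin.val_zero, pow_zero, one_smul, Fin.val_one, pow_one, neg_smul, map_add,
      map_neg, LinearMap.sub_apply, LinearMap.comp_apply, cmap_single, fl_single, one_mul] at this
    linear_combination -this

theorem coh2_inj (h : HIso k f 2) (c : B _⦋2⦌ → k)
    (hc : ∀ τ : B _⦋3⦌, c (B.δ 0 τ) - c (B.δ 1 τ) + c (B.δ 2 τ) - c (B.δ 3 τ) = 0)
    (z : A _⦋1⦌ → k) (hz : ∀ σ : A _⦋2⦌, c (f.app _ σ) = z (A.δ 0 σ) - z (A.δ 1 σ) + z (A.δ 2 σ)) :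
    ∃ y : B _⦋1⦌ → k, ∀ σ : B _⦋2⦌, c σ = y (B.δ 0 σ) - y (B.δ 1 σ) + y (B.δ 2 σ) := by
  obtain ⟨e, he⟩ := cob_of_van 1 (fl c) (van f 2 h (fl c)
    (fl_ext ((fl c).comp (bd B 2)) 0 (fun x => by
      have := hc x
      rw [LinearMap.comp_apply, bd_single, Fin.sum_univ_four]
      simp only [Fin.val_zero, pow_zero, one_smul, Fin.val_one, pow_one, neg_smul, map_add,
        map_neg, Fin.val_two, neg_one_sq, fl_single, one_mul, map_smul]
      have h3 : ((3 : Fin 4) : ℕ) = 3 := rfl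
      rw [h3]
      simp only [LinearMap.zero_apply, smul_eq_mul]
      linear_combination this))
    (fun u hu => by
      have := fl_ext ((fl c).comp (cmap f 2)) ((fl z).comp (bd A 1)) (fun x => by
        rw [LinearMap.comp_apply, LinearMap.comp_apply, bd_single, Fin.sum_univ_three, cmap_single]
        simp only [Fin.val_zero, pow_zero, one_smul, Fin.val_one, pow_one, neg_smul, map_add,
          map_neg, Fin.val_two, neg_one_sq, fl_single, one_mul, map_smul, hz]
        try ring) u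
      have h0 : bd A 1 u = 0 := hu
      simp only [LinearMap.comp_apply] at this
      rw [this, h0, map_zero]))
  refine ⟨fun v => e (Finsupp.single v 1), fun x => ?_⟩
  have := he (Finsupp.single x 1)
  rw [bd_single, Fin.sum_univ_three] at this
  simp only [Fin.val_zero, pow_zero, one_smul, Fin.val_one, pow_one, neg_smul, map_add,
      map_neg, Fin.val_two, neg_one_sq, fl_single, one_mul] at this
  rw [← this]
  ring

end Pool.Agent.H5.PC
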