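import Mathlib
import Pool.Agent.H5.PC.Union

set_option autoImplicit false

/-!
The tower of finite `p`-groups.
-/

open CategoryTheory Limits

noncomputable section

namespace Pool.Agent.H5.PC

/-- groups over the cyclic group of order `p` -/
structure Stg (p : ℕ) where
  /-- the group -/
  G : Type
  [grp : Group G]
  /-- the projection -/
  π : G →* Multiplicative (ZMod p)

attribute [instance] Stg.grp

variable (p : ℕ)

/-- the group of order `p ^ 2` -/
abbrev Dg : Type := Multiplicative (ZMod (p ^ 2))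

/-- reduction modulo `p` -/
def rdc : Dg p →* Multiplicative (ZMod p) :=
  AddMonoidHom.toMultiplicative
    (ZMod.castHom (dvd_pow_self p two_ne_zero) (ZMod p)).toAddMonoidHom

lemma rdc_surj : Function.Surjective (rdc p) := by
  intro x
  obtain ⟨y, hy⟩ := ZMod.castHom_surjective (dvd_pow_self p two_ne_zero)
    (Multiplicative.toAdd x)
  exact ⟨Multiplicative.ofAdd y, congrArg Multiplicative.ofAdd hy⟩

lemma rdc_one (hp : p ≠ 0) (t : Dg p) (h : t ^ p = 1) : rdc p t = 1 := by
  obtain ⟨n, hn⟩ := ZMod.intCast_surjective (Multiplicative.toAdd t)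
  have h1 : ((p * n : ℤ) : ZMod (p ^ 2)) = 0 := by
    have h2 := congrArg Multiplicative.toAdd h
    rw [toAdd_pow, ← hn, toAdd_one, nsmul_eq_mul] at h2
    push_cast
    exact h2
  rw [ZMod.intCast_zmod_eq_zero_iff_dvd] at h1
  have h3 : (p : ℤ) ∣ n := by
    have h4 : (p : ℤ) * p ∣ p * n := by
      rw [← sq]
      exact_mod_cast h1
    exact (mul_dvd_mul_iff_left (by exact_mod_cast hp)).1 h4
  change Multiplicative.ofAdd (ZMod.castHom (dvd_pow_self p two_ne_zero) (ZMod p)
    (Multiplicative.toAdd t)) = 1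
  rw [← hn, map_intCast, (ZMod.intCast_zmod_eq_zero_iff_dvd n p).2 h3]
  rfl

variable [NeZero p]

/-- the cyclic shift -/
def shp : Multiplicative (ZMod p) →* Equiv.Perm (Fin p) where
  toFun a :=
    { toFun := fun j => (ZMod.finEquiv p).symm (ZMod.finEquiv p j + Multiplicative.toAdd a)
      invFun := fun j => (ZMod.finEquiv p).symm (ZMod.finEquiv p j - Multiplicative.toAdd a)
      left_inv := fun j => by simp
      right_inv := fun j => by simp }
  map_one' := by
    ext j
    simp
  map_mul' a b := by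
    apply Equiv.ext
    intro j
    change (ZMod.finEquiv p).symm (ZMod.finEquiv p j +
      (Multiplicative.toAdd a + Multiplicative.toAdd b)) =
      (ZMod.finEquiv p).symm (ZMod.finEquiv p ((ZMod.finEquiv p).symm
        (ZMod.finEquiv p j + Multiplicative.toAdd b)) + Multiplicative.toAdd a)
    rw [RingEquiv.apply_symm_apply, add_assoc, add_comm (Multiplicative.toAdd b)]

lemma shp_trans (l : Fin p) : ∃ a, shp p a l = 0 := by
  refine ⟨Multiplicative.ofAdd (-(ZMod.finEquiv p l)), ?_⟩
  change (ZMod.finEquiv p).symm (ZMod.finEquiv p l + -(ZMod.finEquiv p l)) = 0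
  rw [add_neg_cancel, map_zero]

section stage

variable {p} (S : Stg p)

/-- the fibre power -/
def Qs : Subgroup (Fin p → S.G) where
  carrier := {x | ∀ i j, S.π (x i) = S.π (x j)}
  one_mem' := fun _ _ => rfl
  mul_mem' := by
    intro a b ha hb i j
    rw [Pi.mul_apply, Pi.mul_apply, map_mul, map_mul, ha i j, hb i j]
  inv_mem' := by
    intro a ha i j
    rw [Pi.inv_apply, Pi.inv_apply, map_inv, map_inv, ha i j]

/-- the action of the cyclic group -/
def actQ : Dg p →* MulAut (Qs S) where
  toFun t :=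
    { toFun := fun x => ⟨fun j => x.1 ((shp p (rdc p t))⁻¹ j), fun i j => x.2 _ _⟩
      invFun := fun x => ⟨fun j => x.1 ((shp p (rdc p t)) j), fun i j => x.2 _ _⟩
      left_inv := fun x => by
        apply Subtype.ext
        funext j
        exact congrArg x.1 (Equiv.symm_apply_apply (shp p (rdc p t)) j)
      right_inv := fun x => by
        apply Subtype.ext
        funext j
        exact congrArg x.1 (Equiv.apply_symm_apply (shp p (rdc p t)) j)
      map_mul' := fun x y => rfl }
  map_one' := by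
    ext x j
    change x.1 _ = x.1 _
    rw [map_one, map_one]
    rfl
  map_mul' a b := by
    ext x j
    change x.1 _ = x.1 _
    rw [map_mul, map_mul, mul_inv_rev]
    rfl

lemma actQ_apply (t : Dg p) (x : Qs S) (j : Fin p) :
    (actQ S t x).1 j = x.1 ((shp p (rdc p t))⁻¹ j) := rfl

/-- the semidirect product -/
abbrev NG : Type := (Qs S) ⋊[actQ S] (Dg p)

/-- the next stage -/
def nxt : Stg p where
  G := NG S
  π :=
    { toFun := fun y => S.π (y.left.1 0)
      map_one' := map_one _
      map_mul' := fun y z => by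
        change S.π ((y.left.1 * (actQ S y.right z.left).1) 0) = _
        rw [Pi.mul_apply, map_mul, actQ_apply]
        congr 1
        exact z.left.2 _ _ }

/-- the diagonal -/
def dgl : S.G →* (nxt S).G :=
  SemidirectProduct.inl.comp
    { toFun := fun x => (⟨fun _ => x, fun _ _ => rfl⟩ : Qs S)
      map_one' := rfl
      map_mul' := fun _ _ => rfl }

lemma dgl_π : (nxt S).π.comp (dgl S) = S.π := rfl

lemma dgl_inj : Function.Injective (dgl S) := by
  intro x y h
  have h1 := congrArg (fun t : (Qs S) ⋊[actQ S] (Dg p) => t.left.1 0) h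
  exact h1

/-- the map used in the acyclicity criterion -/
def muQ : (Fin p → S.π.ker) →* (nxt S).π.ker where
  toFun x := ⟨SemidirectProduct.inl (⟨fun j => (x j).1, fun i j => by
    rw [(x i).2, (x j).2]⟩ : Qs S), (x 0).2⟩
  map_one' := rfl
  map_mul' x y := by
    apply Subtype.ext
    exact map_mul SemidirectProduct.inl (⟨fun j => (x j).1, fun i j => by
      rw [(x i).2, (x j).2]⟩ : Qs S) (⟨fun j => (y j).1, fun i j => by
      rw [(y i).2, (y j).2]⟩ : Qs S)

lemma inr_inl (t : Dg p) (x : Qs S) :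
    (SemidirectProduct.inr t * SemidirectProduct.inl x : NG S) =
      SemidirectProduct.inl (actQ S t x) * SemidirectProduct.inr t := by
  rw [← mul_inv_eq_iff_eq_mul, ← map_inv, ← SemidirectProduct.inl_aut]

lemma muQ_aux (l : Fin p) (t : Dg p) (hc : shp p (rdc p t) l = 0) (a : S.π.ker)
    (h h') : actQ S t ⟨fun j => ((sg S.π.ker l a) j).1, h⟩ =
      ⟨fun j => ((sg S.π.ker 0 a) j).1, h'⟩ := by
  apply Subtype.ext
  funext j
  rw [actQ_apply]
  change ((Pi.mulSingle l a : Fin p → S.π.ker) _).1 = ((Pi.mulSingle 0 a : Fin p → S.π.ker) j).1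
  congr 1
  by_cases hj : j = 0
  · subst hj
    have : (shp p (rdc p t))⁻¹ 0 = l := by
      rw [← hc]
      exact Equiv.symm_apply_apply _ _
    rw [this, Pi.mulSingle_eq_same, Pi.mulSingle_eq_same]
  · have : (shp p (rdc p t))⁻¹ j ≠ l := by
      intro h
      apply hj
      rw [← hc, ← h]
      exact (Equiv.apply_symm_apply _ _).symm
    rw [Pi.mulSingle_eq_of_ne this, Pi.mulSingle_eq_of_ne hj]

lemma muQ_conj (l : Fin p) : ∃ g : (nxt S).π.ker, ∀ a : S.π.ker,
    g * muQ S (sg S.π.ker l a) = muQ S (sg S.π.ker 0 a) * g := by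
  obtain ⟨c, hc⟩ := shp_trans p l
  obtain ⟨t, rfl⟩ := rdc_surj p c
  refine ⟨⟨(SemidirectProduct.inr t : NG S), map_one S.π⟩, fun a => ?_⟩
  apply Subtype.ext
  refine (inr_inl S t _).trans ?_
  exact congrArg (fun y : Qs S => (SemidirectProduct.inl y * SemidirectProduct.inr t : NG S))
    (muQ_aux S l t hc a _ _)

instance [Finite S.G] : Finite (nxt S).G :=
  Finite.of_equiv ((Qs S) × (Dg p)) SemidirectProduct.equivProd.symm

omit [NeZero p] in
lemma card_Dg : Nat.card (Dg p) = p ^ 2 := Nat.card_zmod _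

lemma nxt_pgroup [Fact p.Prime] [Finite S.G] (h : IsPGroup p S.G) : IsPGroup p (nxt S).G := by
  have h1 : IsPGroup p (Fin p → S.G) := by
    obtain ⟨n, hn⟩ := IsPGroup.iff_card.1 h
    refine IsPGroup.of_card (n := n * p) ?_
    rw [Nat.card_fun, hn, Nat.card_fin, pow_mul]
  obtain ⟨m, hm⟩ := IsPGroup.iff_card.1 (h1.to_subgroup (Qs S))
  refine IsPGroup.of_card (n := m + 2) ?_
  have h2 : Nat.card (nxt S).G = Nat.card (Qs S) * Nat.card (Dg p) :=
    SemidirectProduct.card
  rw [h2, hm, card_Dg, pow_add]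

/-- no element of order `p` maps nontrivially -/
def NT (S : Stg p) : Prop := ∀ g : S.G, g ^ p = 1 → S.π g = 1

lemma nt_aux (h : NT S) (y : NG S) (hy : y ^ p = 1) : S.π (y.left.1 0) = 1 := by
  have h1 : y.right ^ p = 1 := by
    have := congrArg (SemidirectProduct.rightHom (φ := actQ S)) hy
    rw [map_pow, map_one] at this
    exact this
  have h2 : actQ S y.right = 1 := by
    have h3 : rdc p y.right = 1 := rdc_one p (NeZero.ne p) _ h1
    ext x j
    rw [actQ_apply, h3, map_one]
    rfl
  have h3 : ∀ n : ℕ, (y ^ n).left = y.left ^ n ∧ (actQ S (y ^ n).right) = 1 := by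
    intro n
    induction n with
    | zero =>
      have e1 : y ^ 0 = 1 := pow_zero _
      have e2 : y.left ^ 0 = 1 := pow_zero _
      rw [e1, e2]
      exact ⟨rfl, map_one _⟩
    | succ n ih =>
      obtain ⟨i1, i2⟩ := ih
      have e1 : y ^ (n + 1) = y ^ n * y := pow_succ _ _
      have e2 : y.left ^ (n + 1) = y.left ^ n * y.left := pow_succ _ _
      rw [e1, e2, SemidirectProduct.mul_left, SemidirectProduct.mul_right, map_mul, i1, i2, h2]
      exact ⟨rfl, one_mul _⟩
  have h4 : y.left ^ p = 1 := by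
    rw [← (h3 p).1, hy]
    rfl
  have h5 := congrArg (fun t : Qs S => t.1 0) h4
  exact h _ h5

lemma nxt_nt (h : NT S) : NT (nxt S) := fun y hy => nt_aux S h y hy

lemma nxt_surj (h : Function.Surjective S.π) : Function.Surjective (nxt S).π := by
  intro c
  obtain ⟨x, hx⟩ := h c
  exact ⟨dgl S x, hx⟩

end stage

/-- the tower -/
def Tw : ℕ → Stg p
  | 0 => { G := Dg p, π := rdc p }
  | m + 1 => nxt (Tw m)

theorem Tw_props [Fact p.Prime] (m : ℕ) : Finite (Tw p m).G ∧ IsPGroup p (Tw p m).G ∧
    NT (Tw p m) ∧ Function.Surjective (Tw p m).π := by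
  induction m with
  | zero =>
    have hc : Nat.card (Dg p) = p ^ 2 := card_Dg
    have h0 : NeZero (p ^ 2) := ⟨pow_ne_zero _ (NeZero.ne p)⟩
    exact ⟨(inferInstance : Finite (Multiplicative (ZMod (p ^ 2)))), IsPGroup.of_card hc,
      fun g hg => rdc_one p (NeZero.ne p) g hg, rdc_surj p⟩
  | succ m ih =>
    obtain ⟨h1, h2, h3, h4⟩ := ih
    exact ⟨(inferInstance : Finite (nxt (Tw p m)).G), nxt_pgroup _ h2, nxt_nt _ h3, nxt_surj _ h4⟩

end Pool.Agent.H5.PC
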