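import Mathlib
import Pool.Agent.H5.PC.Tower

set_option autoImplicit false

/-!
The colimit of the tower.
-/

open CategoryTheory Limits Simplicial Opposite

noncomputable section

namespace Pool.Agent.H5.PC

variable (p : ℕ) [NeZero p]

/-- the diagram of groups -/
def TF : ℕ ⥤ GrpCat.{0} :=
  Functor.ofSequence (X := fun m => GrpCat.of (Tw p m).G) (fun m => GrpCat.ofHom (dgl (Tw p m)))

/-- the colimit cocone -/
def TC : Cocone (TF p) := GrpCat.FilteredColimits.colimitCocone.{0, 0} (TF p)

/-- the colimit property -/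
def TCc : IsColimit (TC p) := GrpCat.FilteredColimits.colimitCoconeIsColimit.{0, 0} (TF p)

/-- the colimit group -/
abbrev TL : Type := (TC p).pt

/-- the structure maps -/
def tu (m : ℕ) : (Tw p m).G →* TL p := ((TC p).ι.app m).hom

lemma TF_succ (m : ℕ) : (TF p).map (homOfLE (Nat.le_add_right m 1)) = GrpCat.ofHom (dgl (Tw p m)) :=
  Functor.ofSequence_map_homOfLE_succ _ m

lemma tu_succ (m : ℕ) (x : (Tw p m).G) : tu p (m + 1) (dgl (Tw p m) x) = tu p m x := by
  have h := (TC p).w (homOfLE (Nat.le_add_right m 1))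
  rw [TF_succ] at h
  exact congrArg (fun f => f.hom x) h

lemma TF_inj {i j : ℕ} (h : i ≤ j) : Function.Injective ((TF p).map (homOfLE h)).hom := by
  induction j, h using Nat.le_induction with
  | base =>
    have : (TF p).map (homOfLE (le_refl i)) = 𝟙 _ := (TF p).map_id i
    rw [this]
    exact fun _ _ h => h
  | succ j hj ih =>
    have : (TF p).map (homOfLE (Nat.le_succ_of_le hj)) =
        (TF p).map (homOfLE hj) ≫ (TF p).map (homOfLE (Nat.le_add_right j 1)) := by
      rw [← (TF p).map_comp]
      rfl
    rw [this, TF_succ]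
    intro x y hxy
    exact ih (dgl_inj _ hxy)

lemma tu_inj (m : ℕ) : Function.Injective (tu p m) := by
  intro x y h
  obtain ⟨k, f, g, hfg⟩ := Concrete.isColimit_exists_of_rep_eq (TF p) (TCc p) x y h
  have e : f = g := Subsingleton.elim _ _
  subst e
  exact TF_inj p (leOfHom f) hfg

lemma tu_surj (x : TL p) : ∃ m y, tu p m y = x :=
  Concrete.isColimit_exists_rep (TF p) (TCc p) x

/-- the cocone to the cyclic group -/
def Tπc : Cocone (TF p) where
  pt := GrpCat.of (Multiplicative (ZMod p))
  ι := NatTrans.ofSequence (fun m => GrpCat.ofHom (Tw p m).π) (fun m => by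
    rw [TF_succ]
    rfl)

/-- the projection of the colimit -/
def tπ : TL p →* Multiplicative (ZMod p) := ((TCc p).desc (Tπc p)).hom

lemma tπ_tu (m : ℕ) (x : (Tw p m).G) : tπ p (tu p m x) = (Tw p m).π x := by
  have h := (TCc p).fac (Tπc p) m
  exact congrArg (fun f => f.hom x) h

end Pool.Agent.H5.PC
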