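import Mathlib

set_option autoImplicit false

/-!
Fusion systems, saturation, centric linking systems (the axioms of Broto, Levi and Oliver).
-/

open CategoryTheory

noncomputable section

namespace Pool.Agent.H5.PC

variable {S : Type} [Group S]

/-- homomorphisms between subgroups of `S` -/
def SH (P Q : Subgroup S) : Type := P →* Q

namespace SH

variable {P Q R : Subgroup S}

/-- the value at `x` -/
def app (f : SH P Q) (x : P) : Q := (show P →* Q from f) x

/-- composition of homomorphisms -/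
def comp (g : SH Q R) (f : SH P Q) : SH P R := MonoidHom.comp g f

/-- the identity homomorphism -/
def one (P : Subgroup S) : SH P P := MonoidHom.id P

/-- the inclusion homomorphism -/
def incl (h : P ≤ Q) : SH P Q := Subgroup.inclusion h

/-- `f` is `x ↦ g x g⁻¹` -/
def IsConj (f : SH P Q) (g : S) : Prop := ∀ x : P, (f.app x : S) = g * x * g⁻¹

/-- `f` and `g` are mutually inverse -/
def Inverse (f : SH P Q) (g : SH Q P) : Prop := g.comp f = one P ∧ f.comp g = one Q

/-- the image, a subgroup of `S` -/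
def img (f : SH P Q) : Subgroup S := ((show P →* Q from f).range).map Q.subtype

lemma ext {f g : SH P Q} (h : ∀ x : P, (f.app x : S) = g.app x) : f = g :=
  MonoidHom.ext fun x => Subtype.ext (h x)

end SH

/-- A fusion system over `S`: morphisms are injective homomorphisms, containing those induced by
conjugation in `S`, and each is an isomorphism of the system followed by an inclusion. -/
structure FusionSystem (S : Type) [Group S] where
  /-- the morphism sets -/
  Hom : ∀ P Q : Subgroup S, Set (SH P Q)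
  inj : ∀ {P Q : Subgroup S} (f : SH P Q), f ∈ Hom P Q → Function.Injective f.app
  comp : ∀ {P Q R : Subgroup S} (f : SH P Q) (g : SH Q R), f ∈ Hom P Q → g ∈ Hom Q R →
    g.comp f ∈ Hom P R
  conj : ∀ {P Q : Subgroup S} (f : SH P Q) (g : S), f.IsConj g → f ∈ Hom P Q
  fact : ∀ {P Q : Subgroup S} (f : SH P Q), f ∈ Hom P Q →
    ∃ (R : Subgroup S) (h : R ≤ Q) (a : SH P R) (b : SH R P),
      a ∈ Hom P R ∧ b ∈ Hom R P ∧ a.Inverse b ∧ f = (SH.incl h).comp a

/-- the order of the centralizer -/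
def cenOrd (P : Subgroup S) : ℕ := Nat.card (Subgroup.centralizer (P : Set S))

/-- the order of the normalizer -/
def norOrd (P : Subgroup S) : ℕ := Nat.card (Subgroup.normalizer (P : Set S))

/-- the automorphisms of `P` induced by conjugation in `S` -/
def AutS (P : Subgroup S) : Set (SH P P) :=
  {f | ∃ g ∈ Subgroup.normalizer (P : Set S), f.IsConj g}

/-- `g ∈ N_S(P)` and `φ c_g φ⁻¹` is conjugation by an element `h` of `N_S(φ P)` -/
def NphiMem {P Q : Subgroup S} (φ : SH P Q) (g : S) : Prop :=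
  g ∈ Subgroup.normalizer (P : Set S) ∧ ∃ h ∈ Subgroup.normalizer (φ.img : Set S),
    ∀ x y : P, (y : S) = g * x * g⁻¹ → (φ.app y : S) = h * φ.app x * h⁻¹

lemma nphi_one {P Q : Subgroup S} (φ : SH P Q) : NphiMem φ 1 :=
  ⟨one_mem _, 1, one_mem _, fun x y h => by
    have : y = x := Subtype.ext (by rw [h]; group)
    rw [this]; group⟩

lemma nphi_mul {P Q : Subgroup S} (φ : SH P Q) {g g' : S} (hg : NphiMem φ g)
    (hg' : NphiMem φ g') : NphiMem φ (g * g') := by
  obtain ⟨hg, h, hh, hh2⟩ := hg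
  obtain ⟨hg', h', hh', hh2'⟩ := hg'
  refine ⟨mul_mem hg hg', h * h', mul_mem hh hh', fun x y hxy => ?_⟩
  have hz : g' * x * g'⁻¹ ∈ P := (Subgroup.mem_normalizer_iff.1 hg' x).1 x.2
  have e1 := hh2' x ⟨_, hz⟩ rfl
  have e2 := hh2 ⟨_, hz⟩ y (by rw [hxy]; group)
  rw [e2, e1]
  group

lemma nphi_inv {P Q : Subgroup S} (φ : SH P Q) {g : S} (hg : NphiMem φ g) :
    NphiMem φ g⁻¹ := by
  obtain ⟨hg, h, hh, hh2⟩ := hg
  refine ⟨inv_mem hg, h⁻¹, inv_mem hh, fun x y hxy => ?_⟩
  have e1 := hh2 y x (by rw [hxy]; group)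
  rw [e1]
  group

/-- the subgroup `N_φ` -/
def Nphi {P Q : Subgroup S} (φ : SH P Q) : Subgroup S where
  carrier := {g | NphiMem φ g}
  one_mem' := nphi_one φ
  mul_mem' := nphi_mul φ
  inv_mem' := nphi_inv φ

namespace FusionSystem

variable (F : FusionSystem S)

/-- `P` and `P'` are `F`-conjugate, that is, isomorphic in `F` -/
def Conj (P P' : Subgroup S) : Prop :=
  ∃ (a : SH P P') (b : SH P' P), a ∈ F.Hom P P' ∧ b ∈ F.Hom P' P ∧ a.Inverse b

/-- fully centralized subgroups -/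
def FullyCentralized (P : Subgroup S) : Prop := ∀ P', F.Conj P P' → cenOrd P' ≤ cenOrd P

/-- fully normalized subgroups -/
def FullyNormalized (P : Subgroup S) : Prop := ∀ P', F.Conj P P' → norOrd P' ≤ norOrd P

/-- `F`-centric subgroups: every `F`-conjugate contains its centralizer in `S` -/
def IsCentric (P : Subgroup S) : Prop := ∀ P', F.Conj P P' →
  Subgroup.centralizer (P' : Set S) ≤ P'

/-- the automorphisms of `P` in `F` -/
def AutF (P : Subgroup S) : Set (SH P P) := {f | f ∈ F.Hom P P ∧ Function.Bijective f.app}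

/-- `Aut_S(P)` has index prime to `p` in `Aut_F(P)` -/
def SylowAut (p : ℕ) (P : Subgroup S) : Prop := AutS P ⊆ F.AutF P ∧
    ∃ m : ℕ, ¬ p ∣ m ∧ Nat.card (F.AutF P) = m * Nat.card (AutS P)

/-- `φ` extends to `N_φ` in `F` -/
def Extends {P : Subgroup S} (φ : SH P ⊤) : Prop :=
  ∃ ψ : SH (Nphi φ) ⊤, ψ ∈ F.Hom (Nphi φ) ⊤ ∧
    ∀ (x : S) (h : x ∈ P) (h' : x ∈ Nphi φ), ψ.app ⟨x, h'⟩ = φ.app ⟨x, h⟩

/-- Saturated fusion systems. -/
structure Saturated (p : ℕ) : Prop where
  centralized : ∀ P, F.FullyNormalized P → F.FullyCentralized P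
  sylow : ∀ P, F.FullyNormalized P → F.SylowAut p P
  extend : ∀ (P : Subgroup S) (φ : SH P ⊤), φ ∈ F.Hom P ⊤ → F.FullyCentralized φ.img → F.Extends φ

/-- the centric subgroups -/
structure Ob (F : FusionSystem S) where
  /-- the subgroup -/
  P : Subgroup S
  cen : F.IsCentric P

end FusionSystem

section axioms

variable (F : FusionSystem S) [Category.{0} F.Ob] (π : ∀ P Q : F.Ob, (P ⟶ Q) → SH P.P Q.P)
  (δ : ∀ P : F.Ob, P.P → (P ⟶ P))

/-- `π` is a functor to `F`, surjective on morphisms -/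
structure IsProj : Prop where
  id : ∀ P : F.Ob, π P P (𝟙 P) = SH.one P.P
  comp : ∀ (P Q R : F.Ob) (f : P ⟶ Q) (g : Q ⟶ R), π P R (f ≫ g) = (π Q R g).comp (π P Q f)
  mem : ∀ (P Q : F.Ob) (f : P ⟶ Q), π P Q f ∈ F.Hom P.P Q.P
  surj : ∀ (P Q : F.Ob) (φ : SH P.P Q.P), φ ∈ F.Hom P.P Q.P → ∃ f : P ⟶ Q, π P Q f = φ

/-- the maps `δ_P : P → Aut_L(P)` are injective homomorphisms -/
structure IsDist : Prop where
  one : ∀ P : F.Ob, δ P 1 = 𝟙 P
  mul : ∀ (P : F.Ob) (g h : P.P), δ P (g * h) = δ P h ≫ δ P g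
  inj : ∀ P : F.Ob, Function.Injective (δ P)

/-- `Z(P)` acts freely on `Mor(P, Q)` and its orbits are the fibres of the projection -/
structure AxiomA : Prop where
  free : ∀ (P Q : F.Ob) (f : P ⟶ Q), ∀ z ∈ Subgroup.center P.P, δ P z ≫ f = f → z = 1
  orbit : ∀ (P Q : F.Ob) (f f' : P ⟶ Q), π P Q f = π P Q f' ↔
    ∃ z ∈ Subgroup.center P.P, f' = δ P z ≫ f

/-- `δ_P(g)` projects to conjugation by `g` -/
def AxiomB : Prop := ∀ (P : F.Ob) (g : P.P), (π P P (δ P g)).IsConj g

/-- `f ∘ δ_P(g) = δ_Q(π(f)(g)) ∘ f` -/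
def AxiomC : Prop := ∀ (P Q : F.Ob) (f : P ⟶ Q) (g : P.P),
  δ P g ≫ f = f ≫ δ Q ((π P Q f).app g)

end axioms

/-- A centric linking system associated to `F`. -/
structure LinkingSystem {S : Type} [Group S] (F : FusionSystem S) where
  /-- the category on the set of centric subgroups -/
  cat : Category.{0} F.Ob
  /-- the projection to the fusion system -/
  π : ∀ P Q : F.Ob, (P ⟶ Q) → SH P.P Q.P
  /-- the distinguished homomorphisms -/
  δ : ∀ P : F.Ob, P.P → (P ⟶ P)
  proj : IsProj F π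
  dist : IsDist F δ
  axiomA : AxiomA F π δ
  axiomB : AxiomB F π δ
  axiomC : AxiomC F π δ

/-- the nerve of a linking system -/
def LinkingSystem.nerve {S : Type} [Group S] {F : FusionSystem S} (L : LinkingSystem F) :
    SSet.{0} := @CategoryTheory.nerve F.Ob L.cat

/-! ### The fusion system of a finite group `S` over itself -/

/-- the conjugation homomorphism `x ↦ g x g⁻¹` from `P` to `Q` -/
def cjHom (P Q : Subgroup S) (g : S) (h : ∀ x ∈ P, g * x * g⁻¹ ∈ Q) : SH P Q where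
  toFun x := ⟨g * x * g⁻¹, h x x.2⟩
  map_one' := by ext; simp
  map_mul' x y := by
    ext
    change g * (x.1 * y.1) * g⁻¹ = (g * x.1 * g⁻¹) * (g * y.1 * g⁻¹)
    group

/-- the fusion system `F_S(S)` -/
def fus (S : Type) [Group S] : FusionSystem S where
  Hom P Q := {f | ∃ g : S, f.IsConj g}
  inj f hf x y hxy := by
    obtain ⟨g, hg⟩ := hf
    have := hg x
    rw [hxy, hg y] at this
    exact Subtype.ext (mul_left_cancel (mul_right_cancel this)).symm
  comp f g hf hg := by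
    obtain ⟨a, ha⟩ := hf
    obtain ⟨b, hb⟩ := hg
    refine ⟨b * a, fun x => ?_⟩
    change ((g.app (f.app x) : _) : S) = _
    rw [hb, ha]
    group
  conj f g h := ⟨g, h⟩
  fact {P Q} f hf := by
    obtain ⟨g, hg⟩ := hf
    have h1 : ∀ x ∈ P, g * x * g⁻¹ ∈ P.map (MulAut.conj g).toMonoidHom := fun x hx => ⟨x, hx, rfl⟩
    have h2 : ∀ x ∈ P.map (MulAut.conj g).toMonoidHom, g⁻¹ * x * g⁻¹⁻¹ ∈ P := by
      rintro x ⟨y, hy, rfl⟩
      have : g⁻¹ * (MulAut.conj g).toMonoidHom y * g⁻¹⁻¹ = y := by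
        change g⁻¹ * (g * y * g⁻¹) * g⁻¹⁻¹ = y
        group
      rw [this]
      exact hy
    refine ⟨P.map (MulAut.conj g).toMonoidHom, ?_, cjHom _ _ g h1,
      cjHom _ _ g⁻¹ h2, ⟨g, fun x => rfl⟩, ⟨g⁻¹, fun x => rfl⟩, ⟨?_, ?_⟩, ?_⟩
    · rintro x ⟨y, hy, rfl⟩
      have := hg ⟨y, hy⟩
      change g * y * g⁻¹ ∈ Q
      rw [← this]
      exact (f.app ⟨y, hy⟩).2
    · apply SH.ext
      intro x
      change g⁻¹ * (g * x.1 * g⁻¹) * g⁻¹⁻¹ = x.1
      group
    · apply SH.ext
      intro x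
      change g * (g⁻¹ * x.1 * g⁻¹⁻¹) * g⁻¹ = x.1
      group
    · apply SH.ext
      intro x
      exact hg x

end Pool.Agent.H5.PC
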