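import Mathlib
import Pool.Agent.H5.PC.Fusion

set_option autoImplicit false

/-!
Spaces are simplicial sets: mod `p` equivalences, `p`-complete spaces, `p`-completions,
classifying spaces of `p`-local finite groups and of `p`-compact groups.
-/

open CategoryTheory Simplicial Opposite Limits

noncomputable section

namespace Pool.Agent.H5.PC

/-- the field with `p` elements as a module over itself -/
abbrev FF1 (p : ℕ) : ModuleCat.{0} (ZMod p) := ModuleCat.of (ZMod p) (ZMod p)

/-- mod `p` homology equivalences -/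
def FpEquiv (p : ℕ) {A B : SSet.{0}} (f : A ⟶ B) : Prop :=
  ∀ n, IsIso (SSet.homologyMap f (FF1 p) n)

/-- homotopic maps (used for maps to Kan complexes) -/
def Htpic {A B : SSet.{0}} (f g : A ⟶ B) : Prop := Nonempty (SSet.Homotopy f g)

/-- `p`-complete spaces: Kan complexes `Y` such that every mod `p` homology equivalence `A → B`
induces a bijection `[B, Y] → [A, Y]` -/
structure PComplete (p : ℕ) (Y : SSet.{0}) : Prop where
  kan : SSet.KanComplex Y
  surj : ∀ {A B : SSet.{0}} (f : A ⟶ B), FpEquiv p f → ∀ g : A ⟶ Y, ∃ g' : B ⟶ Y,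
    Htpic (f ≫ g') g
  inj : ∀ {A B : SSet.{0}} (f : A ⟶ B), FpEquiv p f → ∀ g g' : B ⟶ Y,
    Htpic (f ≫ g) (f ≫ g') → Htpic g g'

/-- `η` is a `p`-completion of `X` -/
structure IsPCompletion (p : ℕ) {X Y : SSet.{0}} (η : X ⟶ Y) : Prop where
  complete : PComplete p Y
  equiv : FpEquiv p η

/-- `X` is the classifying space of a `p`-local finite group `(S, F, L)` -/
def IsPLocalFinite (p : ℕ) (X : SSet.{0}) : Prop :=
  ∃ (S : Type) (_ : Group S) (_ : Finite S) (F : FusionSystem S) (L : LinkingSystem F),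
    IsPGroup p S ∧ F.Saturated p ∧ ∃ η : L.nerve ⟶ X, IsPCompletion p η

/-- contractible simplicial sets -/
def Contr (E : SSet.{0}) : Prop := ∃ (c : E ⟶ (Δ[0] : SSet.{0})) (v : (Δ[0] : SSet.{0}) ⟶ E),
  Htpic (c ≫ v) (𝟙 E)

/-- finite total mod `p` homology -/
def FpFinite (p : ℕ) (X : SSet.{0}) : Prop :=
  (∀ n, Module.Finite (ZMod p) (SSet.homology X (FF1 p) n : ModuleCat.{0} (ZMod p))) ∧
    ∃ N, ∀ n, N < n → Subsingleton (SSet.homology X (FF1 p) n : ModuleCat.{0} (ZMod p))

open SSet.modelCategoryQuillen in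
/-- `B` is the classifying space of a `p`-compact group `X`: it is connected and `p`-complete, and
there is a Kan fibration `E → B` with contractible `E` whose fibre `X` (the loop space of `B`) has
finite mod `p` homology -/
structure IsPCompact (p : ℕ) (B : SSet.{0}) : Prop where
  complete : PComplete p B
  nonempty : Nonempty (B _⦋0⦌)
  connected : ∀ a b : B _⦋0⦌, ∃ e : B _⦋1⦌, B.δ 1 e = a ∧ B.δ 0 e = b
  loops : ∃ (E X : SSet.{0}) (q : E ⟶ B) (i : X ⟶ E) (c : X ⟶ (Δ[0] : SSet.{0}))
    (b : (Δ[0] : SSet.{0}) ⟶ B), HomotopicalAlgebra.Fibration q ∧ Contr E ∧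
      IsPullback i c q b ∧ FpFinite p X

end Pool.Agent.H5.PC
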