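import Mathlib
import Pool.Agent.H5.PC.Fusion

set_option autoImplicit false

/-!
The fusion system of a finite `p`-group over itself is saturated; its linking system.
-/

open CategoryTheory

noncomputable section

namespace Pool.Agent.H5.PC

variable {S : Type} [Group S]

lemma fus_conj {P P' : Subgroup S} (h : (fus S).Conj P P') :
    ∃ g : S, ∀ x, x ∈ P' ↔ g⁻¹ * x * g ∈ P := by
  obtain ⟨a, b, ⟨g, hg⟩, ⟨g', hg'⟩, h1, h2⟩ := h
  refine ⟨g, fun x => ⟨fun hx => ?_, fun hx => ?_⟩⟩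
  · have e1 : a.app (b.app ⟨x, hx⟩) = ⟨x, hx⟩ := congrArg (fun t : SH P' P' => t.app ⟨x, hx⟩) h2
    have e2 : g * (b.app ⟨x, hx⟩ : S) * g⁻¹ = x := by
      rw [← hg]
      exact congrArg Subtype.val e1
    have e3 : g⁻¹ * x * g = (b.app ⟨x, hx⟩ : S) := by
      generalize (b.app ⟨x, hx⟩ : S) = t at e2
      rw [← e2]; group
    rw [e3]
    exact (b.app ⟨x, hx⟩).2
  · have e1 := hg ⟨_, hx⟩
    have e2 : ((a.app ⟨_, hx⟩ : P') : S) = x := by rw [e1]; group
    rw [← e2]
    exact (a.app ⟨_, hx⟩).2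

lemma fus_fc [Finite S] (P : Subgroup S) : (fus S).FullyCentralized P := by
  intro P' h
  obtain ⟨g, hg⟩ := fus_conj h
  refine Nat.card_le_card_of_injective (fun y => ⟨g⁻¹ * y.1 * g, ?_⟩) ?_
  · rw [Subgroup.mem_centralizer_iff]
    intro x hx
    have h1 : g * x * g⁻¹ ∈ P' := (hg _).2 (by
      have : g⁻¹ * (g * x * g⁻¹) * g = x := by group
      rw [this]; exact hx)
    have h2 := Subgroup.mem_centralizer_iff.1 y.2 _ h1
    have h3 : x * (g⁻¹ * y.1 * g) = g⁻¹ * (g * x * g⁻¹ * y.1) * g := by group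
    rw [h3, h2]
    group
  · intro y y' hyy
    have h1 := congrArg Subtype.val hyy
    exact Subtype.ext (mul_left_cancel (mul_right_cancel h1))

lemma fus_autF (P : Subgroup S) : (fus S).AutF P = AutS P := by
  ext f
  constructor
  · rintro ⟨⟨g, hg⟩, hb⟩
    refine ⟨g, ?_, hg⟩
    rw [Subgroup.mem_normalizer_iff]
    intro x
    constructor
    · intro hx
      have := hg ⟨x, hx⟩
      change g * x * g⁻¹ ∈ P
      rw [← this]
      exact (f.app ⟨x, hx⟩).2
    · intro hx
      obtain ⟨y, hy⟩ := hb.2 ⟨_, hx⟩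
      have h1 := hg y
      rw [hy] at h1
      have h2 : x = y.1 := mul_left_cancel (mul_right_cancel h1)
      rw [h2]
      exact y.2
  · rintro ⟨g, hg, hf⟩
    refine ⟨⟨g, hf⟩, ?_, ?_⟩
    · intro x y hxy
      have h1 := hf x
      rw [hxy, hf y] at h1
      exact Subtype.ext (mul_left_cancel (mul_right_cancel h1)).symm
    · intro y
      have h1 : g⁻¹ * y.1 * g ∈ P := by
        rw [Subgroup.mem_normalizer_iff] at hg
        apply (hg _).2
        have : g * (g⁻¹ * y.1 * g) * g⁻¹ = y.1 := by group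
        rw [this]; exact y.2
      refine ⟨⟨_, h1⟩, Subtype.ext ?_⟩
      rw [hf]
      group

theorem fus_saturated [Finite S] (p : ℕ) (hp : p ≠ 1) : (fus S).Saturated p where
  centralized P _ := fus_fc P
  sylow P _ := by
    unfold FusionSystem.SylowAut
    rw [fus_autF]
    exact ⟨subset_rfl, 1, fun h => hp (Nat.dvd_one.1 h), (one_mul _).symm⟩
  extend P φ hφ _ := by
    obtain ⟨g, hg⟩ := hφ
    refine ⟨cjHom _ _ g (fun _ _ => trivial), ⟨g, fun x => rfl⟩, fun x h h' => ?_⟩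
    exact Subtype.ext (hg ⟨x, h⟩).symm

lemma fus_refl (P : Subgroup S) : (fus S).Conj P P :=
  ⟨SH.one P, SH.one P, ⟨1, fun x => by simp [SH.one, SH.app]⟩, ⟨1, fun x => by simp [SH.one, SH.app]⟩,
    rfl, rfl⟩

/-- the transporter category -/
instance trCat : Category.{0} (fus S).Ob where
  Hom P Q := {g : S // ∀ x ∈ P.P, g * x * g⁻¹ ∈ Q.P}
  id P := ⟨1, fun x hx => by simpa using hx⟩
  comp f g := ⟨g.1 * f.1, fun x hx => by
    have := g.2 _ (f.2 x hx)
    have e : g.1 * f.1 * x * (g.1 * f.1)⁻¹ = g.1 * (f.1 * x * f.1⁻¹) * g.1⁻¹ := by group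
    rw [e]; exact this⟩
  id_comp f := Subtype.ext (mul_one _)
  comp_id f := Subtype.ext (one_mul _)
  assoc f g h := Subtype.ext (mul_assoc _ _ _).symm

/-- the projection -/
def trπ (P Q : (fus S).Ob) (f : P ⟶ Q) : SH P.P Q.P := cjHom P.P Q.P f.1 f.2

/-- the distinguished homomorphisms -/
def trδ (P : (fus S).Ob) (g : P.P) : P ⟶ P :=
  ⟨g, fun _ hx => mul_mem (mul_mem g.2 hx) (inv_mem g.2)⟩

lemma tr_proj : IsProj (fus S) trπ where
  id P := by
    apply SH.ext
    intro x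
    change (1 : S) * x * 1⁻¹ = x
    group
  comp P Q R f g := by
    apply SH.ext
    intro x
    change (g.1 * f.1) * x * (g.1 * f.1)⁻¹ = g.1 * (f.1 * x * f.1⁻¹) * g.1⁻¹
    group
  mem P Q f := ⟨f.1, fun x => rfl⟩
  surj P Q φ hφ := by
    obtain ⟨g, hg⟩ := hφ
    refine ⟨⟨g, fun x hx => ?_⟩, ?_⟩
    · rw [← hg ⟨x, hx⟩]
      exact (φ.app ⟨x, hx⟩).2
    · apply SH.ext
      intro x
      exact (hg x).symm

lemma tr_dist : IsDist (fus S) trδ where
  one P := Subtype.ext rfl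
  mul P g h := Subtype.ext rfl
  inj P g h hgh := Subtype.ext (congrArg (fun t : P ⟶ P => t.1) hgh)

lemma tr_A : AxiomA (fus S) trπ trδ where
  free P Q f z _ h := by
    have : f.1 * z.1 = f.1 := congrArg Subtype.val h
    exact Subtype.ext (mul_left_cancel (this.trans (mul_one _).symm))
  orbit P Q f f' := by
    constructor
    · intro h
      have hc : ∀ x ∈ P.P, f.1 * x * f.1⁻¹ = f'.1 * x * f'.1⁻¹ := fun x hx =>
        congrArg Subtype.val (congrArg (fun t : SH P.P Q.P => t.app (⟨x, hx⟩ : P.P)) h)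
      have hcc : ∀ x ∈ P.P, x * (f.1⁻¹ * f'.1) = f.1⁻¹ * f'.1 * x := by
        intro x hx
        have h3 : x * (f.1⁻¹ * f'.1) = f.1⁻¹ * (f.1 * x * f.1⁻¹) * f'.1 := by group
        rw [h3, hc x hx]
        group
      have hm : f.1⁻¹ * f'.1 ∈ P.P := by
        apply P.cen P.P (fus_refl _)
        rw [Subgroup.mem_centralizer_iff]
        exact hcc
      refine ⟨⟨_, hm⟩, ?_, Subtype.ext ?_⟩
      · rw [Subgroup.mem_center_iff]
        intro x
        exact Subtype.ext (hcc x.1 x.2)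
      · change f'.1 = f.1 * (f.1⁻¹ * f'.1)
        group
    · rintro ⟨z, hz, rfl⟩
      apply SH.ext
      intro x
      change f.1 * x * f.1⁻¹ = (f.1 * z) * x * (f.1 * z)⁻¹
      have h1 : (x.1 : S) * z.1 = z.1 * x.1 :=
        congrArg Subtype.val (Subgroup.mem_center_iff.1 hz x)
      have h2 : (f.1 * z) * x * (f.1 * z)⁻¹ = f.1 * (z * x.1) * z.1⁻¹ * f.1⁻¹ := by group
      rw [h2, ← h1]
      group

/-- the transporter linking system -/
def trLink (S : Type) [Group S] : LinkingSystem (fus S) where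
  cat := trCat
  π := trπ
  δ := trδ
  proj := tr_proj
  dist := tr_dist
  axiomA := tr_A
  axiomB P g x := rfl
  axiomC P Q f g := by
    apply Subtype.ext
    change f.1 * g = (f.1 * g * f.1⁻¹) * f.1
    group

end Pool.Agent.H5.PC
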