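import Mathlib
import Pool.Agent.H5.PC.Cohom

set_option autoImplicit false

/-!
Nerves of finite `p`-groups are local with respect to mod `p` homology isomorphisms.
-/

open CategoryTheory Simplicial Opposite Limits

noncomputable section

namespace Pool.Agent.H5.PC

variable {k : Type} [Field k]

/-- central extensions by the additive group of `k` -/
structure CExt (k P P' : Type) [Field k] [Group P] [Group P'] where
  /-- the inclusion of the kernel -/
  j : k → P
  /-- the quotient map -/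
  q : P →* P'
  add : ∀ a b, j (a + b) = j a * j b
  inj : Function.Injective j
  comm : ∀ a x, j a * x = x * j a
  surj : Function.Surjective q
  qj : ∀ a, q (j a) = 1
  ker : ∀ x, q x = 1 → ∃ a, j a = x

namespace CExt

variable {P P' : Type} [Group P] [Group P'] (E : CExt k P P')

lemma zero : E.j 0 = 1 := by
  have := E.add 0 0
  rw [add_zero] at this
  exact mul_left_cancel (this.symm.trans (mul_one _).symm)

lemma neg (a : k) : E.j (-a) = (E.j a)⁻¹ := by
  apply eq_inv_of_mul_eq_one_left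
  rw [← E.add, neg_add_cancel, E.zero]

lemma jm (a b : k) (x y : P) : (E.j a * x) * (E.j b * y) = E.j (a + b) * (x * y) := by
  rw [E.add, mul_assoc, ← mul_assoc x, ← E.comm b x]
  simp only [mul_assoc]

lemma ji (a : k) (x : P) : (E.j a * x)⁻¹ = E.j (-a) * x⁻¹ := by
  rw [mul_inv_rev, ← E.neg, E.comm]

lemma jc {a b : k} {x : P} (h : E.j a * x = E.j b * x) : a = b :=
  E.inj (mul_right_cancel h)

lemma diff {x y : P} (h : E.q x = E.q y) : ∃ a, x = E.j a * y := by
  obtain ⟨a, ha⟩ := E.ker (x * y⁻¹) (by rw [map_mul, map_inv, h, mul_inv_cancel])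
  exact ⟨a, by rw [ha, inv_mul_cancel_right]⟩

end CExt

variable {A B : SSet.{0}} (f : A ⟶ B)

/-- full faithfulness of restriction of cocycles -/
def FF (P : Type) [Group P] : Prop := ∀ (τ₁ τ₂ : Coc B P) (h : A _⦋0⦌ → P),
  τ₂.pull f = (τ₁.pull f).gauge h →
    (∃ g : B _⦋0⦌ → P, (∀ v, g (f.app _ v) = h v) ∧ τ₂ = τ₁.gauge g) ∧
    (∀ g g' : B _⦋0⦌ → P, (∀ v, g (f.app _ v) = h v) → (∀ v, g' (f.app _ v) = h v) →
      τ₂ = τ₁.gauge g → τ₂ = τ₁.gauge g' → g = g')

/-- essential surjectivity of restriction of cocycles -/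
def ES (P : Type) [Group P] : Prop := ∀ τ : Coc A P, ∃ (τ' : Coc B P) (h : A _⦋0⦌ → P),
  τ'.pull f = τ.gauge h

variable {f}

lemma pull_val {P : Type} [Group P] (τ : Coc B P) (e : A _⦋1⦌) :
    (τ.pull f).val e = τ.val (f.app _ e) := rfl

lemma gauge_val {P : Type} [Group P] (τ : Coc B P) (g : B _⦋0⦌ → P) (e : B _⦋1⦌) :
    (τ.gauge g).val e = g (B.δ 0 e) * τ.val e * (g (B.δ 1 e))⁻¹ := rfl

lemma push_val {P P' : Type} [Group P] [Group P'] (φ : P →* P') (τ : Coc B P) (e : B _⦋1⦌) :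
    (τ.push φ).val e = φ (τ.val e) := rfl

lemma fδ {n : ℕ} (i : Fin (n + 2)) (x : A _⦋n+1⦌) :
    f.app _ (A.δ i x) = B.δ i (f.app _ x) := SSet.δ_naturality_apply f i x

theorem ff_step {P P' : Type} [Group P] [Group P'] (E : CExt k P P') (h0 : HIso k f 0)
    (h1 : HIso k f 1) (ih : FF f P') : FF f P := by
  intro τ₁ τ₂ h hh
  have hval : ∀ e : A _⦋1⦌, τ₂.val (f.app _ e) =
      h (A.δ 0 e) * τ₁.val (f.app _ e) * (h (A.δ 1 e))⁻¹ := fun e => congrArg (fun t => t.val e) hh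
  have hpush : (τ₂.push E.q).pull f = ((τ₁.push E.q).pull f).gauge (fun v => E.q (h v)) := by
    ext e
    rw [pull_val, push_val, hval, gauge_val, pull_val, push_val, map_mul, map_mul, map_inv]
  obtain ⟨⟨g', hg1, hg2⟩, hu⟩ := ih _ _ _ hpush
  have hg2' : ∀ e : B _⦋1⦌, E.q (τ₂.val e) =
      g' (B.δ 0 e) * E.q (τ₁.val e) * (g' (B.δ 1 e))⁻¹ := fun e => congrArg (fun t => t.val e) hg2
  constructor
  · choose l hl using fun v => E.surj (g' v)
    choose w hw using fun e : B _⦋1⦌ => E.diff (x := τ₂.val e)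
      (y := l (B.δ 0 e) * τ₁.val e * (l (B.δ 1 e))⁻¹)
      (by rw [hg2', map_mul, map_mul, map_inv, hl, hl])
    choose z hz using fun v : A _⦋0⦌ => E.diff (x := h v) (y := l (f.app _ v))
      (by rw [hl, hg1])
    have hw1 : ∀ σ : B _⦋2⦌, w (B.δ 1 σ) = w (B.δ 0 σ) + w (B.δ 2 σ) := by
      intro σ
      have e1 := τ₂.tri σ
      rw [hw, hw, hw, E.jm] at e1
      have e2 := (τ₁.gauge l).tri σ
      rw [gauge_val, gauge_val, gauge_val] at e2
      rw [← e2] at e1
      exact E.jc e1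
    obtain ⟨y, hy⟩ := coh1_inj f h1 w hw1 z (fun e => by
      have e1 := hval e
      rw [hw, hz, hz] at e1
      have e2 : E.j (z (A.δ 0 e)) * l (f.app _ (A.δ 0 e)) * τ₁.val (f.app _ e) *
        (E.j (z (A.δ 1 e)) * l (f.app _ (A.δ 1 e)))⁻¹ =
        E.j (z (A.δ 0 e) + -z (A.δ 1 e)) * (l (f.app _ (A.δ 0 e)) * τ₁.val (f.app _ e) *
          (l (f.app _ (A.δ 1 e)))⁻¹) := by
        rw [E.ji, mul_assoc (E.j _), E.jm]
      rw [e2, fδ, fδ, ← sub_eq_add_neg] at e1
      exact E.jc e1)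
    obtain ⟨y0, hy01, hy02⟩ := coh0_surj f h0 (fun v => z v - y (f.app _ v)) (fun e => by
      have e1 := hval e
      rw [hw, hz, hz] at e1
      have e2 : E.j (z (A.δ 0 e)) * l (f.app _ (A.δ 0 e)) * τ₁.val (f.app _ e) *
        (E.j (z (A.δ 1 e)) * l (f.app _ (A.δ 1 e)))⁻¹ =
        E.j (z (A.δ 0 e) + -z (A.δ 1 e)) * (l (f.app _ (A.δ 0 e)) * τ₁.val (f.app _ e) *
          (l (f.app _ (A.δ 1 e)))⁻¹) := by
        rw [E.ji, mul_assoc (E.j _), E.jm]
      rw [e2, fδ, fδ, ← sub_eq_add_neg] at e1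
      have e3 := E.jc e1
      rw [hy] at e3
      rw [fδ, fδ]
      linear_combination -e3)
    refine ⟨fun v => E.j (y v + y0 v) * l v, fun v => ?_, ?_⟩
    · beta_reduce
      rw [hy02, hz]
      congr 2
      ring
    · ext e
      rw [gauge_val, hw, E.ji, mul_assoc (E.j _), E.jm, hy, hy01]
      congr 2
      ring
  · intro g1 g2 a1 a2 b1 b2
    have c1 : (fun v => E.q (g1 v)) = fun v => E.q (g2 v) := by
      refine hu _ _ (fun v => by rw [a1]) (fun v => by rw [a2]) ?_ ?_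
      · ext e
        rw [push_val, b1, gauge_val, gauge_val, push_val, map_mul, map_mul, map_inv]
      · ext e
        rw [push_val, b2, gauge_val, gauge_val, push_val, map_mul, map_mul, map_inv]
    choose z hz using fun v => E.diff (x := g1 v) (y := g2 v) (congrFun c1 v)
    have hz0 : ∀ v, z v = 0 := by
      refine coh0_inj f h0 z (fun e => ?_) (fun v => ?_)
      · have e1 := congrArg (fun t => t.val e) (b1.symm.trans b2)
        change g1 _ * _ * (g1 _)⁻¹ = g2 _ * _ * (g2 _)⁻¹ at e1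
        rw [hz, hz, E.ji, mul_assoc (E.j _), E.jm] at e1
        have e2 : E.j (z (B.δ 0 e) + -z (B.δ 1 e)) * (g2 (B.δ 0 e) * τ₁.val e * (g2 (B.δ 1 e))⁻¹) =
          E.j 0 * (g2 (B.δ 0 e) * τ₁.val e * (g2 (B.δ 1 e))⁻¹) := by
          rw [e1, E.zero, one_mul]
        have e3 := E.jc e2
        linear_combination e3
      · have e1 := hz (f.app _ v)
        rw [a1, a2] at e1
        have e2 : E.j 0 * h v = E.j (z (f.app _ v)) * h v := by rw [← e1, E.zero, one_mul]
        exact (E.jc e2).symm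
    funext v
    rw [hz, hz0, E.zero, one_mul]

/-- the defect identity -/
lemma CExt.assoc_defect {P P' : Type} [Group P] [Group P'] (E : CExt k P P')
    {s01 s02 s03 s12 s13 s23 : P} {c012 c013 c023 c123 : k}
    (h1 : s12 * s01 = E.j c012 * s02) (h2 : s13 * s01 = E.j c013 * s03)
    (h3 : s23 * s02 = E.j c023 * s03) (h4 : s23 * s12 = E.j c123 * s13) :
    c123 + c013 = c012 + c023 := by
  have e1 : s23 * s12 * s01 = E.j (c123 + c013) * s03 := by
    rw [h4, mul_assoc, h2, E.add, mul_assoc]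
  have e2 : s23 * s12 * s01 = E.j (c012 + c023) * s03 := by
    rw [mul_assoc, h1, ← mul_assoc, ← E.comm, mul_assoc, h3, E.add, mul_assoc]
  exact E.jc (e1.symm.trans e2)

lemma δδ3 (τ : B _⦋3⦌) :
    (B.δ 0 (B.δ 1 τ) = B.δ 0 (B.δ 0 τ)) ∧ (B.δ 0 (B.δ 2 τ) = B.δ 1 (B.δ 0 τ)) ∧
    (B.δ 0 (B.δ 3 τ) = B.δ 2 (B.δ 0 τ)) ∧ (B.δ 1 (B.δ 2 τ) = B.δ 1 (B.δ 1 τ)) ∧
    (B.δ 2 (B.δ 1 τ) = B.δ 1 (B.δ 3 τ)) ∧ (B.δ 2 (B.δ 2 τ) = B.δ 2 (B.δ 3 τ)) := by
  have key : ∀ (i i' : Fin 3) (j j' : Fin 4),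
      (SimplexCategory.δ i : ⦋1⦌ ⟶ ⦋2⦌) ≫ (SimplexCategory.δ j : ⦋2⦌ ⟶ ⦋3⦌) =
      (SimplexCategory.δ i' : ⦋1⦌ ⟶ ⦋2⦌) ≫ (SimplexCategory.δ j' : ⦋2⦌ ⟶ ⦋3⦌) →
      B.δ i (B.δ j τ) = B.δ i' (B.δ j' τ) := by
    intro i i' j j' h
    have := congrArg (fun t => B.map t.op τ) h
    simp only [op_comp, B.map_comp] at this
    exact this
  refine ⟨key _ _ _ _ ?_, key _ _ _ _ ?_, key _ _ _ _ ?_, key _ _ _ _ ?_, key _ _ _ _ ?_,
    key _ _ _ _ ?_⟩ <;> decide

theorem es_step {P P' : Type} [Group P] [Group P'] (E : CExt k P P') 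
    (h1 : HIso k f 1) (h2 : HIso k f 2) (ih : ES f P') : ES f P := by
  intro τ
  obtain ⟨σ', h', hσ⟩ := ih (τ.push E.q)
  choose h hh using fun v => E.surj (h' v)
  let τ' : Coc A P := τ.gauge h
  have hτ' : ∀ e : A _⦋1⦌, E.q (τ'.val e) = σ'.val (f.app _ e) := by
    intro e
    have e1 := congrArg (fun t => t.val e) hσ
    change σ'.val (f.app _ e) = h' _ * E.q (τ.val e) * (h' _)⁻¹ at e1
    rw [e1, gauge_val, map_mul, map_mul, map_inv, hh, hh]
  choose s hs using fun e : B _⦋1⦌ => E.surj (σ'.val e)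
  choose c hc using fun σ : B _⦋2⦌ => E.diff (x := s (B.δ 0 σ) * s (B.δ 2 σ)) (y := s (B.δ 1 σ))
    (by rw [map_mul, hs, hs, hs, σ'.tri])
  choose a ha using fun e : A _⦋1⦌ => E.diff (x := s (f.app _ e)) (y := τ'.val e)
    (by rw [hs, hτ'])
  obtain ⟨y, hy⟩ := coh2_inj f h2 c (fun t => by
      obtain ⟨d1, d2, d3, d4, d5, d6⟩ := δδ3 t
      have e1 := hc (B.δ 0 t)
      have e2 := hc (B.δ 1 t)
      have e3 := hc (B.δ 2 t)
      have e4 := hc (B.δ 3 t)
      rw [d1, d5] at e2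
      rw [d2, d4, d6] at e3
      rw [d3] at e4
      have := E.assoc_defect e4 e3 e2 e1
      linear_combination this) a (fun σ => by
      have e1 := hc (f.app _ σ)
      rw [← fδ, ← fδ, ← fδ, ha, ha, ha, E.jm, ← τ'.tri, ← mul_assoc, ← E.add] at e1
      have e2 := E.jc e1
      linear_combination -e2)
  obtain ⟨b, hb1, y1, hy1⟩ := coh1_surj f h1 (fun e => a e - y (f.app _ e)) (fun σ => by
    have e1 := hc (f.app _ σ)
    rw [← fδ, ← fδ, ← fδ, ha, ha, ha, E.jm, ← τ'.tri, ← mul_assoc, ← E.add] at e1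
    have e2 := E.jc e1
    have e3 := hy (f.app _ σ)
    rw [← fδ, ← fδ, ← fδ] at e3
    linear_combination -e3 - e2)
  refine ⟨⟨fun e => E.j (-b e - y e) * s e, fun σ => ?_⟩, fun v => E.j (-y1 v) * h v, ?_⟩
  · rw [E.jm, hc, ← mul_assoc, ← E.add, hb1, hy]
    congr 2
    ring
  · ext e
    rw [pull_val, gauge_val]
    change E.j (-b (f.app _ e) - y (f.app _ e)) * s (f.app _ e) = _
    rw [ha, hy1, E.ji, ← mul_assoc, ← E.add, mul_assoc (E.j _), E.jm]
    change _ * (h _ * τ.val e * (h _)⁻¹) = _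
    congr 2
    ring

lemma ff_trivial {P : Type} [Group P] [Subsingleton P] : FF f P := by
  intro τ₁ τ₂ h hh
  refine ⟨⟨fun _ => 1, fun v => Subsingleton.elim _ _, ?_⟩, fun g g' _ _ _ _ => ?_⟩
  · ext e
    exact Subsingleton.elim _ _
  · funext v
    exact Subsingleton.elim _ _

lemma es_trivial {P : Type} [Group P] [Subsingleton P] : ES f P := by
  intro τ
  refine ⟨⟨fun _ => 1, fun σ => by simp⟩, fun _ => 1, ?_⟩
  ext e
  exact Subsingleton.elim _ _

/-- a nontrivial finite `p`-group is a central extension by the group of order `p` -/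
lemma exists_cext (p : ℕ) [Fact p.Prime] (P : Type) [Group P] [Finite P] (hP : IsPGroup p P)
    [Nontrivial P] : ∃ (Z : Subgroup P) (_ : Z.Normal), Nonempty (CExt (ZMod p) P (P ⧸ Z)) ∧
      Nontrivial Z := by
  have hnt : Nontrivial (Subgroup.center P) := hP.center_nontrivial
  have hc : IsPGroup p (Subgroup.center P) := hP.to_subgroup _
  obtain ⟨n, hn⟩ := IsPGroup.iff_card.1 hc
  have hdvd : p ∣ Nat.card (Subgroup.center P) := by
    cases n with
    | zero =>
      rw [pow_zero] at hn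
      have := Finite.one_lt_card (α := Subgroup.center P)
      omega
    | succ n => rw [hn, pow_succ]; exact Dvd.intro_left _ rfl
  obtain ⟨z, hz⟩ := exists_prime_orderOf_dvd_card' p hdvd
  have hz' : orderOf (z : P) = p := by rw [Subgroup.orderOf_coe, hz]
  let Z : Subgroup P := Subgroup.zpowers (z : P)
  have hZc : Z ≤ Subgroup.center P := by
    rw [Subgroup.zpowers_le]
    exact z.2
  have hZn : Z.Normal := by
    constructor
    intro n hn g
    have := Subgroup.mem_center_iff.1 (hZc hn) g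
    rw [this, mul_inv_cancel_right]
    exact hn
  have hone : (z : P) ^ (p : ℤ) = 1 := by
    rw [zpow_natCast, ← hz', pow_orderOf_eq_one]
  let j : ZMod p → P := fun a => (z : P) ^ (ZMod.cast a : ℤ)
  have hj : ∀ n : ℤ, j (n : ZMod p) = (z : P) ^ n := by
    intro n
    change (z : P) ^ (ZMod.cast (n : ZMod p) : ℤ) = _
    rw [ZMod.coe_intCast, ← Int.emod_add_mul_ediv n p, zpow_add, zpow_mul, hone]
    simp
  have hadd : ∀ a b, j (a + b) = j a * j b := by
    intro a b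
    obtain ⟨a, rfl⟩ := ZMod.intCast_surjective a
    obtain ⟨b, rfl⟩ := ZMod.intCast_surjective b
    rw [← Int.cast_add, hj, hj, hj, zpow_add]
  have hinj : Function.Injective j := by
    intro a b hab
    obtain ⟨a, rfl⟩ := ZMod.intCast_surjective a
    obtain ⟨b, rfl⟩ := ZMod.intCast_surjective b
    rw [hj, hj, zpow_eq_zpow_iff_modEq, hz'] at hab
    exact (ZMod.intCast_eq_intCast_iff _ _ _).2 hab
  have hcomm : ∀ a x, j a * x = x * j a := by
    intro a x
    have : j a ∈ Subgroup.center P := hZc (Subgroup.zpow_mem_zpowers _ _)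
    exact (Subgroup.mem_center_iff.1 this x).symm
  have hqj : ∀ a, QuotientGroup.mk' Z (j a) = 1 := by
    intro a
    exact (QuotientGroup.eq_one_iff _).2 (Subgroup.zpow_mem_zpowers _ _)
  have hker : ∀ x, QuotientGroup.mk' Z x = 1 → ∃ a, j a = x := by
    intro x hx
    obtain ⟨n, rfl⟩ := Subgroup.mem_zpowers_iff.1 ((QuotientGroup.eq_one_iff _).1 hx)
    exact ⟨(n : ZMod p), hj n⟩
  refine ⟨Z, hZn, ⟨CExt.mk j (QuotientGroup.mk' Z) hadd hinj hcomm
    (QuotientGroup.mk'_surjective Z) hqj hker⟩, ?_⟩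
  refine ⟨⟨⟨z, Subgroup.mem_zpowers _⟩, 1, fun h => ?_⟩⟩
  have h2 : (z : P) = 1 := congrArg Subtype.val h
  rw [h2, orderOf_one] at hz'
  exact (Fact.out : p.Prime).one_lt.ne hz'

theorem ff_es (p : ℕ) [Fact p.Prime] (h0 : HIso (ZMod p) f 0) (h1 : HIso (ZMod p) f 1)
    (h2 : HIso (ZMod p) f 2) (n : ℕ) : ∀ (P : Type) [Group P] [Finite P], IsPGroup p P →
    Nat.card P ≤ n → FF f P ∧ ES f P := by
  induction n with
  | zero =>
    intro P _ _ _ h
    have := Nat.card_pos (α := P)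
    omega
  | succ n ih =>
    intro P _ _ hP h
    rcases subsingleton_or_nontrivial P with hs | hs
    · exact ⟨ff_trivial, es_trivial⟩
    · obtain ⟨Z, hZ, ⟨E⟩, hnt⟩ := exists_cext p P hP
      have hcard : Nat.card (P ⧸ Z) ≤ n := by
        have e1 := Z.card_eq_card_quotient_mul_card_subgroup
        have e2 := Finite.one_lt_card (α := Z)
        have e3 := Nat.card_pos (α := P ⧸ Z)
        nlinarith
      obtain ⟨i1, i2⟩ := ih (P ⧸ Z) (hP.to_quotient Z) hcard
      exact ⟨ff_step E h0 h1 i1, es_step E h1 h2 i2⟩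

end Pool.Agent.H5.PC
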