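import Mathlib
import Pool.Agent.H5.PC.Local

set_option autoImplicit false

/-!
Nerves of groups are Kan complexes.
-/

open CategoryTheory Simplicial Opposite Limits

noncomputable section

namespace Pool.Agent.H5.PC

open SimplexCategory

/-- edges of the standard simplex -/
def ed {n : ℕ} (u v : Fin (n + 1)) (h : u ≤ v) : (Δ[n] : SSet.{0}) _⦋1⦌ :=
  SSet.stdSimplex.objEquiv.symm (mkOfLe u v h)

/-- triangles of the standard simplex -/
def tr {n : ℕ} (u v w : Fin (n + 1)) (h : u ≤ v) (h' : v ≤ w) : (Δ[n] : SSet.{0}) _⦋2⦌ :=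
  SSet.stdSimplex.objEquiv.symm (mkOfLeComp u v w h h')

lemma δ_tr {n : ℕ} (u v w : Fin (n + 1)) (h : u ≤ v) (h' : v ≤ w) :
    (Δ[n] : SSet.{0}).δ 1 (tr u v w h h') = ed u w (h.trans h') ∧
    (Δ[n] : SSet.{0}).δ 0 (tr u v w h h') = ed v w h' ∧
    (Δ[n] : SSet.{0}).δ 2 (tr u v w h h') = ed u v h := by
  obtain ⟨h1, h2, h3⟩ := δ_leComp u v w h h'
  refine ⟨?_, ?_, ?_⟩
  · exact congrArg SSet.stdSimplex.objEquiv.symm h1
  · exact congrArg SSet.stdSimplex.objEquiv.symm h2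
  · exact congrArg SSet.stdSimplex.objEquiv.symm h3

lemma ed_mem {n : ℕ} (i j u v : Fin (n + 1)) (h : u ≤ v) (hj : j ≠ i) (hu : j ≠ u) (hv : j ≠ v) :
    ed u v h ∈ (SSet.horn.{0} n i).obj (op ⦋1⦌) := by
  rw [SSet.mem_horn_iff_notMem_range]
  refine ⟨j, hj, ?_⟩
  rintro ⟨x, hx⟩
  revert hx
  fin_cases x
  · exact fun h => hu h.symm
  · exact fun h => hv h.symm

lemma tr_mem {n : ℕ} (i j u v w : Fin (n + 1)) (h : u ≤ v) (h' : v ≤ w) (hj : j ≠ i) (hu : j ≠ u)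
    (hv : j ≠ v) (hw : j ≠ w) : tr u v w h h' ∈ (SSet.horn.{0} n i).obj (op ⦋2⦌) := by
  rw [SSet.mem_horn_iff_notMem_range]
  refine ⟨j, hj, ?_⟩
  rintro ⟨x, hx⟩
  revert hx
  fin_cases x
  · exact fun h => hu h.symm
  · exact fun h => hv h.symm
  · exact fun h => hw h.symm

lemma ed_eta {n : ℕ} (e : (Δ[n] : SSet.{0}) _⦋1⦌) (h : e 0 ≤ e 1) : e = ed (e 0) (e 1) h := by
  apply SSet.stdSimplex.objEquiv.injective
  apply SimplexCategory.Hom.ext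
  apply OrderHom.ext
  funext x
  revert x
  intro x
  fin_cases x <;> rfl

lemma e_mono {n : ℕ} (e : (Δ[n] : SSet.{0}) _⦋1⦌) : e 0 ≤ e 1 :=
  (SSet.stdSimplex.objEquiv e).toOrderHom.monotone (by decide : (0 : Fin 2) ≤ 1)

section horn

variable {P : Type} [Group P] {n : ℕ} {i : Fin (n + 1)}
  (τ : Coc (SSet.horn.{0} n i : SSet.{0}) P)

open Classical in
/-- the values on edges -/
def hv (u v : Fin (n + 1)) : P :=
  if h : ∃ h : u ≤ v, ed u v h ∈ (SSet.horn.{0} n i).obj (op ⦋1⦌) then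
    τ.val ⟨ed u v h.choose, h.choose_spec⟩ else 1

lemma hv_eq (u v : Fin (n + 1)) (h : u ≤ v) (hm : ed u v h ∈ (SSet.horn.{0} n i).obj (op ⦋1⦌)) :
    hv τ u v = τ.val ⟨ed u v h, hm⟩ := by
  unfold hv
  rw [dif_pos ⟨h, hm⟩]

lemma hv_tri (j u v w : Fin (n + 1)) (h : u ≤ v) (h' : v ≤ w) (hj : j ≠ i) (hu : j ≠ u)
    (hv' : j ≠ v) (hw : j ≠ w) : hv τ u w = hv τ v w * hv τ u v := by
  rw [hv_eq τ u w (h.trans h') (ed_mem i j u w _ hj hu hw),
    hv_eq τ v w h' (ed_mem i j v w _ hj hv' hw), hv_eq τ u v h (ed_mem i j u v _ hj hu hv')]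
  have h1 := τ.tri ⟨tr u v w h h', tr_mem i j u v w h h' hj hu hv' hw⟩
  obtain ⟨e1, e2, e3⟩ := δ_tr u v w h h'
  refine Eq.trans ?_ (h1.trans ?_)
  · congr 1
    exact Subtype.ext e1.symm
  · congr 2
    · exact Subtype.ext e2
    · exact Subtype.ext e3

/-- the potential -/
def pot (v : Fin (n + 1)) : P := if i ≤ v then hv τ i v else (hv τ v i)⁻¹

lemma pot_spec (j u v : Fin (n + 1)) (h : u ≤ v) (hj : j ≠ i) (hu : j ≠ u)
    (hv' : j ≠ v) : hv τ u v = pot τ v * (pot τ u)⁻¹ := by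
  unfold pot
  by_cases h1 : i ≤ u
  · rw [if_pos h1, if_pos (h1.trans h), hv_tri τ j i u v h1 h hj hj hu hv', mul_inv_cancel_right]
  · rw [if_neg h1, inv_inv]
    by_cases h2 : i ≤ v
    · rw [if_pos h2]
      exact hv_tri τ j u i v (le_of_not_ge h1) h2 hj hu hj hv'
    · rw [if_neg h2, hv_tri τ j u v i h (le_of_not_ge h2) hj hu hv' hj, inv_mul_cancel_left]

lemma pot_val (e : (SSet.horn.{0} n i : SSet.{0}) _⦋1⦌) :
    τ.val e = pot τ (e.1 1) * (pot τ (e.1 0))⁻¹ := by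
  obtain ⟨e, he⟩ := e
  have he' := he
  rw [SSet.mem_horn_iff_notMem_range] at he'
  obtain ⟨j, hj, hj2⟩ := he'
  have h0 : j ≠ e 0 := fun h => hj2 ⟨0, h.symm⟩
  have h1 : j ≠ e 1 := fun h => hj2 ⟨1, h.symm⟩
  rw [← pot_spec τ j (e 0) (e 1) (e_mono e) hj h0 h1]
  have e2 := ed_eta e (e_mono e)
  rw [hv_eq τ (e 0) (e 1) (e_mono e) (by rw [← e2]; exact he)]
  congr 1
  exact Subtype.ext e2

end horn

/-- the trivial cocycle -/
def Coc.triv (A : SSet.{0}) (P : Type) [Group P] : Coc A P := ⟨fun _ => 1, fun _ => by simp⟩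

/-- extending over the simplex -/
lemma horn_ext {P : Type} [Group P] {n : ℕ} {i : Fin (n + 1)}
    (f : (SSet.horn.{0} n i : SSet.{0}) ⟶ BG P) :
    ∃ g : (Δ[n] : SSet.{0}) ⟶ BG P, (SSet.horn.{0} n i).ι ≫ g = f := by
  let T : (Δ[n] : SSet.{0}) _⦋0⦌ → P := fun x => pot (ofMap f) (x 0)
  refine ⟨((Coc.triv _ P).gauge T).toMap, ?_⟩
  rw [← toMap_pull, ← toMap_ofMap f]
  congr 1
  apply Coc.ext
  funext e
  rw [pot_val (ofMap f)]
  change pot (ofMap f) (e.1 1) * 1 * (pot (ofMap f) (e.1 0))⁻¹ = _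
  rw [mul_one]

open SSet.modelCategoryQuillen in
theorem kan_BG (P : Type) [Group P] : SSet.KanComplex (BG P) := by
  refine (HomotopicalAlgebra.isFibrant_iff _).2 ⟨?_⟩
  rw [fibrations_eq]
  intro _ _ _ hf
  simp only [J, MorphismProperty.iSup_iff] at hf
  obtain ⟨n, ⟨i⟩⟩ := hf
  refine ⟨fun {t _} _ ↦ ?_⟩
  obtain ⟨φ, hφ⟩ := horn_ext t
  exact ⟨⟨{
    l := φ
    fac_left := hφ
    fac_right := by subsingleton }⟩⟩

end Pool.Agent.H5.PC
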