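import Mathlib
import Pool.Agent.H5.PC.Defs
import Pool.Agent.H5.PC.Fusion2
import Pool.Agent.H5.PC.Kan

set_option autoImplicit false

/-!
Nerves of finite `p`-groups are `p`-complete and classifying spaces of `p`-local finite groups.
-/

open CategoryTheory Simplicial Opposite Limits

noncomputable section

namespace Pool.Agent.H5.PC

variable (p : ℕ) [Fact p.Prime]

lemma fpEquiv_iff {A B : SSet.{0}} (f : A ⟶ B) : FpEquiv p f ↔ ∀ n, HIso (ZMod p) f n :=
  forall_congr' fun n => isIso_iff_hIso (k := ZMod p) f n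

theorem pComplete_BG (P : Type) [Group P] [Finite P] (hP : IsPGroup p P) : PComplete p (BG P) where
  kan := kan_BG P
  surj {A B} f hf g := by
    rw [fpEquiv_iff] at hf
    obtain ⟨τ', h, hh⟩ := (ff_es (f := f) p (hf 0) (hf 1) (hf 2) _ P hP le_rfl).2 (ofMap g)
    refine ⟨τ'.toMap, (htpy_iff _ _).2 ⟨fun v => (h v)⁻¹, ?_⟩⟩
    rw [ofMap_comp, ofMap_toMap, hh]
    ext e
    rw [gauge_val, gauge_val]
    group
  inj {A B} f hf g g' hgg := by
    rw [fpEquiv_iff] at hf
    obtain ⟨T, hT⟩ := (htpy_iff _ _).1 hgg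
    rw [ofMap_comp, ofMap_comp] at hT
    obtain ⟨⟨h, -, hh⟩, -⟩ := (ff_es (f := f) p (hf 0) (hf 1) (hf 2) _ P hP le_rfl).1 _ _ T hT
    exact (htpy_iff _ _).2 ⟨h, hh⟩

/-- the functor from the linking system to the group -/
def lkR (S : Type) [Group S] : (fus S).Ob ⥤ SingleObj S where
  obj _ := SingleObj.star S
  map f := f.1
  map_id _ := rfl
  map_comp _ _ := rfl

/-- the top object -/
def lkTop (S : Type) [Group S] : (fus S).Ob where
  P := ⊤
  cen P' h := by
    obtain ⟨g, hg⟩ := fus_conj h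
    intro x _
    exact (hg x).2 trivial

/-- the functor from the group to the linking system -/
def lkI (S : Type) [Group S] : SingleObj S ⥤ (fus S).Ob where
  obj _ := lkTop S
  map g := ⟨g, fun _ _ => trivial⟩
  map_id _ := rfl
  map_comp _ _ := rfl

/-- the unit -/
def lkη (S : Type) [Group S] : 𝟭 ((fus S).Ob) ⟶ lkR S ⋙ lkI S where
  app P := ⟨1, fun _ _ => trivial⟩
  naturality P Q f := by
    apply Subtype.ext
    change 1 * f.1 = f.1 * 1
    group

lemma lk_equiv (P : Type) [Group P] : FpEquiv p (nerveMap (lkR P)) :=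
  (fpEquiv_iff p _).2 fun n =>
    hIso_nerve (lkR P) (lkI P) (Or.inl ⟨lkη P⟩) (Or.inl ⟨𝟙 _⟩) n

theorem isPLocalFinite_BG (P : Type) [Group P] [Finite P] (hP : IsPGroup p P) :
    IsPLocalFinite p (BG P) :=
  ⟨P, inferInstance, inferInstance, fus P, trLink P, hP,
    fus_saturated p (Fact.out : p.Prime).one_lt.ne', nerveMap (lkR P), pComplete_BG p P hP,
    lk_equiv p P⟩

end Pool.Agent.H5.PC
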