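import Mathlib
import Pool.Agent.H5.PC.Complete

set_option autoImplicit false

/-!
Nerves of finite `p`-groups are classifying spaces of `p`-compact groups.
-/

open CategoryTheory Simplicial Opposite Limits MonoidalCategory

noncomputable section

namespace Pool.Agent.H5.PC

variable (P : Type) [Group P]

/-- the total space -/
def EG : SSet.{0} where
  obj n := Fin (n.unop.len + 1) → P
  map θ := ↾fun x v => x (θ.unop.toOrderHom v)
  map_id n := by ext x; rfl
  map_comp f g := by ext x; rfl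

/-- the simplex with given potential -/
def potF {n : ℕ} (T : Fin (n + 1) → P) : Fin (n + 1) ⥤ SingleObj P where
  obj _ := SingleObj.star P
  map {u v} _ := T v * (T u)⁻¹
  map_id u := mul_inv_cancel _
  map_comp {u v w} _ _ := by
    change T w * (T u)⁻¹ = (T w * (T v)⁻¹) * (T v * (T u)⁻¹)
    group

/-- the projection -/
def EGq : EG P ⟶ BG P where
  app n := ↾fun x => (show (BG P).obj n from potF P (n := n.unop.len) x)
  naturality n m θ := by
    ext x
    rfl

/-- the fibre -/
def EGX : SSet.{0} where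
  obj _ := P
  map _ := 𝟙 _

/-- the inclusion of the fibre -/
def EGi : EGX P ⟶ EG P where
  app n := ↾fun x _ => x

/-- the base point -/
def EGb : (Δ[0] : SSet.{0}) ⟶ BG P where
  app n := ↾fun _ => (show (BG P).obj n from potF P (n := n.unop.len) fun _ => 1)
  naturality n m θ := by
    ext x
    rfl

/-- the map to the point -/
def toPt (X : SSet.{0}) : X ⟶ (Δ[0] : SSet.{0}) where
  app n := ↾fun _ => SSet.stdSimplex.objEquiv.symm (SimplexCategory.const _ _ 0)
  naturality n m θ := by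
    ext x
    rfl

lemma toPt_uniq {X : SSet.{0}} (f g : X ⟶ (Δ[0] : SSet.{0})) : f = g := by
  ext

/-- the contraction -/
theorem EGc : Contr (EG P) := by
  refine ⟨toPt _, ⟨fun n => ↾fun _ _ => 1, fun _ _ _ => rfl⟩, ⟨?_⟩⟩
  exact
    { h :=
        { app := fun n => ↾fun x v =>
            if (SSet.stdSimplex.asOrderHom (show (Δ[1] : SSet.{0}).obj n from x.2) v : Fin 2) = 0
              then 1 else (show Fin (n.unop.len + 1) → P from x.1) v
          naturality := fun _ _ _ => rfl }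
      h₀ := by
        ext n x
        rfl
      h₁ := by
        ext n x
        rfl
      rel := by
        ext n x
        exact x.1.2.elim }

lemma EG_triv {W : SSet.{0}} (a : W ⟶ EG P) (c : W ⟶ (Δ[0] : SSet.{0}))
    (h : a ≫ EGq P = c ≫ EGb P) {n : SimplexCategoryᵒᵖ} (w : W.obj n) (u v : Fin (n.unop.len + 1)) :
    (show Fin (n.unop.len + 1) → P from a.app n w) u =
      (show Fin (n.unop.len + 1) → P from a.app n w) v := by
  have key : ∀ u v : Fin (n.unop.len + 1), u ≤ v →
      (show Fin (n.unop.len + 1) → P from a.app n w) u =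
      (show Fin (n.unop.len + 1) → P from a.app n w) v := by
    intro u v huv
    have h1 := congrArg (fun t => ev (n := n.unop.len) (toF (n := n.unop.len)
      (t.app n w)) u v huv) h
    change (show Fin (n.unop.len + 1) → P from a.app n w) v *
      ((show Fin (n.unop.len + 1) → P from a.app n w) u)⁻¹ = (1 : P) * (1 : P)⁻¹ at h1
    rw [inv_one, mul_one, mul_inv_eq_one] at h1
    exact h1.symm
  rcases le_total u v with h | h
  · exact key u v h
  · exact (key v u h).symm

theorem EG_pb : IsPullback (EGi P) (toPt (EGX P)) (EGq P) (EGb P) := by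
  have hc : EGi P ≫ EGq P = toPt (EGX P) ≫ EGb P := by
    ext n x
    refine sobj_ext (n := n.unop.len) _ _ fun i j h => ?_
    change (show P from x) * (show P from x)⁻¹ = (1 : P) * (1 : P)⁻¹
    rw [mul_inv_cancel, mul_inv_cancel]
  refine ⟨⟨hc⟩, ⟨PullbackCone.IsLimit.mk hc (fun s =>
    { app := fun n => ↾fun w => (show Fin (n.unop.len + 1) → P from s.fst.app n w) 0
      naturality := fun n m θ => ?_ }) (fun s => ?_) (fun s => toPt_uniq _ _)
      (fun s m h1 h2 => ?_)⟩⟩
  · ext w
    have h1 := ConcreteCategory.congr_hom (s.fst.naturality θ) w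
    have h2 := congrFun h1 (0 : Fin (m.unop.len + 1))
    refine Eq.trans h2 ?_
    exact EG_triv P s.fst s.snd s.condition w _ _
  · ext n w
    funext v
    exact EG_triv P s.fst s.snd s.condition w _ _
  · ext n w
    have h3 := congrArg (fun t => (show Fin (n.unop.len + 1) → P from t.app n w) 0) h1
    exact h3

/-- evaluation of simplices of the total space -/
def evE {P : Type} [Group P] {m : ℕ} (y : (EG P) _⦋m⦌) (w : Fin (m + 1)) : P := y w

/-- vertices of the standard simplex -/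
def pt {n : ℕ} (v : Fin (n + 1)) : (Δ[n] : SSet.{0}) _⦋0⦌ :=
  SSet.stdSimplex.objEquiv.symm (SimplexCategory.const _ _ v)

lemma pt_mem {n : ℕ} (i j v : Fin (n + 1)) (hj : j ≠ i) (hv : j ≠ v) :
    pt v ∈ (SSet.horn.{0} n i).obj (op ⦋0⦌) := by
  rw [SSet.mem_horn_iff_notMem_range]
  refine ⟨j, hj, ?_⟩
  rintro ⟨x, hx⟩
  exact hv hx.symm

open Classical in
/-- the value of a lifting problem at a vertex -/
def tv {P : Type} [Group P] {n : ℕ} {i : Fin (n + 1)}
    (t : (SSet.horn.{0} n i : SSet.{0}) ⟶ EG P) (v : Fin (n + 1)) : P :=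
  if h : pt v ∈ (SSet.horn.{0} n i).obj (op ⦋0⦌) then evE (t.app (op ⦋0⦌) ⟨pt v, h⟩) 0 else 1

lemma tv_spec {P : Type} [Group P] {n : ℕ} {i : Fin (n + 1)}
    (t : (SSet.horn.{0} n i : SSet.{0}) ⟶ EG P) {m : ℕ}
    (x : (SSet.horn.{0} n i : SSet.{0}) _⦋m⦌) (w : Fin (m + 1)) :
    evE (t.app (op ⦋m⦌) x) w = tv t (x.1 w) := by
  have h1 := ConcreteCategory.congr_hom
    (t.naturality (SimplexCategory.const ⦋0⦌ ⦋m⦌ w).op) x
  have h2 := congrFun h1 (0 : Fin (0 + 1))
  have h3 : (Δ[n] : SSet.{0}).map (SimplexCategory.const ⦋0⦌ ⦋m⦌ w).op x.1 = pt (x.1 w) := by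
    apply SSet.stdSimplex.objEquiv.injective
    apply SimplexCategory.Hom.ext
    apply OrderHom.ext
    funext y
    rfl
  have h4 : pt (x.1 w) ∈ (SSet.horn.{0} n i).obj (op ⦋0⦌) := by
    rw [← h3]
    exact ((SSet.horn.{0} n i : SSet.{0}).map (SimplexCategory.const ⦋0⦌ ⦋m⦌ w).op x).2
  unfold tv
  rw [dif_pos h4]
  refine Eq.trans h2.symm ?_
  have h5 : (SSet.horn.{0} n i : SSet.{0}).map (SimplexCategory.const ⦋0⦌ ⦋m⦌ w).op x =
    ⟨pt (x.1 w), h4⟩ := Subtype.ext h3
  exact congrArg (fun s => evE (t.app (op ⦋0⦌) s) 0) h5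

/-- the potential of a function of pairs -/
def pot2 {P : Type} [Group P] {n : ℕ} (i : Fin (n + 1)) (H : Fin (n + 1) → Fin (n + 1) → P)
    (v : Fin (n + 1)) : P := if i ≤ v then H i v else (H v i)⁻¹

lemma pot2_spec {P : Type} [Group P] {n : ℕ} (i : Fin (n + 1)) (H : Fin (n + 1) → Fin (n + 1) → P)
    (hH : ∀ u v w, u ≤ v → v ≤ w → H u w = H v w * H u v) (u v : Fin (n + 1)) (h : u ≤ v) :
    H u v = pot2 i H v * (pot2 i H u)⁻¹ := by
  unfold pot2
  by_cases h1 : i ≤ u
  · rw [if_pos h1, if_pos (h1.trans h), hH i u v h1 h, mul_inv_cancel_right]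
  · rw [if_neg h1, inv_inv]
    by_cases h2 : i ≤ v
    · rw [if_pos h2]
      exact hH u i v (le_of_not_ge h1) h2
    · rw [if_neg h2, hH u v i h (le_of_not_ge h2), inv_mul_cancel_left]

/-- the map with given vertices -/
def vmap {P : Type} [Group P] {n : ℕ} (T : Fin (n + 1) → P) : (Δ[n] : SSet.{0}) ⟶ EG P where
  app m := ↾fun x v => T (SSet.stdSimplex.asOrderHom x v)
  naturality m m' θ := by
    ext x
    rfl

/-- the values of a cocycle on the standard simplex -/
def hvb {P : Type} [Group P] {n : ℕ} (τ : Coc (Δ[n] : SSet.{0}) P) (u v : Fin (n + 1)) : P :=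
  if h : u ≤ v then τ.val (ed u v h) else 1

lemma hvb_tri {P : Type} [Group P] {n : ℕ} (τ : Coc (Δ[n] : SSet.{0}) P) (u v w : Fin (n + 1))
    (h : u ≤ v) (h' : v ≤ w) : hvb τ u w = hvb τ v w * hvb τ u v := by
  unfold hvb
  rw [dif_pos (h.trans h'), dif_pos h', dif_pos h]
  have h1 := τ.tri (tr u v w h h')
  obtain ⟨e1, e2, e3⟩ := δ_tr u v w h h'
  rw [e1, e2, e3] at h1
  exact h1

open SSet.modelCategoryQuillen in
theorem EG_fib : HomotopicalAlgebra.Fibration (EGq P) := by
  rw [fibration_iff]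
  intro _ _ _ hf
  simp only [J, MorphismProperty.iSup_iff] at hf
  obtain ⟨n, ⟨i⟩⟩ := hf
  refine ⟨fun {t b} sq ↦ ?_⟩
  let T : Fin (n + 1 + 1) → P := fun v => pot2 i (hvb (ofMap b)) v * tv t i
  have hb : ∀ u v (h : u ≤ v), hvb (ofMap b) u v = (ofMap b).val (ed u v h) := fun u v h => dif_pos h
  have hT : ∀ u v, u ≤ v → T v * (T u)⁻¹ = hvb (ofMap b) u v := by
    intro u v h
    rw [pot2_spec i _ (hvb_tri _) u v h]
    change (pot2 i _ v * tv t i) * (pot2 i _ u * tv t i)⁻¹ = _
    group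
  have hq : ∀ e : (SSet.horn.{0} (n + 1) i : SSet.{0}) _⦋1⦌,
      (ofMap b).val e.1 = tv t (e.1 1) * (tv t (e.1 0))⁻¹ := by
    intro e
    have h1 := congrArg (fun s => vl (s.app (op ⦋1⦌) e)) sq.w
    refine Eq.trans h1.symm ?_
    rw [← tv_spec t e 1, ← tv_spec t e 0]
    rfl
  have hi : ∀ j v, j ≠ i → j ≠ v → T v = tv t v := by
    intro j v hj hv
    change pot2 i (hvb (ofMap b)) v * tv t i = tv t v
    unfold pot2
    split_ifs with h
    · rw [hb i v h]
      have := hq ⟨ed i v h, ed_mem i j i v h hj hj hv⟩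
      rw [this]
      change tv t v * (tv t i)⁻¹ * tv t i = tv t v
      group
    · rw [hb v i (le_of_not_ge h)]
      have := hq ⟨ed v i (le_of_not_ge h), ed_mem i j v i _ hj hv hj⟩
      rw [this]
      change (tv t i * (tv t v)⁻¹)⁻¹ * tv t i = tv t v
      group
  refine ⟨⟨{
    l := vmap T
    fac_left := ?_
    fac_right := ?_ }⟩⟩
  · ext m x
    obtain ⟨m⟩ := m
    induction m using SimplexCategory.rec with
    | _ m =>
      funext w
      have hx := x.2
      rw [SSet.mem_horn_iff_notMem_range] at hx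
      obtain ⟨j, hj, hj2⟩ := hx
      refine Eq.trans ?_ (tv_spec t x w).symm
      exact hi j _ hj (fun h => hj2 ⟨w, h.symm⟩)
  · rw [← toMap_ofMap b, ← toMap_ofMap (vmap T ≫ EGq P)]
    congr 1
    ext e
    change T (e 1) * (T (e 0))⁻¹ = (ofMap b).val e
    rw [hT _ _ (e_mono e), hb _ _ (e_mono e), ← ed_eta]

end Pool.Agent.H5.PC
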