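import Mathlib
import Pool.Agent.H5.PC.EB

set_option autoImplicit false

/-!
Nerves of finite `p`-groups are classifying spaces of `p`-compact groups.
-/

open CategoryTheory Simplicial Opposite Limits MonoidalCategory

noncomputable section

namespace Pool.Agent.H5.PC

section fin

variable {k : Type} [Field k]

lemma finite_homology (X : SSet.{0}) [hX : ∀ n, Finite (X _⦋n⦌)] (n : ℕ) :
    Module.Finite k (SSet.homology X (ModuleCat.of k k) n : ModuleCat.{0} k) := by
  let K := (FC (k := k)).obj X
  have hK : Module.Finite k (K.X n) := by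
    change Module.Finite k (Ch k X n)
    infer_instance
  have h1 : Module.Finite k (K.cycles n) :=
    Module.Finite.of_injective (K.iCycles n).hom (fun a b h => iCycles_inj K n h)
  have h2 : Module.Finite k (K.homology n) :=
    Module.Finite.of_surjective (K.homologyπ n).hom (homologyπ_surj K n)
  let e := HomologicalComplex.homologyMap ((chIso (k := k)).hom.app X) n
  let e' : (SSet.homology X (ModuleCat.of k k) n : ModuleCat.{0} k) ≅ K.homology n :=
    asIso (HomologicalComplex.homologyMap ((chIso (k := k)).hom.app X) n)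
  exact Module.Finite.equiv e'.symm.toLinearEquiv

lemma homology_subsingleton (X : SSet.{0}) (n : ℕ)
    (h : ∀ z : Ch k X n, IsCyc X n z → IsBd X n z) :
    Subsingleton (SSet.homology X (ModuleCat.of k k) n : ModuleCat.{0} k) := by
  let K := (FC (k := k)).obj X
  have h0 : ∀ x : K.homology n, x = 0 := by
    intro x
    obtain ⟨c, rfl⟩ := homologyπ_surj K n x
    rw [homologyπ_zero_iff]
    refine (isBd_iff X n _).1 (h _ ?_)
    exact (isCyc_iff X n _).2 (iCycles_d K n c)
  have h2 : Subsingleton (K.homology n) := ⟨fun a b => (h0 a).trans (h0 b).symm⟩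
  let e' : (SSet.homology X (ModuleCat.of k k) n : ModuleCat.{0} k) ≅ K.homology n :=
    asIso (HomologicalComplex.homologyMap ((chIso (k := k)).hom.app X) n)
  exact e'.toLinearEquiv.toEquiv.subsingleton

lemma EGX_bd (P : Type) (n : ℕ) (z : Ch k (EGX P) (n + 1)) :
    bd (EGX P) n z = (if Even (n + 2) then (0 : k) else 1) • (z : P →₀ k) := by
  induction z using Finsupp.induction_linear with
  | zero => rw [map_zero]; exact (smul_zero _).symm
  | add f g hf hg =>
    rw [map_add, hf, hg]
    exact (smul_add _ _ _).symm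
  | single x a =>
    rw [bd_single]
    have h : ∀ i : Fin (n + 2), (EGX P).δ i x = x := fun i => rfl
    simp only [h]
    rw [← Finset.sum_smul]
    congr 1
    exact Fin.sum_neg_one_pow _ _

theorem EGX_acy (P : Type) (n : ℕ) (z : Ch k (EGX P) (n + 1)) (hz : IsCyc _ (n + 1) z) :
    IsBd _ (n + 1) z := by
  have h1 : bd (EGX P) n z = 0 := hz
  rw [EGX_bd] at h1
  split_ifs at h1 with h
  · refine ⟨(show Ch k (EGX P) (n + 2) from z), ?_⟩
    refine (EGX_bd P (n + 1) _).trans ?_
    have h3 : ¬ Even (n + 1 + 2) := by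
      rw [Nat.even_iff] at *
      omega
    rw [if_neg h3]
    exact one_smul _ _
  · rw [one_smul] at h1
    have h2 : z = 0 := h1
    rw [h2]
    exact isBd_zero

end fin

variable (p : ℕ) [Fact p.Prime]

lemma fpFinite_EGX (P : Type) [Finite P] : FpFinite p (EGX P) := by
  have : ∀ n, Finite ((EGX P) _⦋n⦌) := fun _ => (inferInstance : Finite P)
  refine ⟨fun n => finite_homology (k := ZMod p) (EGX P) n, 0, fun n hn => ?_⟩
  obtain ⟨m, rfl⟩ : ∃ m, n = m + 1 := ⟨n - 1, by omega⟩
  exact homology_subsingleton (k := ZMod p) (EGX P) _ (EGX_acy P m)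

theorem isPCompact_BG (P : Type) [Group P] [Finite P] (hP : IsPGroup p P) :
    IsPCompact p (BG P) where
  complete := pComplete_BG p P hP
  nonempty := ⟨ComposableArrows.mk₀ (SingleObj.star P)⟩
  connected _ _ := ⟨potF P (n := 1) fun _ => 1, sub_BG _ _, sub_BG _ _⟩
  loops := ⟨EG P, EGX P, EGq P, EGi P, toPt _, EGb P, EG_fib P, EGc P, EG_pb P, fpFinite_EGX p P⟩

end Pool.Agent.H5.PC
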