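import Mathlib
import Pool.Agent.H5.PC.Colim
import Pool.Agent.H5.PC.EB2

set_option autoImplicit false

/-!
The direct system of classifying spaces.
-/

open CategoryTheory Limits Simplicial Opposite

noncomputable section

namespace Pool.Agent.H5.PC

variable (p : ℕ) [Fact p.Prime]

/-- the maps of kernels -/
def uK (m : ℕ) : (Tw p m).π.ker →* (tπ p).ker where
  toFun x := ⟨tu p m x.1, by rw [MonoidHom.mem_ker, tπ_tu]; exact x.2⟩
  map_one' := Subtype.ext (map_one _)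
  map_mul' _ _ := Subtype.ext (map_mul _ _ _)

theorem ker_acy (n : ℕ) : Acy (ZMod p) (tπ p).ker (n + 1) := by
  refine acy_of_tower (k := ZMod p) (A := fun m => (Tw p m).π.ker) (uK p) p ?_ ?_ ?_
    (fun m => (uK p (m + 1)).comp (muQ (Tw p m))) ?_ ?_ n
  · intro m x y h
    exact Subtype.ext (tu_inj p m (congrArg Subtype.val h))
  · rintro m _ ⟨x, rfl⟩
    exact ⟨⟨dgl (Tw p m) x.1, x.2⟩, Subtype.ext (tu_succ p m x.1)⟩
  · rintro ⟨x, hx⟩
    obtain ⟨m, y, rfl⟩ := tu_surj p x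
    refine ⟨m, ⟨⟨y, ?_⟩, rfl⟩⟩
    rw [MonoidHom.mem_ker, tπ_tu] at hx
    exact hx
  · intro m
    ext x
    exact tu_succ p m x.1
  · intro m l
    obtain ⟨g, hg⟩ := muQ_conj (Tw p m) l
    refine ⟨uK p (m + 1) g, fun a => ?_⟩
    have := congrArg (uK p (m + 1)) (hg a)
    exact ((map_mul (uK p (m + 1)) _ _).symm.trans this).trans (map_mul (uK p (m + 1)) _ _)

lemma tπ_surj : Function.Surjective (tπ p) := by
  intro c
  obtain ⟨x, hx⟩ := (Tw_props p 0).2.2.2 c
  exact ⟨tu p 0 x, by rw [tπ_tu, hx]⟩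

theorem tπ_equiv : FpEquiv p (Bmap (tπ p)) := by
  rw [fpEquiv_iff]
  intro n
  refine hIso_of_ker_acy (k := ZMod p) (tπ p) (tπ_surj p) (fun j hj => ?_) n
  obtain ⟨i, rfl⟩ : ∃ i, j = i + 1 := ⟨j - 1, by omega⟩
  exact ker_acy p i

/-- nerves as a functor on groups -/
def Bfun : GrpCat.{0} ⥤ SSet.{0} where
  obj G := BG G
  map f := Bmap f.hom
  map_id _ := rfl
  map_comp _ _ := rfl

/-- the direct system of spaces -/
def TX : ℕ ⥤ SSet.{0} := TF p ⋙ Bfun

/-- the cocone of spaces -/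
def TXc : Cocone (TX p) := Bfun.mapCocone (TC p)

lemma tu_mono (m : ℕ) : (tu p m).range ≤ (tu p (m + 1)).range := by
  rintro _ ⟨x, rfl⟩
  exact ⟨dgl (Tw p m) x, tu_succ p m x⟩

lemma TX_surj {n : ℕ} (x : (BG (TL p)) _⦋n⦌) :
    ∃ (m : ℕ) (y : (BG (Tw p m).G) _⦋n⦌), x = (Bmap (tu p m)).app (op ⦋n⦌) y := by
  obtain ⟨m, hm⟩ := exists_stage (tu p) (tu_mono p) (fun x => by
    obtain ⟨m, y, hy⟩ := tu_surj p x
    exact ⟨m, y, hy⟩)
      (fun t : {t : Fin (n + 1) × Fin (n + 1) // t.1 ≤ t.2} => ev (toF x) t.1.1 t.1.2 t.2)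
  obtain ⟨y, hy⟩ := exists_lift_simplex (tu p m) (tu_inj p m) (toF x)
      (fun i j h => hm m le_rfl ⟨(i, j), h⟩)
  exact ⟨m, y, hy.symm⟩

lemma TX_nat {i j : ℕ} (f : i ⟶ j) {n : ℕ} (x : (BG (Tw p i).G) _⦋n⦌) :
    (Bmap (tu p j)).app (op ⦋n⦌) (((TX p).map f).app (op ⦋n⦌) x) =
      (Bmap (tu p i)).app (op ⦋n⦌) x := by
  have h := (TXc p).w f
  exact congrArg (fun t => t.app (op ⦋n⦌) x) h

/-- it is a colimit -/
def TXcc : IsColimit (TXc p) := by
  refine evaluationJointlyReflectsColimits _ fun n => ?_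
  refine Types.FilteredColimit.isColimitOf _ _ (fun x => ?_) (fun i j x y h => ?_)
  · obtain ⟨m, y, hy⟩ := TX_surj p (n := n.unop.len) x
    exact ⟨m, y, hy⟩
  · refine ⟨max i j, homOfLE (le_max_left _ _), homOfLE (le_max_right _ _), ?_⟩
    apply Bmap_inj (tu p (max i j)) (tu_inj p _) n.unop.len
    refine (TX_nat p _ (n := n.unop.len) x).trans (Eq.trans ?_ (TX_nat p _ (n := n.unop.len) y).symm)
    exact h

lemma TX_mono {i j : ℕ} (f : i ⟶ j) : Mono ((TX p).map f) := by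
  have : ∀ n, Mono (((TX p).map f).app n) := by
    intro n
    rw [mono_iff_injective]
    exact Bmap_inj ((TF p).map f).hom (TF_inj p (leOfHom f)) n.unop.len
  exact NatTrans.mono_of_mono_app _

section hom

variable {G H : Type} [Group G] [Group H]

lemma ev_potF {n : ℕ} (T : Fin (n + 1) → G) (i j : Fin (n + 1)) (h : i ≤ j) :
    ev (potF G T) i j h = T j * (T i)⁻¹ := rfl

/-- the edge with value `x` -/
def eg (x : G) : (BG G) _⦋1⦌ := potF G (n := 1) ![1, x]

/-- triangles -/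
def tg (x y : G) : (BG G) _⦋2⦌ := potF G (n := 2) ![1, y, x * y]

lemma tg_faces (x y : G) : (BG G).δ 1 (tg x y) = eg (x * y) ∧ (BG G).δ 0 (tg x y) = eg x ∧
    (BG G).δ 2 (tg x y) = eg y := by
  refine ⟨?_, ?_, ?_⟩
  · refine sobj_ext (n := 1) _ _ fun i j h => ?_
    fin_cases i <;> fin_cases j
    · rfl
    · rfl
    · exact absurd h (by decide)
    · rfl
  · refine sobj_ext (n := 1) _ _ fun i j h => ?_
    fin_cases i <;> fin_cases j
    · change y * y⁻¹ = (1 : G) * 1⁻¹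
      group
    · change x * y * y⁻¹ = x * 1⁻¹
      group
    · exact absurd h (by decide)
    · change x * y * (x * y)⁻¹ = x * x⁻¹
      group
  · refine sobj_ext (n := 1) _ _ fun i j h => ?_
    fin_cases i <;> fin_cases j
    · rfl
    · rfl
    · exact absurd h (by decide)
    · rfl

/-- the homomorphism of a map of nerves -/
def homOf (f : BG G ⟶ BG H) : G →* H :=
  MonoidHom.mk' (fun x => (ofMap f).val (eg x)) (fun x y => by
    have h := (ofMap f).tri (tg x y)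
    obtain ⟨h1, h2, h3⟩ := tg_faces x y
    rw [h1, h2, h3] at h
    exact h)

lemma vl_eg (x : G) : vl (eg x) = x := by
  change x * 1⁻¹ = x
  group

end hom

theorem no_factor (m : ℕ) (f : BG (Multiplicative (ZMod p)) ⟶ BG (Tw p m).G)
    (h : Htpic (f ≫ Bmap (Tw p m).π) (𝟙 _)) : False := by
  obtain ⟨T, hT⟩ := (htpy_iff _ _).1 h
  let c : Multiplicative (ZMod p) := Multiplicative.ofAdd 1
  have h1 := congrArg (fun t => t.val (eg c)) hT
  have h2 : c = T ((BG (Multiplicative (ZMod p))).δ 0 (eg c)) * (Tw p m).π (homOf f c) *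
      (T ((BG (Multiplicative (ZMod p))).δ 1 (eg c)))⁻¹ := (vl_eg c).symm.trans h1
  have h3 : (BG (Multiplicative (ZMod p))).δ 0 (eg c) = (BG (Multiplicative (ZMod p))).δ 1 (eg c) :=
    sub_BG _ _
  rw [h3, mul_comm (T _), mul_inv_cancel_right] at h2
  have h4 : (homOf f c) ^ p = 1 := by
    rw [← map_pow]
    have : c ^ p = 1 := by
      change Multiplicative.ofAdd (p • (1 : ZMod p)) = 1
      rw [nsmul_eq_mul, ZMod.natCast_self, zero_mul]
      rfl
    rw [this, map_one]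
  rw [(Tw_props p m).2.2.1 _ h4] at h2
  have h5 : (1 : ZMod p) = 0 := congrArg Multiplicative.toAdd h2
  exact one_ne_zero h5

/-- The negative answer to both questions. -/
theorem main : ∃ (X : ℕ ⥤ SSet.{0}) (c : Cocone X) (_ : IsColimit c) (BX : SSet.{0})
    (η : c.pt ⟶ BX) (G : Type) (_ : Group G) (_ : Finite G) (Y : SSet.{0})
    (κ : nerve (SingleObj G) ⟶ Y) (g : Y ⟶ BX),
    (∀ m, IsPLocalFinite p (X.obj m)) ∧ (∀ (m n : ℕ) (f : m ⟶ n), Mono (X.map f)) ∧
    IsPCompletion p η ∧ IsPCompact p BX ∧ IsPCompletion p κ ∧ IsPLocalFinite p Y ∧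
    ∀ (m : ℕ) (g' : Y ⟶ X.obj m), ¬ Htpic (g' ≫ c.ι.app m ≫ η) g := by
  have hCf : Finite (Multiplicative (ZMod p)) := (inferInstance : Finite (Multiplicative (ZMod p)))
  have hC : IsPGroup p (Multiplicative (ZMod p)) := by
    refine IsPGroup.of_card (n := 1) ?_
    rw [pow_one]
    exact Nat.card_zmod p
  refine ⟨TX p, TXc p, TXcc p, BG (Multiplicative (ZMod p)), Bmap (tπ p),
    Multiplicative (ZMod p), inferInstance, hCf, BG (Multiplicative (ZMod p)), 𝟙 _, 𝟙 _,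
    fun m => ?_, fun m n f => TX_mono p f, ⟨pComplete_BG p _ hC, tπ_equiv p⟩,
    isPCompact_BG p _ hC, ⟨pComplete_BG p _ hC, ?_⟩, isPLocalFinite_BG p _ hC, ?_⟩
  · have := (Tw_props p m).1
    exact isPLocalFinite_BG p (Tw p m).G (Tw_props p m).2.1
  · intro n
    rw [SSet.homologyMap_id]
    infer_instance
  · intro m g' h
    refine no_factor p m g' ?_
    have e : g' ≫ (TXc p).ι.app m ≫ Bmap (tπ p) = g' ≫ Bmap (Tw p m).π := by
      congr 1
      have : (tπ p).comp (tu p m) = (Tw p m).π := by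
        ext x
        exact congrArg _ (tπ_tu p m x)
      rw [← this]
      rfl
    rw [e] at h
    exact h

end Pool.Agent.H5.PC
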